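import Pool.Agent.InfR.Main26

/-!
# MODULE Base26: infinitely many parameters

`W26 : y² = x (x + 25)(x + 81)`, `P0 = (15, 240)`.
For a point `(x, y)` of `W26`: `m = (6 (x + 25) - y)/(2 (x + 60))`, `W = m² - 6m - (x + 5)/2`,
`u = (m² - 16m + 10)/(m² - 10)`, `v = 8 + m (u - 1)`, `w = 4 W/(m² - 10)`, `r = (9 - u²)/(3 (u² - 1))` satisfy
`W² = m⁴ - 12m³ + 91m² - 120m + 100`, `v² = 10u² + 54`, `w² = 6u² + 10` (if the denominators are nonzero; the first
equation is `(x + 60)·…`: from the definition of `m`, `y = 6(x+25) - 2m(x+60)`).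
At `S0 = -P0 = (15, -240)`: `m = 16/5, u = -129, v = -408, w = -316, r = -693/2080`; modulo 17, 23, 31, 37, 41:
`(x, y) = (15,15), (15,13), (15,8), (15,19), (15,6)`, `m = 10, 17, 28, 18, 36`, `u = 7, 9, 26, 19, 35`,
`v = 0, 6, 26, 36, 2`, `w = 7, 6, 25, 17, 12`, `r = 12, 2, 17, 29, 22`.
`P0` has infinite order: `torsion_dvd` with 13, 17 (`card_B13 = 16`, `card_B17 = 24`): otherwise `8 P0 = 0`,
but `mul_B17`.
Let `f_q` (`q = 17, 23, 31, 37, 41`) be the reductions (`exists_rdn`), `M = ∏ Nat.card (W26 mod q)` (nonzero), so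
`f_q (M P0) = 0`, and `S_k = -P0 + k M P0`: `f_q (S_k) = f_q (-P0) ≠ 0`, so `S_k = (x, y)` with `x, y` congruent to
`15, -240` (`Rdn.int`, `Rdn.red`), so the values satisfy `St26`.  The `S_k` are different.
`base26`: the map `(x, y) ↦ r` has finite fibres: `u` is a root of `(3r+1) u² - (9 + 3r)` (not the zero
polynomial), `m` is a root of `(u - 1) m² + 16 m - 10 (u + 1)`, `x` is a root of the monic cubic
`x (x + 25)(x + 81) - (6 (x + 25) - 2m (x + 60))²`, and `y = 6 (x + 25) - 2m (x + 60)`.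
`final26`: `j (E26 r) = j0` is a polynomial equation `c4(r)³ = j0 Δ(r)` for `r`, nonzero because `c4(0) = 16`,
`Δ(0) = 0`.
-/

set_option autoImplicit false

namespace Pool.Agent.InfR

open WeierstrassCurve

section aux

/-- the slope `m` -/
private noncomputable def bm (x y : ℚ) : ℚ := (6 * (x + 25) - y) / (2 * (x + 60))

private noncomputable def bu (m : ℚ) : ℚ := (m ^ 2 - 16 * m + 10) / (m ^ 2 - 10)

private noncomputable def bv (m : ℚ) : ℚ := 8 + m * (bu m - 1)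

private noncomputable def bw (x m : ℚ) : ℚ := 4 * (m ^ 2 - 6 * m - (x + 5) / 2) / (m ^ 2 - 10)

private noncomputable def br (u : ℚ) : ℚ := (9 - u ^ 2) / (3 * (u ^ 2 - 1))

private theorem cdiv {p : ℕ} [Fact p.Prime] {s t : ℚ} {c d e : ZMod p} (hs : Cg p s c)
    (ht : Cg p t d) (hd : d ≠ 0) (he : c = e * d) : Cg p (s / t) e := by
  have h := hs.div ht hd
  rwa [(div_eq_iff hd).2 he] at h

private theorem cg_m {p : ℕ} [Fact p.Prime] {x y : ℚ} {a b : ZMod p} (hx : Cg p x a)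
    (hy : Cg p y b) (m : ZMod p) (h : 2 * (a + 60) ≠ 0)
    (hm : 6 * (a + 25) - b = m * (2 * (a + 60))) : Cg p (bm x y) m :=
  cdiv (((Cg.ofNat 6).mul (hx.add (Cg.ofNat 25))).sub hy)
    ((Cg.ofNat 2).mul (hx.add (Cg.ofNat 60))) h hm

private theorem cg_u {p : ℕ} [Fact p.Prime] {m : ℚ} {a : ZMod p} (hm : Cg p m a) (u : ZMod p)
    (h : a ^ 2 - 10 ≠ 0) (hu : a ^ 2 - 16 * a + 10 = u * (a ^ 2 - 10)) : Cg p (bu m) u :=
  cdiv (((hm.pow 2).sub ((Cg.ofNat 16).mul hm)).add (Cg.ofNat 10))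
    ((hm.pow 2).sub (Cg.ofNat 10)) h hu

private theorem cg_v {p : ℕ} [Fact p.Prime] {m : ℚ} {a c : ZMod p} (hm : Cg p m a)
    (hu : Cg p (bu m) c) (v : ZMod p) (h : 8 + a * (c - 1) = v) : Cg p (bv m) v := by
  rw [← h]
  exact (Cg.ofNat 8).add (hm.mul (hu.sub Cg.one))

private theorem cg_w {p : ℕ} [Fact p.Prime] {x m : ℚ} {b a : ZMod p} (hx : Cg p x b)
    (hm : Cg p m a) (i w : ZMod p) (h2 : (2 : ZMod p) ≠ 0) (hi : b + 5 = i * 2)
    (h : a ^ 2 - 10 ≠ 0) (hw : 4 * (a ^ 2 - 6 * a - i) = w * (a ^ 2 - 10)) : Cg p (bw x m) w :=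
  cdiv ((Cg.ofNat 4).mul (((hm.pow 2).sub ((Cg.ofNat 6).mul hm)).sub
    (cdiv (hx.add (Cg.ofNat 5)) (Cg.ofNat 2) h2 hi))) ((hm.pow 2).sub (Cg.ofNat 10)) h hw

private theorem cg_r {p : ℕ} [Fact p.Prime] {u : ℚ} {a : ZMod p} (hu : Cg p u a) (r : ZMod p)
    (h : 3 * (a ^ 2 - 1) ≠ 0) (hr : 9 - a ^ 2 = r * (3 * (a ^ 2 - 1))) : Cg p (br u) r :=
  cdiv ((Cg.ofNat 9).sub (hu.pow 2)) ((Cg.ofNat 3).mul ((hu.pow 2).sub Cg.one)) h hr

private theorem eq_v {m : ℚ} (h : m ^ 2 - 10 ≠ 0) : bv m ^ 2 = 10 * bu m ^ 2 + 54 := by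
  unfold bv bu
  field_simp
  ring

private theorem eq_w {x y m : ℚ} (hE : y ^ 2 = x * (x + 25) * (x + 81)) (hx : x + 60 ≠ 0)
    (hm : y = 6 * (x + 25) - 2 * m * (x + 60)) (h : m ^ 2 - 10 ≠ 0) :
    bw x m ^ 2 = 6 * bu m ^ 2 + 10 := by
  have h1 : (m ^ 2 - 6 * m - (x + 5) / 2) ^ 2 =
      m ^ 4 - 12 * m ^ 3 + 91 * m ^ 2 - 120 * m + 100 := by
    have h2 : 4 * (x + 60) * ((m ^ 2 - 6 * m - (x + 5) / 2) ^ 2 -
        (m ^ 4 - 12 * m ^ 3 + 91 * m ^ 2 - 120 * m + 100)) = 0 := by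
      rw [hm] at hE
      linear_combination -hE
    have h3 : 4 * (x + 60) ≠ 0 := mul_ne_zero (by norm_num) hx
    have h4 := (mul_eq_zero.1 h2).resolve_left h3
    linarith
  unfold bw bu
  rw [div_pow, div_pow, div_eq_iff (pow_ne_zero 2 h), mul_pow, h1]
  field_simp
  ring

private theorem eq_r {u : ℚ} (h : u ^ 2 - 1 ≠ 0) : 3 * br u * (u ^ 2 - 1) = 9 - u ^ 2 := by
  unfold br
  field_simp

private theorem eq_m {x y : ℚ} (hx : x + 60 ≠ 0) :
    y = 6 * (x + 25) - 2 * bm x y * (x + 60) := by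
  unfold bm
  field_simp
  ring

private theorem dec17 (x y : ℚ) (hx : Cg 17 x 15) (hy : Cg 17 y (-240)) :
    x + 60 ≠ 0 ∧ bm x y ^ 2 - 10 ≠ 0 ∧ bu (bm x y) ^ 2 - 1 ≠ 0 := by
  have h1 : Cg 17 (bm x y) 10 := cg_m hx hy 10 (by decide) (by decide)
  have h2 : Cg 17 (bu (bm x y)) 7 := cg_u h1 7 (by decide) (by decide)
  exact ⟨(hx.add (Cg.ofNat 60)).ne_zero (by decide),
    ((h1.pow 2).sub (Cg.ofNat 10)).ne_zero (by decide),
    ((h2.pow 2).sub Cg.one).ne_zero (by decide)⟩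

private theorem st_of (x y : ℚ) (hE : y ^ 2 = x * (x + 25) * (x + 81))
    (hx17 : Cg 17 x 15) (hy17 : Cg 17 y (-240)) (hx23 : Cg 23 x 15) (hy23 : Cg 23 y (-240))
    (hx31 : Cg 31 x 15) (hy31 : Cg 31 y (-240)) (hx37 : Cg 37 x 15) (hy37 : Cg 37 y (-240))
    (hx41 : Cg 41 x 15) (hy41 : Cg 41 y (-240)) :
    St26 (br (bu (bm x y))) (bu (bm x y)) (bv (bm x y)) (bw x (bm x y)) := by
  obtain ⟨d1, d2, d3⟩ := dec17 x y hx17 hy17
  have m17 : Cg 17 (bm x y) 10 := cg_m hx17 hy17 10 (by decide) (by decide)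
  have m23 : Cg 23 (bm x y) 17 := cg_m hx23 hy23 17 (by decide) (by decide)
  have m31 : Cg 31 (bm x y) 28 := cg_m hx31 hy31 28 (by decide) (by decide)
  have m37 : Cg 37 (bm x y) 18 := cg_m hx37 hy37 18 (by decide) (by decide)
  have m41 : Cg 41 (bm x y) 36 := cg_m hx41 hy41 36 (by decide) (by decide)
  have u17 : Cg 17 (bu (bm x y)) 7 := cg_u m17 7 (by decide) (by decide)
  have u23 : Cg 23 (bu (bm x y)) 9 := cg_u m23 9 (by decide) (by decide)
  have u31 : Cg 31 (bu (bm x y)) 26 := cg_u m31 26 (by decide) (by decide)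
  have u37 : Cg 37 (bu (bm x y)) 19 := cg_u m37 19 (by decide) (by decide)
  have u41 : Cg 41 (bu (bm x y)) 35 := cg_u m41 35 (by decide) (by decide)
  exact
  { e1 := eq_v d2
    e2 := eq_w hE d1 (eq_m d1) d2
    e3 := eq_r d3
    r17 := cg_r u17 12 (by decide) (by decide)
    r23 := cg_r u23 2 (by decide) (by decide)
    r31 := cg_r u31 17 (by decide) (by decide)
    r37 := cg_r u37 29 (by decide) (by decide)
    r41 := cg_r u41 22 (by decide) (by decide)
    u17 := u17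
    u23 := u23
    u31 := u31
    u37 := u37
    u41 := u41
    v17 := cg_v m17 u17 0 (by decide)
    v23 := cg_v m23 u23 6 (by decide)
    v31 := cg_v m31 u31 26 (by decide)
    v37 := cg_v m37 u37 36 (by decide)
    v41 := cg_v m41 u41 2 (by decide)
    w17 := cg_w hx17 m17 10 7 (by decide) (by decide) (by decide) (by decide)
    w23 := cg_w hx23 m23 10 6 (by decide) (by decide) (by decide) (by decide)
    w31 := cg_w hx31 m31 10 25 (by decide) (by decide) (by decide) (by decide)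
    w37 := cg_w hx37 m37 10 17 (by decide) (by decide) (by decide) (by decide)
    w41 := cg_w hx41 m41 10 12 (by decide) (by decide) (by decide) (by decide) }

private theorem fin_cubic (a b c d : ℚ) (h : a ≠ 0 ∨ b ≠ 0 ∨ c ≠ 0 ∨ d ≠ 0) :
    {x : ℚ | a * x ^ 3 + b * x ^ 2 + c * x + d = 0}.Finite := by
  have h0 : (⟨a, b, c, d⟩ : Cubic ℚ).toPoly ≠ 0 := by
    rcases h with h | h | h | h
    · exact Cubic.ne_zero_of_a_ne_zero h
    · exact Cubic.ne_zero_of_b_ne_zero h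
    · exact Cubic.ne_zero_of_c_ne_zero h
    · exact Cubic.ne_zero_of_d_ne_zero h
  refine (Polynomial.finite_setOfPred_isRoot h0).subset ?_
  intro x hx
  simpa [Polynomial.IsRoot, Cubic.toPoly] using hx

private theorem fin_fibre (r : ℚ) : {q : ℚ × ℚ | q.2 ^ 2 = q.1 * (q.1 + 25) * (q.1 + 81) ∧
    q.1 + 60 ≠ 0 ∧ bm q.1 q.2 ^ 2 - 10 ≠ 0 ∧ bu (bm q.1 q.2) ^ 2 - 1 ≠ 0 ∧
    br (bu (bm q.1 q.2)) = r}.Finite := by
  have hU : {u : ℚ | 0 * u ^ 3 + (3 * r + 1) * u ^ 2 + 0 * u + (-(9 + 3 * r)) = 0}.Finite := by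
    apply fin_cubic
    by_cases h : 3 * r + 1 = 0
    · right; right; right
      intro h2
      linarith
    · right; left; exact h
  have hM : ∀ u : ℚ, {m : ℚ | 0 * m ^ 3 + (u - 1) * m ^ 2 + 16 * m + (-(10 * (u + 1))) = 0}.Finite := by
    intro u
    apply fin_cubic
    right; right; left; norm_num
  have hX : ∀ m : ℚ, {x : ℚ | 1 * x ^ 3 + (106 - (6 - 2 * m) ^ 2) * x ^ 2 +
      (2025 - 2 * (6 - 2 * m) * (150 - 120 * m)) * x + (-(150 - 120 * m) ^ 2) = 0}.Finite := by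
    intro m
    apply fin_cubic
    left; norm_num
  have hfin := hU.biUnion (fun u _ => (hM u).biUnion (fun m _ =>
    (hX m).image (fun x => ((x, 6 * (x + 25) - 2 * m * (x + 60)) : ℚ × ℚ))))
  refine hfin.subset ?_
  rintro ⟨x, y⟩ ⟨hE, h1, h2, h3, h4⟩
  simp only at hE h1 h2 h3 h4
  simp only [Set.mem_iUnion]
  refine ⟨bu (bm x y), ?_, bm x y, ?_, x, ?_, ?_⟩
  · have h5 := eq_r h3
    rw [h4] at h5
    simp only [Set.mem_ofPred_eq]
    linear_combination h5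
  · have h5 : bu (bm x y) * (bm x y ^ 2 - 10) = bm x y ^ 2 - 16 * bm x y + 10 := by
      unfold bu
      exact div_mul_cancel₀ _ h2
    simp only [Set.mem_ofPred_eq]
    linear_combination h5
  · have h5 := eq_m (y := y) h1
    simp only [Set.mem_ofPred_eq]
    generalize bm x y = m at *
    rw [h5] at hE
    linear_combination -hE
  · have h5 := eq_m (y := y) h1
    simp only [Prod.mk.injEq, true_and]
    exact h5.symm

private def Vq (q : ℕ) : WeierstrassCurve (ZMod q) := ⟨0, 106, 0, 2025, 0⟩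

private theorem red_ex (q : ℕ) [Fact q.Prime] (h : (Vq q).Δ ≠ 0) : ∃ f, Rdn W26 q (Vq q) f :=
  exists_rdn Cg.zero (Cg.ofNat 106) Cg.zero (Cg.ofNat 2025) Cg.zero h

private theorem ns0 : W26.toAffine.Nonsingular 15 240 := by
  rw [Affine.nonsingular_iff, Affine.equation_iff]
  norm_num [W26]

private theorem ns1 : W26.toAffine.Nonsingular 15 (-240) := by
  rw [Affine.nonsingular_iff, Affine.equation_iff]
  norm_num [W26]

private theorem red13 : ∃ f, Rdn W26 13 B13 f :=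
  exists_rdn Cg.zero (by simpa [W26, B13] using (by decide : (106 : ZMod 13) = 2) ▸ Cg.ofNat (p := 13) 106) Cg.zero
    (by simpa [W26, B13] using (by decide : (2025 : ZMod 13) = 10) ▸ Cg.ofNat (p := 13) 2025) Cg.zero (by decide)

private theorem red17 : ∃ f, Rdn W26 17 B17 f :=
  exists_rdn Cg.zero (by simpa [W26, B17] using (by decide : (106 : ZMod 17) = 4) ▸ Cg.ofNat (p := 17) 106) Cg.zero
    (by simpa [W26, B17] using (by decide : (2025 : ZMod 17) = 2) ▸ Cg.ofNat (p := 17) 2025) Cg.zero (by decide)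

private theorem not_fin : ¬ IsOfFinAddOrder (Affine.Point.some 15 240 ns0 : W26.toAffine.Point) := by
  intro hfin
  obtain ⟨f, hf⟩ := red13
  obtain ⟨g, hg⟩ := red17
  have h1 : ¬ 13 ∣ Nat.card B17.toAffine.Point := by rw [card_B17]; decide
  have h2 : ¬ 17 ∣ Nat.card B13.toAffine.Point := by rw [card_B13]; decide
  obtain ⟨hF, d1, d2⟩ := torsion_dvd (by decide) hf hg h1 h2
  rw [card_B13] at d1
  rw [card_B17] at d2
  have d3 : Nat.card (AddCommGroup.torsion W26.toAffine.Point) ∣ 8 := Nat.dvd_gcd d1 d2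
  obtain ⟨c, hc⟩ := d3
  have e1 : (8 : ℕ) • (⟨_, hfin⟩ : AddCommGroup.torsion W26.toAffine.Point) = 0 := by
    rw [hc, mul_comm, mul_nsmul, card_nsmul_eq_zero']
  have e2 : (8 : ℕ) • (Affine.Point.some 15 240 ns0 : W26.toAffine.Point) = 0 :=
    congrArg Subtype.val e1
  have h15 : Cg 17 (15 : ℚ) 15 := Cg.ofNat 15
  have h240 : Cg 17 (240 : ℚ) 2 := by
    have h := Cg.ofNat (p := 17) 240
    rwa [(by decide : (OfNat.ofNat 240 : ZMod 17) = 2)] at h
  obtain ⟨h', e3⟩ := hg.red 15 240 ns0 15 2 h15 h240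
  apply mul_B17 h'
  rw [← e3, ← map_nsmul, e2, map_zero]

private theorem point_cg {p : ℕ} [Fact p.Prime] {f : W26.toAffine.Point →+ (Vq p).toAffine.Point}
    (hf : Rdn W26 p (Vq p) f) (x y : ℚ) (h : W26.toAffine.Nonsingular x y)
    (he : f (.some x y h) = f (.some 15 (-240) ns1)) : Cg p x 15 ∧ Cg p y (-240) := by
  obtain ⟨h', e1⟩ := hf.red 15 (-240) ns1 15 (-240) (Cg.ofNat 15) (Cg.ofNat 240).neg
  rw [e1] at he
  obtain ⟨d1, d2⟩ := hf.int x y h (by rw [he]; exact Affine.Point.some_ne_zero h')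
  obtain ⟨h'', e2⟩ := hf.red x y h _ _ (cg_cast d1) (cg_cast d2)
  rw [e2] at he
  obtain ⟨a1, a2⟩ := Affine.Point.some.inj he
  exact ⟨⟨d1, a1⟩, ⟨d2, a2⟩⟩

private theorem card_ne (p : ℕ) [Fact p.Prime] : Nat.card (Vq p).toAffine.Point ≠ 0 :=
  Nat.card_pos.ne'

open Polynomial in
private theorem fin_j (j0 : ℚ) : {r : ℚ | (E26 r).c₄ ^ 3 = j0 * (E26 r).Δ}.Finite := by
  let EX : WeierstrassCurve ℚ[X] :=
    ⟨0, X ^ 3 * (X + 2) + (2 * X + 1), 0, X ^ 3 * (X + 2) * (2 * X + 1), 0⟩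
  have hmap : ∀ r : ℚ, EX.map (Polynomial.evalRingHom r) = E26 r := by
    intro r
    simp [EX, E26, WeierstrassCurve.map]
  have hc : ∀ r : ℚ, (E26 r).c₄ = EX.c₄.eval r := by
    intro r
    rw [← hmap r, WeierstrassCurve.map_c₄]
    rfl
  have hd : ∀ r : ℚ, (E26 r).Δ = EX.Δ.eval r := by
    intro r
    rw [← hmap r, WeierstrassCurve.map_Δ]
    rfl
  have hne : EX.c₄ ^ 3 - C j0 * EX.Δ ≠ 0 := by
    intro h0
    have h1 := congrArg (Polynomial.eval 0) h0
    rw [eval_sub, eval_pow, eval_mul, eval_C, ← hc 0, ← hd 0] at h1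
    norm_num [E26, WeierstrassCurve.c₄, WeierstrassCurve.Δ, WeierstrassCurve.b₂,
      WeierstrassCurve.b₄, WeierstrassCurve.b₆, WeierstrassCurve.b₈] at h1
  refine (Polynomial.finite_setOfPred_isRoot hne).subset ?_
  intro r hr
  have h2 : (E26 r).c₄ ^ 3 = j0 * (E26 r).Δ := hr
  show Polynomial.eval r (EX.c₄ ^ 3 - C j0 * EX.Δ) = 0
  rw [eval_sub, eval_pow, eval_mul, eval_C, ← hc r, ← hd r, h2, sub_self]

end aux

theorem base26 : Set.Infinite {r : ℚ | ∃ u v w : ℚ, St26 r u v w} := by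
  obtain ⟨f17, h17⟩ := red_ex 17 (by decide)
  obtain ⟨f23, h23⟩ := red_ex 23 (by decide)
  obtain ⟨f31, h31⟩ := red_ex 31 (by decide)
  obtain ⟨f37, h37⟩ := red_ex 37 (by decide)
  obtain ⟨f41, h41⟩ := red_ex 41 (by decide)
  set M : ℕ := Nat.card (Vq 17).toAffine.Point * Nat.card (Vq 23).toAffine.Point *
    Nat.card (Vq 31).toAffine.Point * Nat.card (Vq 37).toAffine.Point *
    Nat.card (Vq 41).toAffine.Point with hMdef
  have hM : M ≠ 0 := by
    have a1 := card_ne 17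
    have a2 := card_ne 23
    have a3 := card_ne 31
    have a4 := card_ne 37
    have a5 := card_ne 41
    rw [hMdef]
    exact mul_ne_zero (mul_ne_zero (mul_ne_zero (mul_ne_zero a1 a2) a3) a4) a5
  set Q : W26.toAffine.Point := M • (Affine.Point.some 15 240 ns0 : W26.toAffine.Point) with hQ
  have hQfin : ¬ IsOfFinAddOrder Q := by
    intro h
    apply not_fin
    obtain ⟨n, hn, h0⟩ := isOfFinAddOrder_iff_nsmul_eq_zero.1 h
    refine isOfFinAddOrder_iff_nsmul_eq_zero.2 ⟨n * M, Nat.mul_pos hn (Nat.pos_of_ne_zero hM), ?_⟩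
    rw [mul_nsmul', ← hQ, h0]
  have hinj := injective_nsmul_iff_not_isOfFinAddOrder.2 hQfin
  have kill : ∀ {p : ℕ} [Fact p.Prime] (f : W26.toAffine.Point →+ (Vq p).toAffine.Point),
      Nat.card (Vq p).toAffine.Point ∣ M → ∀ k : ℕ,
      f (.some 15 (-240) ns1 + k • Q) = f (.some 15 (-240) ns1) := by
    intro p _ f hd k
    have e : f Q = 0 := by
      obtain ⟨c, hc⟩ := hd
      rw [hQ, map_nsmul, hc, mul_nsmul, card_nsmul_eq_zero', nsmul_zero]
    rw [map_add, map_nsmul, e, nsmul_zero, add_zero]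
  have hex : ∀ k : ℕ, ∃ (x y : ℚ) (h : W26.toAffine.Nonsingular x y),
      (.some 15 (-240) ns1 + k • Q : W26.toAffine.Point) = .some x y h := by
    intro k
    have hk := kill f17 (by rw [hMdef]; simp only [mul_assoc]; exact dvd_mul_right _ _) k
    obtain ⟨h', e1⟩ := h17.red 15 (-240) ns1 15 (-240) (Cg.ofNat 15) (Cg.ofNat 240).neg
    generalize (.some 15 (-240) ns1 + k • Q : W26.toAffine.Point) = S at hk
    cases S with
    | zero =>
      exfalso
      rw [e1] at hk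
      have h0 : f17 (Affine.Point.zero : W26.toAffine.Point) = 0 := f17.map_zero
      rw [h0] at hk
      exact Affine.Point.some_ne_zero h' hk.symm
    | some x y h => exact ⟨x, y, h, rfl⟩
  choose x y h hS using hex
  have hcg : ∀ {p : ℕ} [Fact p.Prime] (f : W26.toAffine.Point →+ (Vq p).toAffine.Point),
      Rdn W26 p (Vq p) f → Nat.card (Vq p).toAffine.Point ∣ M → ∀ k : ℕ,
      Cg p (x k) 15 ∧ Cg p (y k) (-240) := by
    intro p _ f hf hd k
    refine point_cg hf (x k) (y k) (h k) ?_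
    rw [← hS k]
    exact kill f hd k
  have a17 := hcg f17 h17 ⟨Nat.card (Vq 23).toAffine.Point *
    Nat.card (Vq 31).toAffine.Point * Nat.card (Vq 37).toAffine.Point *
    Nat.card (Vq 41).toAffine.Point, by rw [hMdef]; ring⟩
  have a23 := hcg f23 h23 ⟨Nat.card (Vq 17).toAffine.Point *
    Nat.card (Vq 31).toAffine.Point * Nat.card (Vq 37).toAffine.Point *
    Nat.card (Vq 41).toAffine.Point, by rw [hMdef]; ring⟩
  have a31 := hcg f31 h31 ⟨Nat.card (Vq 17).toAffine.Point * Nat.card (Vq 23).toAffine.Point *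
    Nat.card (Vq 37).toAffine.Point * Nat.card (Vq 41).toAffine.Point, by rw [hMdef]; ring⟩
  have a37 := hcg f37 h37 ⟨Nat.card (Vq 17).toAffine.Point * Nat.card (Vq 23).toAffine.Point *
    Nat.card (Vq 31).toAffine.Point * Nat.card (Vq 41).toAffine.Point, by rw [hMdef]; ring⟩
  have a41 := hcg f41 h41 ⟨Nat.card (Vq 17).toAffine.Point * Nat.card (Vq 23).toAffine.Point *
    Nat.card (Vq 31).toAffine.Point * Nat.card (Vq 37).toAffine.Point, by rw [hMdef]; ring⟩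
  have hEq : ∀ k, y k ^ 2 = x k * (x k + 25) * (x k + 81) := by
    intro k
    have h1 := (h k).1
    rw [Affine.equation_iff] at h1
    simp only [W26, WeierstrassCurve.toAffine] at h1
    linear_combination h1
  have hst : ∀ k, St26 (br (bu (bm (x k) (y k)))) (bu (bm (x k) (y k))) (bv (bm (x k) (y k)))
      (bw (x k) (bm (x k) (y k))) := fun k =>
    st_of (x k) (y k) (hEq k) (a17 k).1 (a17 k).2 (a23 k).1 (a23 k).2 (a31 k).1 (a31 k).2
      (a37 k).1 (a37 k).2 (a41 k).1 (a41 k).2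
  have hxy : Function.Injective (fun k : ℕ => ((x k, y k) : ℚ × ℚ)) := by
    intro j k hjk
    obtain ⟨e1, e2⟩ := Prod.mk.inj hjk
    have e3 : (.some (x j) (y j) (h j) : W26.toAffine.Point) = .some (x k) (y k) (h k) := by
      simp only [Affine.Point.some.injEq]
      exact ⟨e1, e2⟩
    rw [← hS j, ← hS k] at e3
    exact hinj (add_left_cancel e3)
  intro hfin
  refine Set.infinite_range_of_injective hxy ?_
  refine (hfin.biUnion (fun r _ => fin_fibre r)).subset ?_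
  rintro _ ⟨k, rfl⟩
  simp only [Set.mem_iUnion]
  refine ⟨br (bu (bm (x k) (y k))), ⟨_, _, _, hst k⟩, hEq k, ?_⟩
  obtain ⟨d1, d2, d3⟩ := dec17 (x k) (y k) (a17 k).1 (a17 k).2
  exact ⟨d1, d2, d3, rfl⟩

theorem final26 : Set.Infinite {j : ℚ | ∃ (E : WeierstrassCurve ℚ) (_ : E.IsElliptic),
    E.j = j ∧ HasTorsion E 2 6 ∧ 4 ≤ Module.rank ℤ E.toAffine.Point} := by
  intro hfin
  apply base26
  refine (hfin.biUnion (fun j0 _ => fin_j j0)).subset ?_
  rintro r ⟨u, v, w, h⟩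
  have hΔ := main26_ell h
  have hE : (E26 r).IsElliptic := ⟨isUnit_iff_ne_zero.2 hΔ⟩
  simp only [Set.mem_iUnion]
  refine ⟨(E26 r).j, ⟨E26 r, hE, rfl, main26_tor h, main26_rank h⟩, ?_⟩
  have h1 : (E26 r).j * (E26 r).Δ = (E26 r).c₄ ^ 3 := by
    rw [WeierstrassCurve.j, ← WeierstrassCurve.coe_Δ', mul_comm, ← mul_assoc, Units.mul_inv,
      one_mul]
  exact h1.symm

end Pool.Agent.InfR
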