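import Pool.Agent.InfR.Main7

/-!
# MODULE Base7: infinitely many parameters

`W7 : y² = x³ - 197x² + 9720x`, `G = (45, 360)`, `2G = (29241/256, -712557/4096)`.
For a point `(x, y)` of `W7`: `n = (y + 1512 - 15x) / (2 (216 - x))`, `t = (1 - n²)/(n (7n - 2))`,
`z1 = t + 1/n`, `z2 = (2n² - 30n + 103 - x)/(n (7n - 2))` satisfy `z1² = t² + 7t + 1`,
`z2² = 25t² + 66t + 9` (if the denominators are nonzero).
`2G` mod 19: `(0, 0)`, `n = 13, t = 8, z1 = 11, z2 = 3`; mod 23: `(18, 3)`, `n = 19, t = 20, z1 = 14, z2 = 6`;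
mod 31: `(1, 10)`, `n = 3, t = 14, z1 = 4, z2 = 25`; mod 37: `(21, 1)`, `n = 34, t = 9, z1 = 21, z2 = 36`.
`G` has infinite order: `torsion_dvd` with 11, 17 (`card_A11 = 18`, `card_A17 = 16`): the torsion has order
dividing 2, but `2G ≠ 0`.
Let `f_q` (`q = 19, 23, 31, 37`) be the reductions (`exists_rdn`), `M = ∏ Nat.card (W7 mod q)` (nonzero), so
`f_q (M G) = 0`, and `Q_k = 2G + k M G`: `f_q (Q_k) = f_q (2G) ≠ 0`, so `Q_k = (x, y)` with `x, y` congruent to the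
coordinates of `2G` (`Rdn.int`, `Rdn.red`), so `t(Q_k), z1, z2` satisfy `St7`.  The `Q_k` are different.
`base7`: the map `(x, y) ↦ t` has finite fibres on the curve: `n` is a root of `(1 - n²) - t n (7n - 2)` (value
`1` at `n = 0`) and `x` a root of the monic cubic
`x³ - 197x² + 9720x - (2n (216 - x) - 1512 + 15x)²`, and `y = 2n (216 - x) - 1512 + 15x`.
`final7`: `j (E7 t) = j0` is a polynomial equation `c4(t)³ = j0 Δ(t)` for `t`, nonzero because `c4(0) = 1`,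
`Δ(0) = 0`.
-/

set_option autoImplicit false

namespace Pool.Agent.InfR

open WeierstrassCurve

theorem W7_Δ : W7.Δ ≠ 0 := by
  simp only [WeierstrassCurve.Δ, WeierstrassCurve.b₂, WeierstrassCurve.b₄, WeierstrassCurve.b₆,
    WeierstrassCurve.b₈, W7]
  norm_num

theorem W7_eq (x y : ℚ) : W7.toAffine.Equation x y ↔ y ^ 2 = x ^ 3 - 197 * x ^ 2 + 9720 * x := by
  rw [Affine.equation_iff]
  simp only [W7]
  constructor
  · intro h
    linear_combination h
  · intro h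
    linear_combination h

theorem W7_ns {x y : ℚ} (h : y ^ 2 = x ^ 3 - 197 * x ^ 2 + 9720 * x) :
    W7.toAffine.Nonsingular x y :=
  (Affine.equation_iff_nonsingular_of_Δ_ne_zero W7_Δ).1 ((W7_eq x y).2 h)

theorem W7_rdn (p : ℕ) [Fact p.Prime] (V : WeierstrassCurve (ZMod p)) (h1 : V.a₁ = 0)
    (h2 : V.a₂ = -197) (h3 : V.a₃ = 0) (h4 : V.a₄ = 9720) (h6 : V.a₆ = 0) (hΔ : V.Δ ≠ 0) :
    ∃ f, Rdn W7 p V f := by
  refine exists_rdn ?_ ?_ ?_ ?_ ?_ hΔ
  · rw [h1]; exact Cg.zero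
  · rw [h2]; exact (Cg.ofNat 197).neg
  · rw [h3]; exact Cg.zero
  · rw [h4]; exact Cg.ofNat 9720
  · rw [h6]; exact Cg.zero

theorem nsG : W7.toAffine.Nonsingular 45 360 := W7_ns (by norm_num)
theorem nsG2 : W7.toAffine.Nonsingular (29241 / 256) (-712557 / 4096) := W7_ns (by norm_num)

/-- the point `G` -/
def gG : W7.toAffine.Point := .some 45 360 nsG

/-- the point `2 G` -/
def gG2 : W7.toAffine.Point := .some (29241 / 256) (-712557 / 4096) nsG2

theorem two_gG : (2 : ℕ) • gG = gG2 := by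
  have h3 : W7.toAffine.Nonsingular (29241 / 256) (712557 / 4096) := W7_ns (by norm_num)
  have h := Pool.Agent.RkT.line_sum (W := W7) (l := -43 / 16) (n := 360 + 43 / 16 * 45)
    nsG nsG h3 (by norm_num) (by norm_num) (by norm_num)
    ⟨by simp only [W7]; norm_num, by simp only [W7]; norm_num, by simp only [W7]; norm_num⟩
  have h5 : gG2 = -(Affine.Point.some (29241 / 256) (712557 / 4096) h3 : W7.toAffine.Point) := by
    rw [Affine.Point.neg_some]
    unfold gG2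
    congr 1
    simp only [Affine.negY, W7]
    norm_num
  rw [h5, two_nsmul]
  exact eq_neg_of_add_eq_zero_left h

theorem gG_inf : ¬ IsOfFinAddOrder gG := by
  intro hfin
  obtain ⟨f, hf⟩ := W7_rdn 11 A11 (by decide) (by decide) (by decide) (by decide) (by decide)
    (by decide)
  obtain ⟨g, hg⟩ := W7_rdn 17 A17 (by decide) (by decide) (by decide) (by decide) (by decide)
    (by decide)
  obtain ⟨hF, h1, h2⟩ := torsion_dvd (by decide) hf hg (by rw [card_A17]; decide)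
    (by rw [card_A11]; decide)
  rw [card_A11] at h1
  rw [card_A17] at h2
  have h3 : Nat.card (AddCommGroup.torsion W7.toAffine.Point) ∣ 2 := by
    have := Nat.dvd_gcd h1 h2
    simpa using this
  let T : AddCommGroup.torsion W7.toAffine.Point := ⟨gG, hfin⟩
  have h4 : (2 : ℕ) • T = 0 := by
    obtain ⟨c, hc⟩ := h3
    have h7 : Nat.card (AddCommGroup.torsion W7.toAffine.Point) • T = 0 := card_nsmul_eq_zero'
    rw [hc, mul_comm, mul_nsmul', h7, smul_zero]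
  have h5 := congrArg Subtype.val h4
  have h6 : (2 : ℕ) • gG = 0 := h5
  rw [two_gG] at h6
  exact Affine.Point.some_ne_zero nsG2 h6

theorem pt {x y : ℚ} (hc : y ^ 2 = x ^ 3 - 197 * x ^ 2 + 9720 * x)
    (x19 : Cg 19 x 0) (y19 : Cg 19 y 0) (x23 : Cg 23 x 18) (y23 : Cg 23 y 3)
    (x31 : Cg 31 x 1) (y31 : Cg 31 y 10) (x37 : Cg 37 x 21) (y37 : Cg 37 y 1) :
    ∃ t z1 z2 n : ℚ, St7 t z1 z2 ∧ (1 - n ^ 2) - t * (n * (7 * n - 2)) = 0 ∧
      y = 2 * n * (216 - x) - 1512 + 15 * x := by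
  have hx : 216 - x ≠ 0 := ((Cg.ofNat 216).sub x19).ne_zero (by decide)
  obtain ⟨n, hn⟩ : ∃ n, n = (y + 1512 - 15 * x) / (2 * (216 - x)) := ⟨_, rfl⟩
  have hy : y = 2 * n * (216 - x) - 1512 + 15 * x := by
    rw [hn]
    field_simp
    ring
  have hcn : ∀ (p : ℕ) [Fact p.Prime] (a b c : ZMod p), Cg p x a → Cg p y b →
      2 * (216 - a) ≠ 0 → c * (2 * (216 - a)) = b + 1512 - 15 * a → Cg p n c := by
    intro p hp a b c ha hb h0 h1
    rw [hn, (eq_div_iff h0).2 h1]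
    exact ((hb.add (Cg.ofNat 1512)).sub ((Cg.ofNat 15).mul ha)).div
      ((Cg.ofNat 2).mul ((Cg.ofNat 216).sub ha)) h0
  have n19 : Cg 19 n 13 := hcn 19 0 0 13 x19 y19 (by decide) (by decide)
  have n23 : Cg 23 n 19 := hcn 23 18 3 19 x23 y23 (by decide) (by decide)
  have n31 : Cg 31 n 3 := hcn 31 1 10 3 x31 y31 (by decide) (by decide)
  have n37 : Cg 37 n 34 := hcn 37 21 1 34 x37 y37 (by decide) (by decide)
  have hn0 : n ≠ 0 := n19.ne_zero (by decide)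
  have hn7 : 7 * n - 2 ≠ 0 := (((Cg.ofNat 7).mul n19).sub (Cg.ofNat 2)).ne_zero (by decide)
  obtain ⟨t, ht⟩ : ∃ t, t = (1 - n ^ 2) / (n * (7 * n - 2)) := ⟨_, rfl⟩
  have htn : t * (n * (7 * n - 2)) = 1 - n ^ 2 := by
    rw [ht, div_mul_cancel₀ _ (mul_ne_zero hn0 hn7)]
  have hct : ∀ (p : ℕ) [Fact p.Prime] (a b : ZMod p), Cg p n a → a * (7 * a - 2) ≠ 0 →
      b * (a * (7 * a - 2)) = 1 - a ^ 2 → Cg p t b := by
    intro p hp a b ha h0 h1
    rw [ht, (eq_div_iff h0).2 h1]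
    exact (Cg.one.sub (ha.pow 2)).div (ha.mul (((Cg.ofNat 7).mul ha).sub (Cg.ofNat 2))) h0
  have t19 : Cg 19 t 8 := hct 19 13 8 n19 (by decide) (by decide)
  have t23 : Cg 23 t 20 := hct 23 19 20 n23 (by decide) (by decide)
  have t31 : Cg 31 t 14 := hct 31 3 14 n31 (by decide) (by decide)
  have t37 : Cg 37 t 9 := hct 37 34 9 n37 (by decide) (by decide)
  have hcz : ∀ (p : ℕ) [Fact p.Prime] (a b c d e : ZMod p), Cg p x a → Cg p n b → Cg p t c →
      b * (7 * b - 2) ≠ 0 → b ≠ 0 → (d - c) * b = 1 →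
      e * (b * (7 * b - 2)) = 2 * b ^ 2 - 30 * b + 103 - a → Cg p (t + 1 / n) d ∧
      Cg p ((2 * n ^ 2 - 30 * n + 103 - x) / (n * (7 * n - 2))) e := by
    intro p hp a b c d e ha hb hc h0 h1 h2 h3
    have h4 : d = c + 1 / b := by
      rw [← h2]
      field_simp
      ring
    rw [h4, (eq_div_iff h0).2 h3]
    refine ⟨hc.add (Cg.one.div hb h1), ?_⟩
    exact (((((Cg.ofNat 2).mul (hb.pow 2)).sub ((Cg.ofNat 30).mul hb)).add (Cg.ofNat 103)).sub
      ha).div (hb.mul (((Cg.ofNat 7).mul hb).sub (Cg.ofNat 2))) h0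
  have c23 := hcz 23 18 19 20 14 6 x23 n23 t23 (by decide) (by decide) (by decide) (by decide)
  have c31 := hcz 31 1 3 14 4 25 x31 n31 t31 (by decide) (by decide) (by decide) (by decide)
  have c37 := hcz 37 21 34 9 21 36 x37 n37 t37 (by decide) (by decide) (by decide) (by decide)
  refine ⟨t, t + 1 / n, (2 * n ^ 2 - 30 * n + 103 - x) / (n * (7 * n - 2)), n, ?_, ?_, hy⟩
  · refine ⟨?_, ?_, t19, t23, t31, t37, c23.1, c31.1, c37.1, c23.2, c31.2, c37.2⟩
    · have h5 : t + 1 / n = (t * n + 1) / n := by field_simp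
      rw [h5, div_pow, div_eq_iff (pow_ne_zero 2 hn0)]
      linear_combination (-1 : ℚ) * htn
    · have hq : (2 * n ^ 2 - 30 * n + 103 - x) ^ 2 = 25 * (1 - n ^ 2) ^ 2 +
          66 * (1 - n ^ 2) * (n * (7 * n - 2)) + 9 * (n * (7 * n - 2)) ^ 2 := by
        apply mul_left_cancel₀ hx
        have h6 := hc
        rw [hy] at h6
        linear_combination h6
      rw [div_pow, hq, ← htn, div_eq_iff (pow_ne_zero 2 (mul_ne_zero hn0 hn7))]
      ring
  · rw [htn]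
    ring

open Polynomial in
/-- the values `x, y` which give a parameter in a finite set form a finite set -/
theorem fib_fin (S : Set ℚ) (hS : S.Finite) :
    {v : ℚ × ℚ | v.2 ^ 2 = v.1 ^ 3 - 197 * v.1 ^ 2 + 9720 * v.1 ∧ ∃ t ∈ S, ∃ n : ℚ,
      (1 - n ^ 2) - t * (n * (7 * n - 2)) = 0 ∧
        v.2 = 2 * n * (216 - v.1) - 1512 + 15 * v.1}.Finite := by
  have h1 : ∀ t : ℚ, {n : ℚ | (1 - n ^ 2) - t * (n * (7 * n - 2)) = 0}.Finite := by
    intro t
    let P : ℚ[X] := (1 - X ^ 2) - C t * (X * (7 * X - 2))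
    have hP : P ≠ 0 := by
      intro h0
      have h2 : P.eval 0 = 1 := by simp [P]
      rw [h0, eval_zero] at h2
      exact zero_ne_one h2
    refine (P.rootSet_finite ℚ).subset ?_
    intro n hn
    rw [mem_rootSet]
    refine ⟨hP, ?_⟩
    have h3 : (1 - n ^ 2) - t * (n * (7 * n - 2)) = 0 := hn
    simpa [P] using h3
  have h2 : ∀ n : ℚ, {x : ℚ | x ^ 3 - 197 * x ^ 2 + 9720 * x -
      (2 * n * (216 - x) - 1512 + 15 * x) ^ 2 = 0}.Finite := by
    intro n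
    let P : ℚ[X] := X ^ 3 - 197 * X ^ 2 + 9720 * X - (C (2 * n) * (216 - X) - 1512 + 15 * X) ^ 2
    have hP : P ≠ 0 := by
      intro h0
      have h3 : P = X ^ 3 - (C (197 + (15 - 2 * n) ^ 2) * X ^ 2 +
          C (2 * (15 - 2 * n) * (432 * n - 1512) - 9720) * X + C ((432 * n - 1512) ^ 2)) := by
        simp only [P, C_add, C_sub, C_mul, C_pow, map_ofNat]
        ring
      have h5 : ∀ a b c : ℚ, (X ^ 3 - (C a * X ^ 2 + C b * X + C c) : ℚ[X]).coeff 3 = 1 := by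
        intro a b c
        simp
      have h4 : P.coeff 3 = 1 := by
        rw [h3]
        exact h5 _ _ _
      rw [h0, coeff_zero] at h4
      exact zero_ne_one h4
    refine (P.rootSet_finite ℚ).subset ?_
    intro x hx
    rw [mem_rootSet]
    refine ⟨hP, ?_⟩
    have h3 : x ^ 3 - 197 * x ^ 2 + 9720 * x - (2 * n * (216 - x) - 1512 + 15 * x) ^ 2 = 0 := hx
    simpa [P] using h3
  have h3 : (⋃ t ∈ S, ⋃ n ∈ {n : ℚ | (1 - n ^ 2) - t * (n * (7 * n - 2)) = 0},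
      (fun x : ℚ => (x, 2 * n * (216 - x) - 1512 + 15 * x)) '' {x : ℚ | x ^ 3 - 197 * x ^ 2 +
        9720 * x - (2 * n * (216 - x) - 1512 + 15 * x) ^ 2 = 0}).Finite := by
    refine hS.biUnion fun t _ => (h1 t).biUnion fun n _ => (h2 n).image _
  refine h3.subset ?_
  rintro ⟨x, y⟩ ⟨hc, t, ht, n, hn, hy⟩
  simp only at hc hy
  refine Set.mem_biUnion ht (Set.mem_biUnion (show n ∈ {n : ℚ | (1 - n ^ 2) -
    t * (n * (7 * n - 2)) = 0} from hn) ⟨x, ?_, ?_⟩)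
  · show x ^ 3 - 197 * x ^ 2 + 9720 * x - (2 * n * (216 - x) - 1512 + 15 * x) ^ 2 = 0
    rw [← hy, hc]
    ring
  · show (x, 2 * n * (216 - x) - 1512 + 15 * x) = (x, y)
    rw [← hy]

/-- the curve `W7` modulo `p` -/
def V7 (p : ℕ) : WeierstrassCurve (ZMod p) := ⟨0, -197, 0, 9720, 0⟩

theorem V7_rdn (p : ℕ) [Fact p.Prime] (hΔ : (V7 p).Δ ≠ 0) : ∃ f, Rdn W7 p (V7 p) f :=
  W7_rdn p (V7 p) rfl rfl rfl rfl rfl hΔ

/-- coordinates of a point congruent to `2 G` -/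
theorem red_eq {p : ℕ} [Fact p.Prime] {f : W7.toAffine.Point →+ (V7 p).toAffine.Point}
    (hf : Rdn W7 p (V7 p) f) (M : ℕ) (hM : Nat.card (V7 p).toAffine.Point ∣ M) (k : ℕ)
    {a b : ZMod p} (ha : Cg p (29241 / 256) a) (hb : Cg p (-712557 / 4096) b)
    {x y : ℚ} (h : W7.toAffine.Nonsingular x y)
    (hQ : gG2 + k • (M • gG) = Affine.Point.some x y h) : Cg p x a ∧ Cg p y b := by
  obtain ⟨h1, h2⟩ := hf.red _ _ nsG2 a b ha hb
  have h3 : f (M • gG) = 0 := by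
    obtain ⟨c, hc⟩ := hM
    rw [map_nsmul, hc, mul_comm, mul_nsmul', card_nsmul_eq_zero', nsmul_zero]
  have h4 : f (Affine.Point.some x y h) = .some a b h1 := by
    rw [← hQ, map_add, map_nsmul, h3, nsmul_zero, add_zero]
    exact h2
  have h5 : f (Affine.Point.some x y h) ≠ 0 := by
    rw [h4]
    exact Affine.Point.some_ne_zero h1
  obtain ⟨h6, h7⟩ := hf.int x y h h5
  obtain ⟨h8, h9⟩ := hf.red x y h _ _ (cg_cast h6) (cg_cast h7)
  rw [h4] at h9
  injection h9 with e1 e2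
  refine ⟨?_, ?_⟩
  · rw [e1]; exact cg_cast h6
  · rw [e2]; exact cg_cast h7

theorem base7 : Set.Infinite {t : ℚ | ∃ z1 z2 : ℚ, St7 t z1 z2} := by
  intro hS
  obtain ⟨f19, h19⟩ := V7_rdn 19 (by decide)
  obtain ⟨f23, h23⟩ := V7_rdn 23 (by decide)
  obtain ⟨f31, h31⟩ := V7_rdn 31 (by decide)
  obtain ⟨f37, h37⟩ := V7_rdn 37 (by decide)
  let M := Nat.card (V7 19).toAffine.Point * Nat.card (V7 23).toAffine.Point *
    (Nat.card (V7 31).toAffine.Point * Nat.card (V7 37).toAffine.Point)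
  have hM0 : M ≠ 0 := by
    refine mul_ne_zero (mul_ne_zero ?_ ?_) (mul_ne_zero ?_ ?_) <;> exact Nat.card_pos.ne'
  have hd19 : Nat.card (V7 19).toAffine.Point ∣ M := Dvd.dvd.mul_right (dvd_mul_right _ _) _
  have hd23 : Nat.card (V7 23).toAffine.Point ∣ M := Dvd.dvd.mul_right (dvd_mul_left _ _) _
  have hd31 : Nat.card (V7 31).toAffine.Point ∣ M := Dvd.dvd.mul_left (dvd_mul_right _ _) _
  have hd37 : Nat.card (V7 37).toAffine.Point ∣ M := Dvd.dvd.mul_left (dvd_mul_left _ _) _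
  have hcx : ∀ (p : ℕ) [Fact p.Prime] (a : ZMod p), (256 : ZMod p) ≠ 0 →
      a * 256 = 29241 → Cg p (29241 / 256) a := by
    intro p hp a h0 h1
    rw [(eq_div_iff h0).2 h1]
    exact (Cg.ofNat 29241).div (Cg.ofNat 256) h0
  have hcy : ∀ (p : ℕ) [Fact p.Prime] (a : ZMod p), (4096 : ZMod p) ≠ 0 →
      a * 4096 = -712557 → Cg p (-712557 / 4096) a := by
    intro p hp a h0 h1
    rw [(eq_div_iff h0).2 h1]
    exact (Cg.ofNat 712557).neg.div (Cg.ofNat 4096) h0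
  have hne : ∀ k : ℕ, gG2 + k • (M • gG) ≠ 0 := by
    intro k h0
    obtain ⟨h1, h2⟩ := h19.red _ _ nsG2 0 0 (hcx 19 0 (by decide) (by decide))
      (hcy 19 0 (by decide) (by decide))
    have h3 : f19 (M • gG) = 0 := by
      obtain ⟨c, hc⟩ := hd19
      rw [map_nsmul, hc, mul_comm, mul_nsmul', card_nsmul_eq_zero', nsmul_zero]
    have h4 : f19 (gG2 + k • (M • gG)) = .some 0 0 h1 := by
      rw [map_add, map_nsmul, h3, nsmul_zero, add_zero]
      exact h2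
    rw [h0, map_zero] at h4
    exact Affine.Point.some_ne_zero h1 h4.symm
  have hex : ∀ k : ℕ, ∃ v : ℚ × ℚ, ∃ h : W7.toAffine.Nonsingular v.1 v.2,
      gG2 + k • (M • gG) = Affine.Point.some v.1 v.2 h := by
    intro k
    generalize hQ : gG2 + k • (M • gG) = Q
    rcases Q with _ | ⟨x, y, h⟩
    · exact absurd hQ (hne k)
    · exact ⟨(x, y), h, rfl⟩
  choose v hv hvQ using hex
  have hinj : Function.Injective v := by
    intro k k' hk
    have h1 : gG2 + k • (M • gG) = gG2 + k' • (M • gG) := by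
      rw [hvQ k, hvQ k']
      congr 1
      · rw [hk]
      · rw [hk]
    have h2 : k • (M • gG) = k' • (M • gG) := add_left_cancel h1
    rw [← mul_nsmul', ← mul_nsmul'] at h2
    have h3 := (injective_nsmul_iff_not_isOfFinAddOrder.2 gG_inf) h2
    exact Nat.eq_of_mul_eq_mul_right (Nat.pos_of_ne_zero hM0) h3
  refine Set.infinite_of_injective_forall_mem hinj (s := {v : ℚ × ℚ | v.2 ^ 2 = v.1 ^ 3 -
    197 * v.1 ^ 2 + 9720 * v.1 ∧ ∃ t ∈ {t : ℚ | ∃ z1 z2 : ℚ, St7 t z1 z2}, ∃ n : ℚ,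
      (1 - n ^ 2) - t * (n * (7 * n - 2)) = 0 ∧
        v.2 = 2 * n * (216 - v.1) - 1512 + 15 * v.1}) ?_ (fib_fin _ hS)
  intro k
  have he : (v k).2 ^ 2 = (v k).1 ^ 3 - 197 * (v k).1 ^ 2 + 9720 * (v k).1 :=
    (W7_eq _ _).1 (hv k).1
  obtain ⟨x19, y19⟩ := red_eq h19 M hd19 k (hcx 19 0 (by decide) (by decide))
    (hcy 19 0 (by decide) (by decide)) (hv k) (hvQ k)
  obtain ⟨x23, y23⟩ := red_eq h23 M hd23 k (hcx 23 18 (by decide) (by decide))
    (hcy 23 3 (by decide) (by decide)) (hv k) (hvQ k)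
  obtain ⟨x31, y31⟩ := red_eq h31 M hd31 k (hcx 31 1 (by decide) (by decide))
    (hcy 31 10 (by decide) (by decide)) (hv k) (hvQ k)
  obtain ⟨x37, y37⟩ := red_eq h37 M hd37 k (hcx 37 21 (by decide) (by decide))
    (hcy 37 1 (by decide) (by decide)) (hv k) (hvQ k)
  obtain ⟨t, z1, z2, n, hSt, hn, hy⟩ := pt he x19 y19 x23 y23 x31 y31 x37 y37
  exact ⟨he, t, ⟨z1, z2, hSt⟩, n, hn, hy⟩

open Polynomial in
/-- finitely many parameters give the same `j`-invariant -/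
theorem j7_fin (j0 : ℚ) : {t : ℚ | (E7 t).c₄ ^ 3 - j0 * (E7 t).Δ = 0}.Finite := by
  let EP : WeierstrassCurve ℚ[X] := ⟨X ^ 2 - 3 * X + 1, X ^ 2 - X, -(X * (1 - X) ^ 3), 0, 0⟩
  have hE : ∀ t : ℚ, E7 t = EP.map (evalRingHom t) := by
    intro t
    simp [EP, E7, WeierstrassCurve.map]
  let P : ℚ[X] := EP.c₄ ^ 3 - C j0 * EP.Δ
  have hev : ∀ t : ℚ, P.eval t = (E7 t).c₄ ^ 3 - j0 * (E7 t).Δ := by
    intro t
    rw [hE t, map_c₄, map_Δ, coe_evalRingHom]
    simp [P]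
  have hP : P ≠ 0 := by
    intro h0
    have h1 := hev 0
    rw [h0, eval_zero] at h1
    have h2 : (E7 0).c₄ = 1 := by
      simp only [WeierstrassCurve.c₄, WeierstrassCurve.b₂, WeierstrassCurve.b₄, E7]
      norm_num
    have h3 : (E7 0).Δ = 0 := by
      simp only [WeierstrassCurve.Δ, WeierstrassCurve.b₂, WeierstrassCurve.b₄,
        WeierstrassCurve.b₆, WeierstrassCurve.b₈, E7]
      norm_num
    rw [h2, h3] at h1
    norm_num at h1
  refine (P.rootSet_finite ℚ).subset ?_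
  intro t ht
  rw [mem_rootSet]
  refine ⟨hP, ?_⟩
  have h3 : (E7 t).c₄ ^ 3 - j0 * (E7 t).Δ = 0 := ht
  rw [coe_aeval_eq_eval, hev, h3]

theorem final7 : Set.Infinite {j : ℚ | ∃ (E : WeierstrassCurve ℚ) (_ : E.IsElliptic),
    E.j = j ∧ HasTorsion E 7 1 ∧ 3 ≤ Module.rank ℤ E.toAffine.Point} := by
  intro hJ
  refine base7 ((hJ.biUnion fun j0 _ => j7_fin j0).subset ?_)
  rintro t ⟨z1, z2, h⟩
  have hΔ : (E7 t).Δ ≠ 0 := main7_ell h
  have hE : (E7 t).IsElliptic := ⟨isUnit_iff_ne_zero.2 hΔ⟩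
  refine Set.mem_biUnion (x := (E7 t).j) ⟨E7 t, hE, rfl, main7_tor h, main7_rank h⟩ ?_
  show (E7 t).c₄ ^ 3 - (E7 t).j * (E7 t).Δ = 0
  have h1 : ((E7 t).Δ'⁻¹ : ℚˣ) * (E7 t).Δ = 1 := by
    rw [← coe_Δ', Units.inv_mul]
  unfold WeierstrassCurve.j
  linear_combination (-((E7 t).c₄ ^ 3)) * h1

end Pool.Agent.InfR
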