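import Pool.Agent.InfR.Defs

/-!
# Residues of rational numbers
-/

set_option autoImplicit false

namespace Pool.Agent.InfR

variable {p : ℕ} [hp : Fact p.Prime] {a a' : ℚ} {b b' : ZMod p}

theorem den_ne {a : ℚ} (h : ¬ p ∣ a.den) : (a.den : ZMod p) ≠ 0 := by
  rwa [Ne, ZMod.natCast_eq_zero_iff]

theorem cg_cast (h : ¬ p ∣ a.den) : Cg p a (a : ZMod p) := ⟨h, rfl⟩

theorem Cg.uniq (h : Cg p a b) (h' : Cg p a b') : b = b' := h.2.symm.trans h'.2

theorem Cg.add (h : Cg p a b) (h' : Cg p a' b') : Cg p (a + a') (b + b') := by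
  refine ⟨fun hd => ?_, ?_⟩
  · rcases (Nat.Prime.dvd_mul hp.out).1 (hd.trans (Rat.add_den_dvd a a')) with h1 | h1
    · exact h.1 h1
    · exact h'.1 h1
  · rw [Rat.cast_add_of_ne_zero (den_ne h.1) (den_ne h'.1), h.2, h'.2]

theorem Cg.mul (h : Cg p a b) (h' : Cg p a' b') : Cg p (a * a') (b * b') := by
  refine ⟨fun hd => ?_, ?_⟩
  · rcases (Nat.Prime.dvd_mul hp.out).1 (hd.trans (Rat.mul_den_dvd a a')) with h1 | h1
    · exact h.1 h1
    · exact h'.1 h1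
  · rw [Rat.cast_mul_of_ne_zero (den_ne h.1) (den_ne h'.1), h.2, h'.2]

theorem Cg.of_int (n : ℤ) : Cg p (n : ℚ) (n : ZMod p) := by
  refine ⟨?_, by simp⟩
  have h1 : ((n : ℚ)).den = 1 := Rat.den_intCast n
  rw [h1]
  exact fun h => hp.out.one_lt.ne' (Nat.dvd_one.1 h)

theorem Cg.of_nat (n : ℕ) : Cg p (n : ℚ) (n : ZMod p) := by
  have := Cg.of_int (p := p) (n : ℤ)
  rwa [Int.cast_natCast, Int.cast_natCast] at this

theorem Cg.zero : Cg p 0 0 := by simpa using Cg.of_nat (p := p) 0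

theorem Cg.one : Cg p 1 1 := by simpa using Cg.of_nat (p := p) 1

theorem Cg.ofNat (n : ℕ) [n.AtLeastTwo] : Cg p (OfNat.ofNat n : ℚ) (OfNat.ofNat n : ZMod p) :=
  Cg.of_nat (p := p) n

theorem Cg.neg (h : Cg p a b) : Cg p (-a) (-b) := by
  have := (Cg.of_int (p := p) (-1)).mul h
  simpa using this

theorem Cg.sub (h : Cg p a b) (h' : Cg p a' b') : Cg p (a - a') (b - b') := by
  rw [sub_eq_add_neg, sub_eq_add_neg]
  exact h.add h'.neg

theorem Cg.pow (h : Cg p a b) (n : ℕ) : Cg p (a ^ n) (b ^ n) := by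
  induction n with
  | zero => rw [pow_zero, pow_zero]; exact Cg.one
  | succ n ih => rw [pow_succ, pow_succ]; exact ih.mul h

theorem Cg.ne_zero (h : Cg p a b) (hb : b ≠ 0) : a ≠ 0 := by
  rintro rfl
  exact hb (h.uniq Cg.zero)

theorem Cg.inv (h : Cg p a b) (hb : b ≠ 0) : Cg p a⁻¹ b⁻¹ := by
  have ha := h.ne_zero hb
  have hn : (a.num : ZMod p) ≠ 0 := by
    intro h0
    apply hb
    rw [← h.2, Rat.cast_def, h0, zero_div]
  have h1 : Cg p ((a.num : ℚ)) (a.num : ZMod p) := Cg.of_int _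
  have hd : ¬ p ∣ (a⁻¹).den := by
    intro h2
    apply hn
    rw [Rat.den_inv_of_ne_zero ha] at h2
    rw [ZMod.intCast_zmod_eq_zero_iff_dvd]
    exact Int.natCast_dvd.2 h2
  refine ⟨hd, ?_⟩
  have h2 := (cg_cast hd).mul h
  rw [inv_mul_cancel₀ ha] at h2
  have h3 := h2.uniq Cg.one
  exact eq_inv_of_mul_eq_one_left h3

theorem Cg.div (h : Cg p a b) (h' : Cg p a' b') (hb : b' ≠ 0) : Cg p (a / a') (b / b') := by
  rw [div_eq_mul_inv, div_eq_mul_inv]
  exact h.mul (h'.inv hb)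

end Pool.Agent.InfR
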