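import Mathlib

/-!
# Infinitely many elliptic curves with given torsion group and high rank: definitions

`Cg p a b`: the rational number `a` is integral at `p` and its residue is `b`.
`Rdn W p V f`: `f` is the reduction map of `W` modulo `p`, with values in the points of `V`.
-/

set_option autoImplicit false

namespace Pool.Agent.InfR

open WeierstrassCurve

/-- the rational number `a` is integral at `p` and its residue is `b` -/
def Cg (p : ℕ) [Fact p.Prime] (a : ℚ) (b : ZMod p) : Prop := ¬ p ∣ a.den ∧ (a : ZMod p) = b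

/-- the torsion subgroup is isomorphic to `ℤ/n × ℤ/m` -/
def HasTorsion (E : WeierstrassCurve ℚ) (n m : ℕ) : Prop :=
  Nonempty (AddCommGroup.torsion E.toAffine.Point ≃+ ZMod n × ZMod m)

/-- `f` is the reduction map modulo `p` -/
structure Rdn (W : WeierstrassCurve ℚ) (p : ℕ) [Fact p.Prime] (V : WeierstrassCurve (ZMod p))
    (f : W.toAffine.Point →+ V.toAffine.Point) : Prop where
  red : ∀ (x y : ℚ) (h : W.toAffine.Nonsingular x y) (a b : ZMod p), Cg p x a → Cg p y b →
    ∃ h' : V.toAffine.Nonsingular a b, f (.some x y h) = .some a b h'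
  int : ∀ (x y : ℚ) (h : W.toAffine.Nonsingular x y), f (.some x y h) ≠ 0 →
    ¬ p ∣ x.den ∧ ¬ p ∣ y.den
  tor : ∀ (n : ℕ) (P : W.toAffine.Point), ¬ p ∣ n → n • P = 0 → f P = 0 → P = 0

/-- the universal curve with a point of order 7 (in a suitable coordinate) -/
def E7 (t : ℚ) : WeierstrassCurve ℚ := ⟨t ^ 2 - 3 * t + 1, t ^ 2 - t, -(t * (1 - t) ^ 3), 0, 0⟩

/-- the universal curve with torsion group containing `ℤ/2 × ℤ/6`:
`y² = x (x + r³(r+2)) (x + 2r + 1)` -/
def E26 (r : ℚ) : WeierstrassCurve ℚ :=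
  ⟨0, r ^ 3 * (r + 2) + (2 * r + 1), 0, r ^ 3 * (r + 2) * (2 * r + 1), 0⟩

/-- `y² = x³ - 197 x² + 9720 x` -/
def W7 : WeierstrassCurve ℚ := ⟨0, -197, 0, 9720, 0⟩

/-- `y² = x (x + 25) (x + 81)` -/
def W26 : WeierstrassCurve ℚ := ⟨0, 106, 0, 2025, 0⟩

end Pool.Agent.InfR
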