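import Pool.Agent.InfR.Defs

/-!
# MODULE Num: numerical facts over small prime fields

Suggested tools: (1) `Nat.card V.toAffine.Point = 1 + #{(x, y) | equation}` (`Option`-like type; every point of the
equation is nonsingular because `V.Δ ≠ 0`), then `decide +kernel` on `ZMod p × ZMod p`;
(2) a doubling/addition lemma `some x y + some x' y' = some x'' y''` with a given slope `l`
(`l * (x' - x) = y' - y`, or `l * (2 y + a1 x + a3) = 3 x^2 + 2 a2 x + a4 - a1 y`), hypotheses by `decide`,
and chains `2P, 4P, 8P, ...`; `RkT.line_sum` (Pool/Agent/RkT/Line.lean) may help.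
Python check of all numbers: done.
-/

set_option autoImplicit false

namespace Pool.Agent.InfR

open WeierstrassCurve

instance fact11 : Fact (Nat.Prime 11) := ⟨by norm_num⟩
instance fact13 : Fact (Nat.Prime 13) := ⟨by norm_num⟩
instance fact17 : Fact (Nat.Prime 17) := ⟨by norm_num⟩
instance fact19 : Fact (Nat.Prime 19) := ⟨by norm_num⟩
instance fact23 : Fact (Nat.Prime 23) := ⟨by norm_num⟩
instance fact31 : Fact (Nat.Prime 31) := ⟨by norm_num⟩
instance fact37 : Fact (Nat.Prime 37) := ⟨by norm_num⟩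
instance fact41 : Fact (Nat.Prime 41) := ⟨by norm_num⟩

/-- `E7 t` for `t ≡ 8` mod 19, and so on -/
def V19 : WeierstrassCurve (ZMod 19) := ⟨3, 18, 8, 0, 0⟩
def V23 : WeierstrassCurve (ZMod 23) := ⟨19, 12, 8, 0, 0⟩
def V31 : WeierstrassCurve (ZMod 31) := ⟨0, 27, 6, 0, 0⟩
def V37 : WeierstrassCurve (ZMod 37) := ⟨18, 35, 20, 0, 0⟩

/-- `E26 r` for `r ≡ 12` mod 17, and so on -/
def U17 : WeierstrassCurve (ZMod 17) := ⟨0, 9, 0, 8, 0⟩
def U23 : WeierstrassCurve (ZMod 23) := ⟨0, 14, 0, 22, 0⟩
def U31 : WeierstrassCurve (ZMod 31) := ⟨0, 10, 0, 24, 0⟩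
def U37 : WeierstrassCurve (ZMod 37) := ⟨0, 23, 0, 22, 0⟩
def U41 : WeierstrassCurve (ZMod 41) := ⟨0, 3, 0, 37, 0⟩

/-- `W7` mod 11 and 17, `W26` mod 13 and 17 -/
def A11 : WeierstrassCurve (ZMod 11) := ⟨0, 1, 0, 7, 0⟩
def A17 : WeierstrassCurve (ZMod 17) := ⟨0, 7, 0, 13, 0⟩
def B13 : WeierstrassCurve (ZMod 13) := ⟨0, 2, 0, 10, 0⟩
def B17 : WeierstrassCurve (ZMod 17) := ⟨0, 4, 0, 2, 0⟩

private theorem card_aux {p : ℕ} [Fact p.Prime] (V : WeierstrassCurve (ZMod p)) (N : ℕ)
    (h : ((Finset.univ : Finset (ZMod p × ZMod p)).filter (fun xy =>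
      (xy.2 ^ 2 + V.a₁ * xy.1 * xy.2 + V.a₃ * xy.2 =
        xy.1 ^ 3 + V.a₂ * xy.1 ^ 2 + V.a₄ * xy.1 + V.a₆) ∧
      (V.a₁ * xy.2 ≠ 3 * xy.1 ^ 2 + 2 * V.a₂ * xy.1 + V.a₄ ∨
        xy.2 ≠ -xy.2 - V.a₁ * xy.1 - V.a₃))).card + 1 = N) :
    Nat.card V.toAffine.Point = N := by
  let e : V.toAffine.Point ≃ Option {xy : ZMod p × ZMod p // V.toAffine.Nonsingular xy.1 xy.2} :=
    { toFun := fun P => match P with
        | .zero => none
        | .some x y h => some ⟨(x, y), h⟩
      invFun := fun q => match q with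
        | none => .zero
        | some a => .some a.1.1 a.1.2 a.2
      left_inv := by
        intro P
        cases P <;> rfl
      right_inv := by
        intro q
        cases q <;> rfl }
  rw [Nat.card_congr e, Finite.card_option, ← h]
  congr 1
  refine Nat.subtype_card _ ?_
  intro xy
  rw [Affine.nonsingular_iff, Affine.equation_iff, Finset.mem_filter]
  exact ⟨fun h1 => h1.2, fun h1 => ⟨Finset.mem_univ _, h1⟩⟩

theorem card_V19 : Nat.card V19.toAffine.Point = 28 :=
  card_aux V19 28 (by decide +kernel)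
theorem card_V23 : Nat.card V23.toAffine.Point = 21 :=
  card_aux V23 21 (by decide +kernel)
theorem card_U17 : Nat.card U17.toAffine.Point = 24 :=
  card_aux U17 24 (by decide +kernel)
theorem card_U31 : Nat.card U31.toAffine.Point = 36 :=
  card_aux U31 36 (by decide +kernel)
theorem card_A11 : Nat.card A11.toAffine.Point = 18 :=
  card_aux A11 18 (by decide +kernel)
theorem card_A17 : Nat.card A17.toAffine.Point = 16 :=
  card_aux A17 16 (by decide +kernel)
theorem card_B13 : Nat.card B13.toAffine.Point = 16 :=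
  card_aux B13 16 (by decide +kernel)
theorem card_B17 : Nat.card B17.toAffine.Point = 24 :=
  card_aux B17 24 (by decide +kernel)

private theorem ns_V23_11_13 : V23.toAffine.Nonsingular 11 13 := by
  rw [Affine.nonsingular_iff, Affine.equation_iff]
  decide +kernel

private theorem ns_V23_21_6 : V23.toAffine.Nonsingular 21 6 := by
  rw [Affine.nonsingular_iff, Affine.equation_iff]
  decide +kernel

private theorem ns_V23_3_3 : V23.toAffine.Nonsingular 3 3 := by
  rw [Affine.nonsingular_iff, Affine.equation_iff]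
  decide +kernel

private theorem mulc_V23
 : ∃ g : V23.toAffine.Point, g ≠ 0 ∧ 3 • g = 0 ∧
      7 • (Affine.Point.some 11 13 ns_V23_11_13 : V23.toAffine.Point) = 0 ∧
      7 • (Affine.Point.some 21 6 ns_V23_21_6 : V23.toAffine.Point) = 0 ∧
      7 • (Affine.Point.some 3 3 ns_V23_3_3 : V23.toAffine.Point) = g := by
  refine ⟨7 • (Affine.Point.some 3 3 ns_V23_3_3 : V23.toAffine.Point), ?_, ?_, ?_, ?_, ?_⟩ <;> decide +kernel

theorem mul_V23 (h1 : V23.toAffine.Nonsingular 11 13) (h2 : V23.toAffine.Nonsingular 21 6)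
    (h3 : V23.toAffine.Nonsingular 3 3) : ∃ g : V23.toAffine.Point, g ≠ 0 ∧ 3 • g = 0 ∧
      7 • (Affine.Point.some 11 13 h1 : V23.toAffine.Point) = 0 ∧
      7 • (Affine.Point.some 21 6 h2 : V23.toAffine.Point) = 0 ∧
      7 • (Affine.Point.some 3 3 h3 : V23.toAffine.Point) = g := mulc_V23

private theorem ns_V31_27_3 : V31.toAffine.Nonsingular 27 3 := by
  rw [Affine.nonsingular_iff, Affine.equation_iff]
  decide +kernel

private theorem ns_V31_7_27 : V31.toAffine.Nonsingular 7 27 := by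
  rw [Affine.nonsingular_iff, Affine.equation_iff]
  decide +kernel

private theorem ns_V31_21_30 : V31.toAffine.Nonsingular 21 30 := by
  rw [Affine.nonsingular_iff, Affine.equation_iff]
  decide +kernel

private theorem mulc_V31
 : ∃ g : V31.toAffine.Point, g ≠ 0 ∧ 3 • g = 0 ∧
      14 • (Affine.Point.some 27 3 ns_V31_27_3 : V31.toAffine.Point) = g ∧
      14 • (Affine.Point.some 7 27 ns_V31_7_27 : V31.toAffine.Point) = g ∧
      14 • (Affine.Point.some 21 30 ns_V31_21_30 : V31.toAffine.Point) = g := by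
  refine ⟨14 • (Affine.Point.some 27 3 ns_V31_27_3 : V31.toAffine.Point), ?_, ?_, ?_, ?_, ?_⟩ <;> decide +kernel

theorem mul_V31 (h1 : V31.toAffine.Nonsingular 27 3) (h2 : V31.toAffine.Nonsingular 7 27)
    (h3 : V31.toAffine.Nonsingular 21 30) : ∃ g : V31.toAffine.Point, g ≠ 0 ∧ 3 • g = 0 ∧
      14 • (Affine.Point.some 27 3 h1 : V31.toAffine.Point) = g ∧
      14 • (Affine.Point.some 7 27 h2 : V31.toAffine.Point) = g ∧
      14 • (Affine.Point.some 21 30 h3 : V31.toAffine.Point) = g := mulc_V31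

private theorem ns_V37_33_21 : V37.toAffine.Nonsingular 33 21 := by
  rw [Affine.nonsingular_iff, Affine.equation_iff]
  decide +kernel

private theorem ns_V37_22_30 : V37.toAffine.Nonsingular 22 30 := by
  rw [Affine.nonsingular_iff, Affine.equation_iff]
  decide +kernel

private theorem ns_V37_24_17 : V37.toAffine.Nonsingular 24 17 := by
  rw [Affine.nonsingular_iff, Affine.equation_iff]
  decide +kernel

private theorem mulc_V37
 : ∃ g : V37.toAffine.Point, g ≠ 0 ∧ 3 • g = 0 ∧
      14 • (Affine.Point.some 33 21 ns_V37_33_21 : V37.toAffine.Point) = g ∧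
      14 • (Affine.Point.some 22 30 ns_V37_22_30 : V37.toAffine.Point) = 0 ∧
      14 • (Affine.Point.some 24 17 ns_V37_24_17 : V37.toAffine.Point) = g := by
  refine ⟨14 • (Affine.Point.some 33 21 ns_V37_33_21 : V37.toAffine.Point), ?_, ?_, ?_, ?_, ?_⟩ <;> decide +kernel

theorem mul_V37 (h1 : V37.toAffine.Nonsingular 33 21) (h2 : V37.toAffine.Nonsingular 22 30)
    (h3 : V37.toAffine.Nonsingular 24 17) : ∃ g : V37.toAffine.Point, g ≠ 0 ∧ 3 • g = 0 ∧
      14 • (Affine.Point.some 33 21 h1 : V37.toAffine.Point) = g ∧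
      14 • (Affine.Point.some 22 30 h2 : V37.toAffine.Point) = 0 ∧
      14 • (Affine.Point.some 24 17 h3 : V37.toAffine.Point) = g := mulc_V37

private theorem ns_U17_14_8 : U17.toAffine.Nonsingular 14 8 := by
  rw [Affine.nonsingular_iff, Affine.equation_iff]
  decide +kernel

private theorem ns_U17_9_0 : U17.toAffine.Nonsingular 9 0 := by
  rw [Affine.nonsingular_iff, Affine.equation_iff]
  decide +kernel

private theorem ns_U17_8_9 : U17.toAffine.Nonsingular 8 9 := by
  rw [Affine.nonsingular_iff, Affine.equation_iff]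
  decide +kernel

private theorem mulc_U17
 : ∃ g : U17.toAffine.Point, g ≠ 0 ∧ 3 • g = 0 ∧
      8 • (Affine.Point.some 14 8 ns_U17_14_8 : U17.toAffine.Point) = g ∧
      8 • (Affine.Point.some 9 0 ns_U17_9_0 : U17.toAffine.Point) = 0 ∧
      8 • (Affine.Point.some 8 9 ns_U17_8_9 : U17.toAffine.Point) = -g := by
  refine ⟨8 • (Affine.Point.some 14 8 ns_U17_14_8 : U17.toAffine.Point), ?_, ?_, ?_, ?_, ?_⟩ <;> decide +kernel

theorem mul_U17 (h1 : U17.toAffine.Nonsingular 14 8) (h2 : U17.toAffine.Nonsingular 9 0)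
    (h3 : U17.toAffine.Nonsingular 8 9) : ∃ g : U17.toAffine.Point, g ≠ 0 ∧ 3 • g = 0 ∧
      8 • (Affine.Point.some 14 8 h1 : U17.toAffine.Point) = g ∧
      8 • (Affine.Point.some 9 0 h2 : U17.toAffine.Point) = 0 ∧
      8 • (Affine.Point.some 8 9 h3 : U17.toAffine.Point) = -g := mulc_U17

private theorem ns_U23_11_1 : U23.toAffine.Nonsingular 11 1 := by
  rw [Affine.nonsingular_iff, Affine.equation_iff]
  decide +kernel

private theorem ns_U23_17_15 : U23.toAffine.Nonsingular 17 15 := by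
  rw [Affine.nonsingular_iff, Affine.equation_iff]
  decide +kernel

private theorem ns_U23_19_7 : U23.toAffine.Nonsingular 19 7 := by
  rw [Affine.nonsingular_iff, Affine.equation_iff]
  decide +kernel

private theorem ns_U23_4_13 : U23.toAffine.Nonsingular 4 13 := by
  rw [Affine.nonsingular_iff, Affine.equation_iff]
  decide +kernel

private theorem mulc_U23
 :
    ∃ g : U23.toAffine.Point, g ≠ 0 ∧ 3 • g = 0 ∧
      8 • (Affine.Point.some 11 1 ns_U23_11_1 : U23.toAffine.Point) = 0 ∧
      8 • (Affine.Point.some 17 15 ns_U23_17_15 : U23.toAffine.Point) = g ∧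
      8 • (Affine.Point.some 19 7 ns_U23_19_7 : U23.toAffine.Point) = g ∧
      8 • (Affine.Point.some 4 13 ns_U23_4_13 : U23.toAffine.Point) = -g := by
  refine ⟨8 • (Affine.Point.some 17 15 ns_U23_17_15 : U23.toAffine.Point), ?_, ?_, ?_, ?_, ?_, ?_⟩ <;> decide +kernel

theorem mul_U23 (h1 : U23.toAffine.Nonsingular 11 1) (h3 : U23.toAffine.Nonsingular 17 15)
    (h4 : U23.toAffine.Nonsingular 19 7) (h5 : U23.toAffine.Nonsingular 4 13) :
    ∃ g : U23.toAffine.Point, g ≠ 0 ∧ 3 • g = 0 ∧
      8 • (Affine.Point.some 11 1 h1 : U23.toAffine.Point) = 0 ∧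
      8 • (Affine.Point.some 17 15 h3 : U23.toAffine.Point) = g ∧
      8 • (Affine.Point.some 19 7 h4 : U23.toAffine.Point) = g ∧
      8 • (Affine.Point.some 4 13 h5 : U23.toAffine.Point) = -g := mulc_U23

private theorem ns_U31_13_18 : U31.toAffine.Nonsingular 13 18 := by
  rw [Affine.nonsingular_iff, Affine.equation_iff]
  decide +kernel

private theorem ns_U31_9_9 : U31.toAffine.Nonsingular 9 9 := by
  rw [Affine.nonsingular_iff, Affine.equation_iff]
  decide +kernel

private theorem ns_U31_1_29 : U31.toAffine.Nonsingular 1 29 := by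
  rw [Affine.nonsingular_iff, Affine.equation_iff]
  decide +kernel

private theorem ns_U31_22_12 : U31.toAffine.Nonsingular 22 12 := by
  rw [Affine.nonsingular_iff, Affine.equation_iff]
  decide +kernel

private theorem ns_U31_10_16 : U31.toAffine.Nonsingular 10 16 := by
  rw [Affine.nonsingular_iff, Affine.equation_iff]
  decide +kernel

private theorem mulc_U31

 : ∃ g : U31.toAffine.Point, g ≠ 0 ∧ 3 • g = 0 ∧
      12 • (Affine.Point.some 13 18 ns_U31_13_18 : U31.toAffine.Point) = g ∧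
      12 • (Affine.Point.some 9 9 ns_U31_9_9 : U31.toAffine.Point) = g ∧
      12 • (Affine.Point.some 1 29 ns_U31_1_29 : U31.toAffine.Point) = -g ∧
      12 • (Affine.Point.some 22 12 ns_U31_22_12 : U31.toAffine.Point) = 0 ∧
      12 • (Affine.Point.some 10 16 ns_U31_10_16 : U31.toAffine.Point) = 0 := by
  refine ⟨12 • (Affine.Point.some 13 18 ns_U31_13_18 : U31.toAffine.Point), ?_, ?_, ?_, ?_, ?_, ?_, ?_⟩ <;> decide +kernel

theorem mul_U31 (h1 : U31.toAffine.Nonsingular 13 18) (h2 : U31.toAffine.Nonsingular 9 9)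
    (h3 : U31.toAffine.Nonsingular 1 29) (h4 : U31.toAffine.Nonsingular 22 12)
    (h5 : U31.toAffine.Nonsingular 10 16) : ∃ g : U31.toAffine.Point, g ≠ 0 ∧ 3 • g = 0 ∧
      12 • (Affine.Point.some 13 18 h1 : U31.toAffine.Point) = g ∧
      12 • (Affine.Point.some 9 9 h2 : U31.toAffine.Point) = g ∧
      12 • (Affine.Point.some 1 29 h3 : U31.toAffine.Point) = -g ∧
      12 • (Affine.Point.some 22 12 h4 : U31.toAffine.Point) = 0 ∧
      12 • (Affine.Point.some 10 16 h5 : U31.toAffine.Point) = 0 := mulc_U31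

private theorem ns_U37_31_31 : U37.toAffine.Nonsingular 31 31 := by
  rw [Affine.nonsingular_iff, Affine.equation_iff]
  decide +kernel

private theorem ns_U37_21_16 : U37.toAffine.Nonsingular 21 16 := by
  rw [Affine.nonsingular_iff, Affine.equation_iff]
  decide +kernel

private theorem ns_U37_19_15 : U37.toAffine.Nonsingular 19 15 := by
  rw [Affine.nonsingular_iff, Affine.equation_iff]
  decide +kernel

private theorem ns_U37_25_5 : U37.toAffine.Nonsingular 25 5 := by
  rw [Affine.nonsingular_iff, Affine.equation_iff]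
  decide +kernel

private theorem ns_U37_27_28 : U37.toAffine.Nonsingular 27 28 := by
  rw [Affine.nonsingular_iff, Affine.equation_iff]
  decide +kernel

private theorem mulc_U37

 : ∃ g : U37.toAffine.Point, g ≠ 0 ∧ 3 • g = 0 ∧
      16 • (Affine.Point.some 31 31 ns_U37_31_31 : U37.toAffine.Point) = g ∧
      16 • (Affine.Point.some 21 16 ns_U37_21_16 : U37.toAffine.Point) = g ∧
      16 • (Affine.Point.some 19 15 ns_U37_19_15 : U37.toAffine.Point) = 0 ∧
      16 • (Affine.Point.some 25 5 ns_U37_25_5 : U37.toAffine.Point) = -g ∧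
      16 • (Affine.Point.some 27 28 ns_U37_27_28 : U37.toAffine.Point) = -g := by
  refine ⟨16 • (Affine.Point.some 31 31 ns_U37_31_31 : U37.toAffine.Point), ?_, ?_, ?_, ?_, ?_, ?_, ?_⟩ <;> decide +kernel

theorem mul_U37 (h1 : U37.toAffine.Nonsingular 31 31) (h2 : U37.toAffine.Nonsingular 21 16)
    (h3 : U37.toAffine.Nonsingular 19 15) (h4 : U37.toAffine.Nonsingular 25 5)
    (h5 : U37.toAffine.Nonsingular 27 28) : ∃ g : U37.toAffine.Point, g ≠ 0 ∧ 3 • g = 0 ∧
      16 • (Affine.Point.some 31 31 h1 : U37.toAffine.Point) = g ∧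
      16 • (Affine.Point.some 21 16 h2 : U37.toAffine.Point) = g ∧
      16 • (Affine.Point.some 19 15 h3 : U37.toAffine.Point) = 0 ∧
      16 • (Affine.Point.some 25 5 h4 : U37.toAffine.Point) = -g ∧
      16 • (Affine.Point.some 27 28 h5 : U37.toAffine.Point) = -g := mulc_U37

private theorem ns_U41_26_5 : U41.toAffine.Nonsingular 26 5 := by
  rw [Affine.nonsingular_iff, Affine.equation_iff]
  decide +kernel

private theorem ns_U41_21_2 : U41.toAffine.Nonsingular 21 2 := by
  rw [Affine.nonsingular_iff, Affine.equation_iff]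
  decide +kernel

private theorem ns_U41_18_34 : U41.toAffine.Nonsingular 18 34 := by
  rw [Affine.nonsingular_iff, Affine.equation_iff]
  decide +kernel

private theorem ns_U41_20_10 : U41.toAffine.Nonsingular 20 10 := by
  rw [Affine.nonsingular_iff, Affine.equation_iff]
  decide +kernel

private theorem ns_U41_33_32 : U41.toAffine.Nonsingular 33 32 := by
  rw [Affine.nonsingular_iff, Affine.equation_iff]
  decide +kernel

private theorem mulc_U41

 : ∃ g : U41.toAffine.Point, g ≠ 0 ∧ 3 • g = 0 ∧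
      16 • (Affine.Point.some 26 5 ns_U41_26_5 : U41.toAffine.Point) = g ∧
      16 • (Affine.Point.some 21 2 ns_U41_21_2 : U41.toAffine.Point) = g ∧
      16 • (Affine.Point.some 18 34 ns_U41_18_34 : U41.toAffine.Point) = 0 ∧
      16 • (Affine.Point.some 20 10 ns_U41_20_10 : U41.toAffine.Point) = g ∧
      16 • (Affine.Point.some 33 32 ns_U41_33_32 : U41.toAffine.Point) = g := by
  refine ⟨16 • (Affine.Point.some 26 5 ns_U41_26_5 : U41.toAffine.Point), ?_, ?_, ?_, ?_, ?_, ?_, ?_⟩ <;> decide +kernel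

theorem mul_U41 (h1 : U41.toAffine.Nonsingular 26 5) (h2 : U41.toAffine.Nonsingular 21 2)
    (h3 : U41.toAffine.Nonsingular 18 34) (h4 : U41.toAffine.Nonsingular 20 10)
    (h5 : U41.toAffine.Nonsingular 33 32) : ∃ g : U41.toAffine.Point, g ≠ 0 ∧ 3 • g = 0 ∧
      16 • (Affine.Point.some 26 5 h1 : U41.toAffine.Point) = g ∧
      16 • (Affine.Point.some 21 2 h2 : U41.toAffine.Point) = g ∧
      16 • (Affine.Point.some 18 34 h3 : U41.toAffine.Point) = 0 ∧
      16 • (Affine.Point.some 20 10 h4 : U41.toAffine.Point) = g ∧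
      16 • (Affine.Point.some 33 32 h5 : U41.toAffine.Point) = g := mulc_U41

private theorem ns_B17_15_2 : B17.toAffine.Nonsingular 15 2 := by
  rw [Affine.nonsingular_iff, Affine.equation_iff]
  decide +kernel

private theorem mulc_B17 : 8 • (Affine.Point.some 15 2 ns_B17_15_2 : B17.toAffine.Point) ≠ 0 := by
  decide +kernel

/-- the image of the point `(15, 240)` of `W26` -/
theorem mul_B17 (h : B17.toAffine.Nonsingular 15 2) :
    8 • (Affine.Point.some 15 2 h : B17.toAffine.Point) ≠ 0 := mulc_B17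

end Pool.Agent.InfR
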