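import Pool.Agent.InfR.Cg

/-!
# MODULE Tor: bounding the torsion by two good primes; a criterion for linear independence

`torsion_dvd`: if `x` is torsion of order `n = p^a n'`, then `n' x` has order `p^a`, so it is injected by the
reduction `g` modulo `q ≠ p`: its order divides the order of the finite group `V'(F_q)`, hence `a = 0`.
So all torsion has order prime to `p` (and to `q`), `f` is injective on the torsion (`Rdn.tor`), Lagrange.
(`V(F_p)` is finite: it injects into `Option (F_p × F_p)`.)

`indep`: descent: if `∑ n_i P_i + ∑ c_i T_i = 0` then `n_i = ℓ n_i'`, `c_i = ℓ c_i'` and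
`x = ∑ n_i' P_i + ∑ c_i' T_i` satisfies `ℓ x = 0`, so `x = ∑ d_i T_i`: a new relation with smaller `∑ |n_i|`.
-/

set_option autoImplicit false

namespace Pool.Agent.InfR

open WeierstrassCurve

instance finite_point {p : ℕ} [Fact p.Prime] (V : WeierstrassCurve (ZMod p)) :
    Finite V.toAffine.Point := by
  let F : V.toAffine.Point → Option (ZMod p × ZMod p) := fun P =>
    match P with
    | .zero => none
    | .some x y _ => some (x, y)
  refine Finite.of_injective F ?_
  intro P Q h
  cases P with
  | zero =>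
    cases Q with
    | zero => rfl
    | some x y hQ => exact absurd h (by simp [F])
  | some x y hP =>
    cases Q with
    | zero => exact absurd h (by simp [F])
    | some x' y' hQ =>
      have h2 : (x, y) = (x', y') := Option.some.inj h
      obtain ⟨rfl, rfl⟩ := Prod.mk.inj h2
      rfl

private theorem tor_inj {W : WeierstrassCurve ℚ} {p q : ℕ} [Fact p.Prime] [Fact q.Prime]
    (hpq : p ≠ q) {V : WeierstrassCurve (ZMod p)} {V' : WeierstrassCurve (ZMod q)}
    {f : W.toAffine.Point →+ V.toAffine.Point} {g : W.toAffine.Point →+ V'.toAffine.Point}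
    (hf : Rdn W p V f) (hg : Rdn W q V' g) (h1 : ¬ p ∣ Nat.card V'.toAffine.Point)
    (x : W.toAffine.Point) (hx : IsOfFinAddOrder x) (hfx : f x = 0) : x = 0 := by
  have hp : p.Prime := Fact.out
  have hq : q.Prime := Fact.out
  have hn : 0 < addOrderOf x := addOrderOf_pos_iff.mpr hx
  refine hf.tor (addOrderOf x) x ?_ (addOrderOf_nsmul_eq_zero x) hfx
  rintro ⟨m, hm⟩
  have hm0 : 0 < m := by
    rcases Nat.eq_zero_or_pos m with h0 | h0
    · rw [h0, mul_zero] at hm
      omega
    · exact h0
  have hy0 : m • x ≠ 0 := by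
    intro h0
    have h3 := addOrderOf_dvd_of_nsmul_eq_zero h0
    have h4 := Nat.le_of_dvd hm0 h3
    rw [hm] at h4
    have h5 := hp.two_le
    nlinarith
  have hpy : p • (m • x) = 0 := by
    rw [← mul_nsmul', ← hm]
    exact addOrderOf_nsmul_eq_zero x
  have hgy : g (m • x) ≠ 0 := by
    intro h0
    apply hy0
    refine hg.tor p (m • x) ?_ hpy h0
    intro h6
    exact hpq ((Nat.prime_dvd_prime_iff_eq hq hp).mp h6).symm
  have hord : addOrderOf (g (m • x)) = p := by
    apply addOrderOf_eq_prime _ hgy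
    rw [← map_nsmul, hpy, map_zero]
  apply h1
  rw [← hord]
  exact addOrderOf_dvd_natCard _

private theorem tor_fin {W : WeierstrassCurve ℚ} {p q : ℕ} [Fact p.Prime] [Fact q.Prime]
    (hpq : p ≠ q) {V : WeierstrassCurve (ZMod p)} {V' : WeierstrassCurve (ZMod q)}
    {f : W.toAffine.Point →+ V.toAffine.Point} {g : W.toAffine.Point →+ V'.toAffine.Point}
    (hf : Rdn W p V f) (hg : Rdn W q V' g) (h1 : ¬ p ∣ Nat.card V'.toAffine.Point) :
    Finite (AddCommGroup.torsion W.toAffine.Point) ∧
      Nat.card (AddCommGroup.torsion W.toAffine.Point) ∣ Nat.card V.toAffine.Point := by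
  have hinj : Function.Injective (f.comp (AddCommGroup.torsion W.toAffine.Point).subtype) := by
    rw [injective_iff_map_eq_zero]
    intro x hx
    apply Subtype.ext
    exact tor_inj hpq hf hg h1 x.1 x.2 hx
  exact ⟨Finite.of_injective _ hinj, AddSubgroup.card_dvd_of_injective _ hinj⟩

theorem torsion_dvd {W : WeierstrassCurve ℚ} {p q : ℕ} [Fact p.Prime] [Fact q.Prime] (hpq : p ≠ q)
    {V : WeierstrassCurve (ZMod p)} {V' : WeierstrassCurve (ZMod q)}
    {f : W.toAffine.Point →+ V.toAffine.Point} {g : W.toAffine.Point →+ V'.toAffine.Point}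
    (hf : Rdn W p V f) (hg : Rdn W q V' g) (h1 : ¬ p ∣ Nat.card V'.toAffine.Point)
    (h2 : ¬ q ∣ Nat.card V.toAffine.Point) :
    Finite (AddCommGroup.torsion W.toAffine.Point) ∧
      Nat.card (AddCommGroup.torsion W.toAffine.Point) ∣ Nat.card V.toAffine.Point ∧
      Nat.card (AddCommGroup.torsion W.toAffine.Point) ∣ Nat.card V'.toAffine.Point := by
  have a1 := tor_fin hpq hf hg h1
  have a2 := tor_fin hpq.symm hg hf h2
  exact ⟨a1.1, a1.2, a2.2⟩

theorem indep {A : Type*} [AddCommGroup A] (l : ℕ) [Fact l.Prime] {r s : ℕ} (P : Fin r → A)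
    (T : Fin s → A) (hT : ∀ x : A, l • x = 0 → ∃ c : Fin s → ℤ, x = ∑ i, c i • T i)
    (hM : ∀ (n : Fin r → ℤ) (c : Fin s → ℤ), ∑ i, n i • P i + ∑ i, c i • T i = 0 →
      (∀ i, (l : ℤ) ∣ n i) ∧ ∀ i, (l : ℤ) ∣ c i) :
    LinearIndependent ℤ P := by
  have hl : l.Prime := Fact.out
  have key : ∀ (N : ℕ) (n : Fin r → ℤ) (c : Fin s → ℤ), ∑ i, (n i).natAbs ≤ N →
      ∑ i, n i • P i + ∑ i, c i • T i = 0 → ∀ i, n i = 0 := by
    intro N
    induction N with
    | zero =>
      intro n c hN _ i
      have h1 : ∑ i, (n i).natAbs = 0 := Nat.le_zero.mp hN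
      rw [Finset.sum_eq_zero_iff] at h1
      exact Int.natAbs_eq_zero.mp (h1 i (Finset.mem_univ i))
    | succ N ih =>
      intro n c hN h i
      obtain ⟨h1, h2⟩ := hM n c h
      choose n' hn' using h1
      choose c' hc' using h2
      have hx : l • (∑ i, n' i • P i + ∑ i, c' i • T i) = 0 := by
        rw [← h, smul_add, Finset.smul_sum, Finset.smul_sum]
        congr 1
        · refine Finset.sum_congr rfl fun i _ => ?_
          rw [hn' i, mul_smul, natCast_zsmul]
        · refine Finset.sum_congr rfl fun i _ => ?_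
          rw [hc' i, mul_smul, natCast_zsmul]
      obtain ⟨d, hd⟩ := hT _ hx
      have hrel : ∑ i, n' i • P i + ∑ i, (c' i - d i) • T i = 0 := by
        have e1 : ∑ i, (c' i - d i) • T i = ∑ i, c' i • T i - ∑ i, d i • T i := by
          rw [← Finset.sum_sub_distrib]
          exact Finset.sum_congr rfl fun i _ => sub_smul _ _ _
        rw [e1, ← hd]
        abel
      have hsum : ∑ i, (n i).natAbs = l * ∑ i, (n' i).natAbs := by
        rw [Finset.mul_sum]
        refine Finset.sum_congr rfl fun i _ => ?_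
        rw [hn' i, Int.natAbs_mul, Int.natAbs_natCast]
      have hle : ∑ i, (n' i).natAbs ≤ N := by
        have h2l := hl.two_le
        rw [hsum] at hN
        by_contra hcon
        push Not at hcon
        have h3 : 2 * ∑ i, (n' i).natAbs ≤ l * ∑ i, (n' i).natAbs := Nat.mul_le_mul_right _ h2l
        omega
      have := ih n' _ hle hrel i
      rw [hn' i, this, mul_zero]
  rw [Fintype.linearIndependent_iff]
  intro n hn i
  refine key _ n (fun _ => 0) le_rfl ?_ i
  rw [hn, zero_add]
  exact Finset.sum_eq_zero fun i _ => zero_smul _ _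

end Pool.Agent.InfR
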