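import Pool.Agent.InfR.Red
import Pool.Agent.InfR.Tor
import Pool.Agent.InfR.Num

/-!
# MODULE Main26: the curve `E26 r` has torsion group `ℤ/2 × ℤ/6` and rank at least `4`

`E26 r : y² = x (x + M) (x + N)`, `M = r³ (r+2)`, `N = 2r+1`, `M - N = (r+1)³ (r-1)`,
`Δ = 16 (M N (M - N))²`.  From `e1, e2, e3`: `u² = 3 (r+3)/(3r+1)`, `v² = 48 (4r+3)/(3r+1)`,
`w² = 16 (3r+4)/(3r+1)`.  All denominators are nonzero because they are nonzero modulo the primes.  Points: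
* `(0, 0)`, `(-M, 0)`, `(-N, 0)` (order 2), `T = (r², r² (r+1)²)` (order 3);
* `P1 = (r² (r+3)(2r+1)/(3r+1),  r² (2r+1)(r+1)³ u/(3r+1))`;
* `P2 = (-4r (r+2)(2r+1)/(3(3r+1)),  r (r+2)(2r+1)(r-1)(3r+2) v/(18(3r+1)))`;
* `P3 = (-4r² (r+2)(2r+1)/(3(r+3)),  r² (r+2)(2r+1)(r-1)(2r+3)(3r+1) u w/(18(r+3)²))`;
* `P4 = (4r² (r+2)(2r+1)/((3r+1)(r+3)),  r² (r+2)(2r+1)(r+1)² u v w/(24(r+3)²))`.
`x1 + M = 3r²(r+1)³/(3r+1)`, `x1 + N = (2r+1)(r+1)³/(3r+1)`;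
`x2 + M = r(r+2)(r-1)(3r+2)²/(3(3r+1))`, `x2 + N = -(2r+1)(4r+3)(r-1)/(3(3r+1))`;
`x3 + M = r²(r+2)(3r+4)(r-1)/(3(r+3))`, `x3 + N = -(2r+1)(r-1)(2r+3)²/(3(r+3))`;
`x4 + M = r²(r+2)(r+1)²(3r+4)/((3r+1)(r+3))`, `x4 + N = (2r+1)(r+1)²(4r+3)/((3r+1)(r+3))`.
Reductions (`exists_rdn`): mod 17, 23, 31, 37, 41 the curve is `U17, U23, U31, U37, U41`; `P1, P2, P3, P4, T` are
mod 17: `(14,8), (9,0), (8,9), (9,0), (8,9)`;   mod 23: `(11,1), (11,1), (17,15), (19,7), (4,13)`;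
mod 31: `(13,18), (9,9), (1,29), (22,12), (10,16)`;  mod 37: `(31,31), (21,16), (19,15), (25,5), (27,28)`;
mod 41: `(26,5), (21,2), (18,34), (20,10), (33,32)`.
Torsion: `torsion_dvd` with 17, 31: the order divides 24 and 36, so 12; the points above give a subgroup
`ℤ/2 × ℤ/6` of order 12.
Rank: `indep` with `l = 3`, `s = 1`, `T`: `hT`: the elements killed by 3 are the multiples of `T` (structure of the
torsion group); `hM` for `∑ n_i P_i + c T = 0`: `mul_U17`: `3 ∣ n1 - n3 - c`; `mul_U23`: `3 ∣ n3 + n4 - c`;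
`mul_U31`: `3 ∣ n1 + n2 - n3`; `mul_U37`: `3 ∣ n1 + n2 - n4 - c`; `mul_U41`: `3 ∣ n1 + n2 + n4 + c`; so all are
divisible by 3 (`omega`).
-/

set_option autoImplicit false

namespace Pool.Agent.InfR

open WeierstrassCurve

/-- the data at the small primes -/
structure St26 (r u v w : ℚ) : Prop where
  e1 : v ^ 2 = 10 * u ^ 2 + 54
  e2 : w ^ 2 = 6 * u ^ 2 + 10
  e3 : 3 * r * (u ^ 2 - 1) = 9 - u ^ 2
  r17 : Cg 17 r 12
  r23 : Cg 23 r 2
  r31 : Cg 31 r 17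
  r37 : Cg 37 r 29
  r41 : Cg 41 r 22
  u17 : Cg 17 u 7
  u23 : Cg 23 u 9
  u31 : Cg 31 u 26
  u37 : Cg 37 u 19
  u41 : Cg 41 u 35
  v17 : Cg 17 v 0
  v23 : Cg 23 v 6
  v31 : Cg 31 v 26
  v37 : Cg 37 v 36
  v41 : Cg 41 v 2
  w17 : Cg 17 w 7
  w23 : Cg 23 w 6
  w31 : Cg 31 w 25
  w37 : Cg 37 w 17
  w41 : Cg 41 w 12

theorem main26_cgc {p : ℕ} [Fact p.Prime] {a : ℚ} {b c : ZMod p} (h : Cg p a b) (hb : b = c) :
    Cg p a c := hb ▸ h

theorem main26_cgd {p : ℕ} [Fact p.Prime] {a a' : ℚ} {b b' c : ZMod p} (h : Cg p a b)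
    (h' : Cg p a' b') (hb : b' ≠ 0) (hc : c * b' = b) : Cg p (a / a') c := by
  refine main26_cgc (h.div h' hb) ?_
  rw [← hc, mul_div_assoc, div_self hb, mul_one]

/-- the nonvanishing of the factors -/
structure NZ26 (r : ℚ) : Prop where
  a1 : r ≠ 0
  a2 : r + 1 ≠ 0
  a3 : r - 1 ≠ 0
  a4 : r + 2 ≠ 0
  a5 : r + 3 ≠ 0
  a6 : 2 * r + 1 ≠ 0
  a7 : 3 * r + 1 ≠ 0
  a8 : r * 3 + 1 ≠ 0

theorem main26_nz {r u v w : ℚ} (h : St26 r u v w) : NZ26 r := by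
  have hr := h.r17
  constructor
  · exact hr.ne_zero (by decide)
  · exact (hr.add Cg.one).ne_zero (by decide)
  · exact (hr.sub Cg.one).ne_zero (by decide)
  · exact (hr.add (Cg.ofNat 2)).ne_zero (by decide)
  · exact (hr.add (Cg.ofNat 3)).ne_zero (by decide)
  · exact (((Cg.ofNat 2).mul hr).add Cg.one).ne_zero (by decide)
  · exact (((Cg.ofNat 3).mul hr).add Cg.one).ne_zero (by decide)
  · exact ((hr.mul (Cg.ofNat 3)).add Cg.one).ne_zero (by decide)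

theorem main26_Δ (r : ℚ) :
    (E26 r).Δ = 16 * (r ^ 3 * (r + 2) * (2 * r + 1) * ((r + 1) ^ 3 * (r - 1))) ^ 2 := by
  simp only [WeierstrassCurve.Δ, WeierstrassCurve.b₂, WeierstrassCurve.b₄, WeierstrassCurve.b₆,
    WeierstrassCurve.b₈, E26]
  ring

theorem main26_ell {r u v w : ℚ} (h : St26 r u v w) : (E26 r).Δ ≠ 0 := by
  have n := main26_nz h
  rw [main26_Δ]
  exact mul_ne_zero (by norm_num) (pow_ne_zero _ (mul_ne_zero (mul_ne_zero (mul_ne_zero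
    (pow_ne_zero _ n.a1) n.a4) n.a6) (mul_ne_zero (pow_ne_zero _ n.a2) n.a3)))

theorem main26_ns {r u v w : ℚ} (h : St26 r u v w) {x y : ℚ}
    (he : y ^ 2 = x * (x + r ^ 3 * (r + 2)) * (x + (2 * r + 1))) :
    (E26 r).toAffine.Nonsingular x y := by
  rw [← Affine.equation_iff_nonsingular_of_Δ_ne_zero (main26_ell h), Affine.equation_iff]
  simp only [E26]
  linear_combination he

/-- the squares -/
structure Sq26 (r u v w : ℚ) : Prop where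
  hu : u ^ 2 = 3 * (r + 3) / (3 * r + 1)
  hv : v ^ 2 = 48 * (4 * r + 3) / (3 * r + 1)
  hw : w ^ 2 = 16 * (3 * r + 4) / (3 * r + 1)

theorem main26_sq {r u v w : ℚ} (h : St26 r u v w) : Sq26 r u v w := by
  have n := (main26_nz h).a7
  have n8 := (main26_nz h).a8
  have hu : u ^ 2 = 3 * (r + 3) / (3 * r + 1) := by
    rw [eq_div_iff n]
    linear_combination h.e3
  refine ⟨hu, ?_, ?_⟩
  · rw [h.e1, hu]
    field_simp
    ring
  · rw [h.e2, hu]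
    field_simp
    ring

theorem main26_p1 {r u v w : ℚ} (h : St26 r u v w) : (E26 r).toAffine.Nonsingular
    (r ^ 2 * (r + 3) * (2 * r + 1) / (3 * r + 1))
    (r ^ 2 * (2 * r + 1) * (r + 1) ^ 3 * u / (3 * r + 1)) := by
  have n := main26_nz h
  have s := main26_sq h
  have n7 := n.a7
  have n8 := n.a8
  refine main26_ns h ?_
  rw [div_pow, mul_pow, s.hu]
  field_simp
  ring

theorem main26_p2 {r u v w : ℚ} (h : St26 r u v w) : (E26 r).toAffine.Nonsingular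
    (-(4 * r * (r + 2) * (2 * r + 1)) / (3 * (3 * r + 1)))
    (r * (r + 2) * (2 * r + 1) * (r - 1) * (3 * r + 2) * v / (18 * (3 * r + 1))) := by
  have n := main26_nz h
  have s := main26_sq h
  have n7 := n.a7
  have n8 := n.a8
  refine main26_ns h ?_
  rw [div_pow, mul_pow, s.hv]
  field_simp
  ring

theorem main26_p3 {r u v w : ℚ} (h : St26 r u v w) : (E26 r).toAffine.Nonsingular
    (-(4 * r ^ 2 * (r + 2) * (2 * r + 1)) / (3 * (r + 3)))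
    (r ^ 2 * (r + 2) * (2 * r + 1) * (r - 1) * (2 * r + 3) * (3 * r + 1) * u * w /
      (18 * (r + 3) ^ 2)) := by
  have n := main26_nz h
  have s := main26_sq h
  have n7 := n.a7
  have n8 := n.a8
  have n5 := n.a5
  refine main26_ns h ?_
  rw [div_pow, mul_pow, mul_pow, s.hu, s.hw]
  field_simp
  ring

theorem main26_p4 {r u v w : ℚ} (h : St26 r u v w) : (E26 r).toAffine.Nonsingular
    (4 * r ^ 2 * (r + 2) * (2 * r + 1) / ((3 * r + 1) * (r + 3)))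
    (r ^ 2 * (r + 2) * (2 * r + 1) * (r + 1) ^ 2 * u * v * w / (24 * (r + 3) ^ 2)) := by
  have n := main26_nz h
  have s := main26_sq h
  have n7 := n.a7
  have n8 := n.a8
  have n5 := n.a5
  refine main26_ns h ?_
  rw [div_pow, mul_pow, mul_pow, mul_pow, s.hu, s.hv, s.hw]
  field_simp
  ring

theorem main26_t {r u v w : ℚ} (h : St26 r u v w) :
    (E26 r).toAffine.Nonsingular (r ^ 2) (r ^ 2 * (r + 1) ^ 2) := by
  refine main26_ns h ?_
  ring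

theorem main26_a {r u v w : ℚ} (h : St26 r u v w) : (E26 r).toAffine.Nonsingular 0 0 := by
  refine main26_ns h ?_
  ring

theorem main26_b {r u v w : ℚ} (h : St26 r u v w) :
    (E26 r).toAffine.Nonsingular (-(2 * r + 1)) 0 := by
  refine main26_ns h ?_
  ring

theorem main26_a2 {r u v w : ℚ} (h : St26 r u v w) :
    2 • (Affine.Point.some _ _ (main26_a h) : (E26 r).toAffine.Point) = 0 := by
  rw [two_nsmul]
  refine Affine.Point.add_of_Y_eq rfl ?_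
  simp [Affine.negY, E26]

theorem main26_b2 {r u v w : ℚ} (h : St26 r u v w) :
    2 • (Affine.Point.some _ _ (main26_b h) : (E26 r).toAffine.Point) = 0 := by
  rw [two_nsmul]
  refine Affine.Point.add_of_Y_eq rfl ?_
  simp [Affine.negY, E26]

theorem main26_t3 {r u v w : ℚ} (h : St26 r u v w) :
    3 • (Affine.Point.some _ _ (main26_t h) : (E26 r).toAffine.Point) = 0 := by
  have e : (3 : ℕ) = 1 + 1 + 1 := rfl
  rw [e, add_smul, add_smul, one_smul]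
  refine RkT.line_sum (l := r ^ 2 + r + 1) (n := r ^ 2 * (r + 1) ^ 2 - (r ^ 2 + r + 1) * r ^ 2)
    _ _ _ ?_ ?_ ?_ ⟨?_, ?_, ?_⟩
  · ring
  · ring
  · ring
  · simp only [E26]
    ring
  · simp only [E26]
    ring
  · simp only [E26]
    ring

private theorem three_dvd {G : Type*} [AddCommGroup G] {T : G} (h3 : 3 • T = 0) (hT : T ≠ 0)
    {m : ℤ} (h : m • T = 0) : (3 : ℤ) ∣ m := by
  have h1 : addOrderOf T = 3 := addOrderOf_eq_prime h3 hT
  have h2 := addOrderOf_dvd_iff_zsmul_eq_zero.2 h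
  rw [h1] at h2
  exact_mod_cast h2

private theorem tor_str {G : Type*} [AddCommGroup G] [Finite G] (hc : Nat.card G ∣ 12)
    (A B T : G) (hA : 2 • A = 0) (hB : 2 • B = 0) (hT : 3 • T = 0) (nA : A ≠ 0) (nB : B ≠ 0)
    (nAB : A ≠ B) (nT : T ≠ 0) : Nonempty (G ≃+ ZMod 2 × ZMod 6) := by
  have hA' : (zmultiplesHom G A) ((2 : ℕ) : ℤ) = 0 := by
    rw [zmultiplesHom_apply, natCast_zsmul, hA]
  have hB' : (zmultiplesHom G (B + T)) ((6 : ℕ) : ℤ) = 0 := by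
    rw [zmultiplesHom_apply, natCast_zsmul, smul_add]
    have e1 : 6 • B = 0 := by
      rw [show (6 : ℕ) = 3 * 2 from rfl, mul_smul, hB, smul_zero]
    have e2 : 6 • T = 0 := by
      rw [show (6 : ℕ) = 2 * 3 from rfl, mul_smul, hT, smul_zero]
    rw [e1, e2, add_zero]
  let φ : ZMod 2 × ZMod 6 →+ G :=
    (ZMod.lift 2 ⟨zmultiplesHom G A, hA'⟩).coprod (ZMod.lift 6 ⟨zmultiplesHom G (B + T), hB'⟩)
  have hφ : ∀ k m : ℤ, φ ((k : ZMod 2), (m : ZMod 6)) = k • A + m • (B + T) := by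
    intro k m
    change ZMod.lift 2 ⟨zmultiplesHom G A, hA'⟩ (k : ZMod 2) +
      ZMod.lift 6 ⟨zmultiplesHom G (B + T), hB'⟩ (m : ZMod 6) = _
    rw [ZMod.lift_coe, ZMod.lift_coe]
    rfl
  have hinj : Function.Injective φ := by
    rw [injective_iff_map_eq_zero]
    rintro ⟨a, b⟩ hab
    obtain ⟨k, rfl⟩ := ZMod.intCast_surjective a
    obtain ⟨m, rfl⟩ := ZMod.intCast_surjective b
    rw [hφ] at hab
    have hzA : (2 : ℤ) • A = 0 := by exact_mod_cast hA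
    have hzB : (2 : ℤ) • B = 0 := by exact_mod_cast hB
    have hzT : (3 : ℤ) • T = 0 := by exact_mod_cast hT
    have h1 : (2 * m) • T = 0 := by
      have e : (2 : ℤ) • (k • A + m • (B + T)) = k • ((2 : ℤ) • A) + m • ((2 : ℤ) • B) +
          (2 * m) • T := by
        module
      rw [hab, hzA, hzB, smul_zero, smul_zero, smul_zero, zero_add, zero_add] at e
      exact e.symm
    have h2 := three_dvd hT nT h1
    have h3 : (3 : ℤ) ∣ m := by omega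
    obtain ⟨m', rfl⟩ := h3
    have h4 : k • A + m' • B = 0 := by
      have e : k • A + (3 * m') • (B + T) = k • A + m' • B + m' • ((2 : ℤ) • B) +
          m' • ((3 : ℤ) • T) := by
        module
      rw [hab, hzB, hzT, smul_zero, add_zero, add_zero] at e
      exact e.symm
    have hk : k • A = (k % 2) • A := by
      conv_lhs => rw [← Int.emod_add_mul_ediv k 2, add_smul, mul_comm, mul_smul, hzA, smul_zero,
        add_zero]
    have hm : m' • B = (m' % 2) • B := by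
      conv_lhs => rw [← Int.emod_add_mul_ediv m' 2, add_smul, mul_comm, mul_smul, hzB, smul_zero,
        add_zero]
    rw [hk, hm] at h4
    have h5 : k % 2 = 0 ∧ m' % 2 = 0 := by
      rcases Int.emod_two_eq_zero_or_one k with hk2 | hk2 <;>
        rcases Int.emod_two_eq_zero_or_one m' with hm2 | hm2
      · exact ⟨hk2, hm2⟩
      · rw [hk2, hm2, zero_smul, one_smul, zero_add] at h4
        exact absurd h4 nB
      · rw [hk2, hm2, zero_smul, one_smul, add_zero] at h4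
        exact absurd h4 nA
      · rw [hk2, hm2, one_smul, one_smul] at h4
        exfalso
        apply nAB
        have h6 : B + B = 0 := by rw [← two_nsmul, hB]
        rw [eq_neg_of_add_eq_zero_left h4, ← eq_neg_of_add_eq_zero_left h6]
    obtain ⟨h5, h6⟩ := h5
    refine Prod.ext ?_ ?_
    · change ((k : ℤ) : ZMod 2) = 0
      rw [ZMod.intCast_zmod_eq_zero_iff_dvd]
      exact_mod_cast Int.dvd_of_emod_eq_zero h5
    · change ((3 * m' : ℤ) : ZMod 6) = 0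
      rw [ZMod.intCast_zmod_eq_zero_iff_dvd]
      push_cast
      omega
  have hcard : Nat.card (ZMod 2 × ZMod 6) = 12 := by
    rw [Nat.card_prod, Nat.card_zmod, Nat.card_zmod]
  have hb : Function.Bijective φ := by
    have := (Nat.bijective_iff_injective_and_card φ).2
    apply this
    refine ⟨hinj, ?_⟩
    rw [hcard]
    have h1 := Nat.card_le_card_of_injective φ hinj
    rw [hcard] at h1
    have h2 := Nat.le_of_dvd (by norm_num) hc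
    omega
  exact ⟨(AddEquiv.ofBijective φ hb).symm⟩

theorem main26_rdn {r u v w : ℚ} (h : St26 r u v w) :
    (∃ f, Rdn (E26 r) 17 U17 f) ∧ (∃ f, Rdn (E26 r) 23 U23 f) ∧ (∃ f, Rdn (E26 r) 31 U31 f) ∧
    (∃ f, Rdn (E26 r) 37 U37 f) ∧ (∃ f, Rdn (E26 r) 41 U41 f) := by
  have r1 := h.r17
  have r2 := h.r23
  have r3 := h.r31
  have r4 := h.r37
  have r5 := h.r41
  refine ⟨exists_rdn Cg.zero ?_ Cg.zero ?_ Cg.zero ?_, exists_rdn Cg.zero ?_ Cg.zero ?_ Cg.zero ?_,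
    exists_rdn Cg.zero ?_ Cg.zero ?_ Cg.zero ?_, exists_rdn Cg.zero ?_ Cg.zero ?_ Cg.zero ?_,
    exists_rdn Cg.zero ?_ Cg.zero ?_ Cg.zero ?_⟩
  · exact main26_cgc
      (Cg.add (Cg.mul (Cg.pow r1 3) (Cg.add r1 (Cg.ofNat 2))) (Cg.add (Cg.mul (Cg.ofNat 2) r1) Cg.one))
      (by decide +kernel)
  · exact main26_cgc
      (Cg.mul (Cg.mul (Cg.pow r1 3) (Cg.add r1 (Cg.ofNat 2))) (Cg.add (Cg.mul (Cg.ofNat 2) r1) Cg.one))
      (by decide +kernel)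
  · decide +kernel
  · exact main26_cgc
      (Cg.add (Cg.mul (Cg.pow r2 3) (Cg.add r2 (Cg.ofNat 2))) (Cg.add (Cg.mul (Cg.ofNat 2) r2) Cg.one))
      (by decide +kernel)
  · exact main26_cgc
      (Cg.mul (Cg.mul (Cg.pow r2 3) (Cg.add r2 (Cg.ofNat 2))) (Cg.add (Cg.mul (Cg.ofNat 2) r2) Cg.one))
      (by decide +kernel)
  · decide +kernel
  · exact main26_cgc
      (Cg.add (Cg.mul (Cg.pow r3 3) (Cg.add r3 (Cg.ofNat 2))) (Cg.add (Cg.mul (Cg.ofNat 2) r3) Cg.one))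
      (by decide +kernel)
  · exact main26_cgc
      (Cg.mul (Cg.mul (Cg.pow r3 3) (Cg.add r3 (Cg.ofNat 2))) (Cg.add (Cg.mul (Cg.ofNat 2) r3) Cg.one))
      (by decide +kernel)
  · decide +kernel
  · exact main26_cgc
      (Cg.add (Cg.mul (Cg.pow r4 3) (Cg.add r4 (Cg.ofNat 2))) (Cg.add (Cg.mul (Cg.ofNat 2) r4) Cg.one))
      (by decide +kernel)
  · exact main26_cgc
      (Cg.mul (Cg.mul (Cg.pow r4 3) (Cg.add r4 (Cg.ofNat 2))) (Cg.add (Cg.mul (Cg.ofNat 2) r4) Cg.one))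
      (by decide +kernel)
  · decide +kernel
  · exact main26_cgc
      (Cg.add (Cg.mul (Cg.pow r5 3) (Cg.add r5 (Cg.ofNat 2))) (Cg.add (Cg.mul (Cg.ofNat 2) r5) Cg.one))
      (by decide +kernel)
  · exact main26_cgc
      (Cg.mul (Cg.mul (Cg.pow r5 3) (Cg.add r5 (Cg.ofNat 2))) (Cg.add (Cg.mul (Cg.ofNat 2) r5) Cg.one))
      (by decide +kernel)
  · decide +kernel

theorem main26_tor' {r u v w : ℚ} (h : St26 r u v w) :
    Finite (AddCommGroup.torsion (E26 r).toAffine.Point) ∧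
      Nat.card (AddCommGroup.torsion (E26 r).toAffine.Point) ∣ 12 := by
  obtain ⟨⟨f, hf⟩, -, ⟨g, hg⟩, -, -⟩ := main26_rdn h
  obtain ⟨h1, h2, h3⟩ := torsion_dvd (by norm_num) hf hg (by rw [card_U31]; norm_num)
    (by rw [card_U17]; norm_num)
  rw [card_U17] at h2
  rw [card_U31] at h3
  exact ⟨h1, Nat.dvd_gcd h2 h3⟩

theorem main26_tor {r u v w : ℚ} (h : St26 r u v w) : HasTorsion (E26 r) 2 6 := by
  obtain ⟨h1, h2⟩ := main26_tor' h
  have n := main26_nz h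
  refine tor_str h2
    ⟨Affine.Point.some _ _ (main26_a h), isOfFinAddOrder_iff_nsmul_eq_zero.2
      ⟨2, by norm_num, main26_a2 h⟩⟩
    ⟨Affine.Point.some _ _ (main26_b h), isOfFinAddOrder_iff_nsmul_eq_zero.2
      ⟨2, by norm_num, main26_b2 h⟩⟩
    ⟨Affine.Point.some _ _ (main26_t h), isOfFinAddOrder_iff_nsmul_eq_zero.2
      ⟨3, by norm_num, main26_t3 h⟩⟩ ?_ ?_ ?_ ?_ ?_ ?_ ?_
  · exact Subtype.ext (main26_a2 h)
  · exact Subtype.ext (main26_b2 h)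
  · exact Subtype.ext (main26_t3 h)
  · exact fun hc => Affine.Point.some_ne_zero _ (congrArg Subtype.val hc)
  · exact fun hc => Affine.Point.some_ne_zero _ (congrArg Subtype.val hc)
  · intro hc
    have hc' := congrArg Subtype.val hc
    injection hc' with e1
    exact n.a6 (neg_eq_zero.1 e1.symm)
  · exact fun hc => Affine.Point.some_ne_zero _ (congrArg Subtype.val hc)

private theorem tor_three {r u v w : ℚ} (h : St26 r u v w) (x : (E26 r).toAffine.Point)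
    (hx : 3 • x = 0) : ∃ c : Fin 1 → ℤ, x = ∑ i, c i •
      (fun _ : Fin 1 => (Affine.Point.some _ _ (main26_t h) : (E26 r).toAffine.Point)) i := by
  obtain ⟨e⟩ := main26_tor h
  let T : AddCommGroup.torsion (E26 r).toAffine.Point :=
    ⟨Affine.Point.some _ _ (main26_t h), isOfFinAddOrder_iff_nsmul_eq_zero.2
      ⟨3, by norm_num, main26_t3 h⟩⟩
  let X : AddCommGroup.torsion (E26 r).toAffine.Point :=
    ⟨x, isOfFinAddOrder_iff_nsmul_eq_zero.2 ⟨3, by norm_num, hx⟩⟩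
  have hT3 : 3 • T = 0 := Subtype.ext (main26_t3 h)
  have hX3 : 3 • X = 0 := Subtype.ext hx
  have hT0 : T ≠ 0 := fun hc => Affine.Point.some_ne_zero _ (congrArg Subtype.val hc)
  have key : ∀ s t : ZMod 2 × ZMod 6, 3 • s = 0 → 3 • t = 0 → t ≠ 0 →
      s = 0 ∨ s = t ∨ s = -t := by
    decide +kernel
  have h1 := key (e X) (e T) (by rw [← map_nsmul, hX3, map_zero])
    (by rw [← map_nsmul, hT3, map_zero]) (by rwa [Ne, EmbeddingLike.map_eq_zero_iff])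
  have h2 : X = 0 ∨ X = T ∨ X = -T := by
    rcases h1 with h1 | h1 | h1
    · exact Or.inl (by rwa [EmbeddingLike.map_eq_zero_iff] at h1)
    · exact Or.inr (Or.inl (e.injective h1))
    · rw [← map_neg] at h1
      exact Or.inr (Or.inr (e.injective h1))
  rcases h2 with h2 | h2 | h2
  · refine ⟨fun _ => 0, ?_⟩
    rw [Fin.sum_univ_one]
    exact (congrArg Subtype.val h2).trans (zero_smul ℤ _).symm
  · refine ⟨fun _ => 1, ?_⟩
    rw [Fin.sum_univ_one]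
    exact (congrArg Subtype.val h2).trans (one_smul ℤ _).symm
  · refine ⟨fun _ => -1, ?_⟩
    rw [Fin.sum_univ_one]
    refine (congrArg Subtype.val h2).trans ?_
    change -(Affine.Point.some _ _ (main26_t h) : (E26 r).toAffine.Point) =
      (-1 : ℤ) • (Affine.Point.some _ _ (main26_t h) : (E26 r).toAffine.Point)
    rw [neg_smul, one_smul]

private theorem comb5 {G : Type*} [AddCommGroup G] (N : ℕ) (Q1 Q2 Q3 Q4 Q5 g : G)
    (n1 n2 n3 n4 n5 a1 a2 a3 a4 a5 : ℤ) (h1 : N • Q1 = a1 • g) (h2 : N • Q2 = a2 • g)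
    (h3 : N • Q3 = a3 • g) (h4 : N • Q4 = a4 • g) (h5 : N • Q5 = a5 • g)
    (h : n1 • Q1 + n2 • Q2 + n3 • Q3 + n4 • Q4 + n5 • Q5 = 0) :
    (n1 * a1 + n2 * a2 + n3 * a3 + n4 * a4 + n5 * a5) • g = 0 := by
  have e : (n1 * a1 + n2 * a2 + n3 * a3 + n4 * a4 + n5 * a5) • g =
      n1 • (N • Q1) + n2 • (N • Q2) + n3 • (N • Q3) + n4 • (N • Q4) + n5 • (N • Q5) := by
    rw [h1, h2, h3, h4, h5]
    module
  have e2 : n1 • (N • Q1) + n2 • (N • Q2) + n3 • (N • Q3) + n4 • (N • Q4) + n5 • (N • Q5) =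
      N • (n1 • Q1 + n2 • Q2 + n3 • Q3 + n4 • Q4 + n5 • Q5) := by
    rw [smul_add, smul_add, smul_add, smul_add, smul_comm N n1, smul_comm N n2, smul_comm N n3,
      smul_comm N n4, smul_comm N n5]
  rw [e, e2, h, smul_zero]

theorem main26_m17 {r u v w : ℚ} (h : St26 r u v w) (n1 n2 n3 n4 c : ℤ)
    (hrel : n1 • (Affine.Point.some _ _ (main26_p1 h) : (E26 r).toAffine.Point) +
      n2 • (Affine.Point.some _ _ (main26_p2 h) : (E26 r).toAffine.Point) +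
      n3 • (Affine.Point.some _ _ (main26_p3 h) : (E26 r).toAffine.Point) +
      n4 • (Affine.Point.some _ _ (main26_p4 h) : (E26 r).toAffine.Point) +
      c • (Affine.Point.some _ _ (main26_t h) : (E26 r).toAffine.Point) = 0) :
    (3 : ℤ) ∣ n1 * 1 + n2 * 0 + n3 * -1 + n4 * 0 + c * -1 := by
  have hr := h.r17
  have hu := h.u17
  have hv := h.v17
  have hw := h.w17
  obtain ⟨f, hf⟩ := (main26_rdn h).1
  obtain ⟨q1, e1⟩ := hf.red _ _ (main26_p1 h) 14 8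
    (main26_cgd
      (Cg.mul (Cg.mul (Cg.pow hr 2) (Cg.add hr (Cg.ofNat 3))) (Cg.add (Cg.mul (Cg.ofNat 2) hr)
      Cg.one))
      (Cg.add (Cg.mul (Cg.ofNat 3) hr) Cg.one)
      (by decide +kernel) (by decide +kernel))
    (main26_cgd
      (Cg.mul (Cg.mul (Cg.mul (Cg.pow hr 2) (Cg.add (Cg.mul (Cg.ofNat 2) hr) Cg.one)) (Cg.pow
      (Cg.add hr Cg.one) 3)) hu)
      (Cg.add (Cg.mul (Cg.ofNat 3) hr) Cg.one)
      (by decide +kernel) (by decide +kernel))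
  obtain ⟨q2, e2⟩ := hf.red _ _ (main26_p2 h) 9 0
    (main26_cgd
      (Cg.neg (Cg.mul (Cg.mul (Cg.mul (Cg.ofNat 4) hr) (Cg.add hr (Cg.ofNat 2))) (Cg.add (Cg.mul
      (Cg.ofNat 2) hr) Cg.one)))
      (Cg.mul (Cg.ofNat 3) (Cg.add (Cg.mul (Cg.ofNat 3) hr) Cg.one))
      (by decide +kernel) (by decide +kernel))
    (main26_cgd
      (Cg.mul (Cg.mul (Cg.mul (Cg.mul (Cg.mul hr (Cg.add hr (Cg.ofNat 2))) (Cg.add (Cg.mul
      (Cg.ofNat 2) hr) Cg.one)) (Cg.sub hr Cg.one)) (Cg.add (Cg.mul (Cg.ofNat 3) hr) (Cg.ofNat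
      2))) hv)
      (Cg.mul (Cg.ofNat 18) (Cg.add (Cg.mul (Cg.ofNat 3) hr) Cg.one))
      (by decide +kernel) (by decide +kernel))
  obtain ⟨q3, e3⟩ := hf.red _ _ (main26_p3 h) 8 9
    (main26_cgd
      (Cg.neg (Cg.mul (Cg.mul (Cg.mul (Cg.ofNat 4) (Cg.pow hr 2)) (Cg.add hr (Cg.ofNat 2)))
      (Cg.add (Cg.mul (Cg.ofNat 2) hr) Cg.one)))
      (Cg.mul (Cg.ofNat 3) (Cg.add hr (Cg.ofNat 3)))
      (by decide +kernel) (by decide +kernel))
    (main26_cgd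
      (Cg.mul (Cg.mul (Cg.mul (Cg.mul (Cg.mul (Cg.mul (Cg.mul (Cg.pow hr 2) (Cg.add hr (Cg.ofNat
      2))) (Cg.add (Cg.mul (Cg.ofNat 2) hr) Cg.one)) (Cg.sub hr Cg.one)) (Cg.add (Cg.mul
      (Cg.ofNat 2) hr) (Cg.ofNat 3))) (Cg.add (Cg.mul (Cg.ofNat 3) hr) Cg.one)) hu) hw)
      (Cg.mul (Cg.ofNat 18) (Cg.pow (Cg.add hr (Cg.ofNat 3)) 2))
      (by decide +kernel) (by decide +kernel))
  obtain ⟨q4, e4⟩ := hf.red _ _ (main26_p4 h) 9 0
    (main26_cgd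
      (Cg.mul (Cg.mul (Cg.mul (Cg.ofNat 4) (Cg.pow hr 2)) (Cg.add hr (Cg.ofNat 2))) (Cg.add
      (Cg.mul (Cg.ofNat 2) hr) Cg.one))
      (Cg.mul (Cg.add (Cg.mul (Cg.ofNat 3) hr) Cg.one) (Cg.add hr (Cg.ofNat 3)))
      (by decide +kernel) (by decide +kernel))
    (main26_cgd
      (Cg.mul (Cg.mul (Cg.mul (Cg.mul (Cg.mul (Cg.mul (Cg.pow hr 2) (Cg.add hr (Cg.ofNat 2)))
      (Cg.add (Cg.mul (Cg.ofNat 2) hr) Cg.one)) (Cg.pow (Cg.add hr Cg.one) 2)) hu) hv) hw)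
      (Cg.mul (Cg.ofNat 24) (Cg.pow (Cg.add hr (Cg.ofNat 3)) 2))
      (by decide +kernel) (by decide +kernel))
  obtain ⟨q5, e5⟩ := hf.red _ _ (main26_t h) 8 9
    (main26_cgc (Cg.pow hr 2) (by decide +kernel))
    (main26_cgc (Cg.mul (Cg.pow hr 2) (Cg.pow (Cg.add hr Cg.one) 2)) (by decide +kernel))
  have hrel2 := congrArg f hrel
  rw [map_add, map_add, map_add, map_add, map_zsmul, map_zsmul, map_zsmul, map_zsmul, map_zsmul,
    e1, e2, e3, e4, e5, map_zero] at hrel2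
  obtain ⟨g, hg0, hg3, k1, k2, k3⟩ := mul_U17 q1 q2 q3
  refine three_dvd hg3 hg0 (comb5 8 _ _ _ _ _ g n1 n2 n3 n4 c _ _ _ _ _ ?_ ?_ ?_ ?_ ?_ hrel2)
  · rw [k1, one_smul]
  · exact k2.trans (zero_smul ℤ g).symm
  · rw [k3, neg_smul, one_smul]
  · exact k2.trans (zero_smul ℤ g).symm
  · rw [k3, neg_smul, one_smul]

theorem main26_m23 {r u v w : ℚ} (h : St26 r u v w) (n1 n2 n3 n4 c : ℤ)
    (hrel : n1 • (Affine.Point.some _ _ (main26_p1 h) : (E26 r).toAffine.Point) +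
      n2 • (Affine.Point.some _ _ (main26_p2 h) : (E26 r).toAffine.Point) +
      n3 • (Affine.Point.some _ _ (main26_p3 h) : (E26 r).toAffine.Point) +
      n4 • (Affine.Point.some _ _ (main26_p4 h) : (E26 r).toAffine.Point) +
      c • (Affine.Point.some _ _ (main26_t h) : (E26 r).toAffine.Point) = 0) :
    (3 : ℤ) ∣ n1 * 0 + n2 * 0 + n3 * 1 + n4 * 1 + c * -1 := by
  have hr := h.r23
  have hu := h.u23
  have hv := h.v23
  have hw := h.w23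
  obtain ⟨f, hf⟩ := (main26_rdn h).2.1
  obtain ⟨q1, e1⟩ := hf.red _ _ (main26_p1 h) 11 1
    (main26_cgd
      (Cg.mul (Cg.mul (Cg.pow hr 2) (Cg.add hr (Cg.ofNat 3))) (Cg.add (Cg.mul (Cg.ofNat 2) hr)
      Cg.one))
      (Cg.add (Cg.mul (Cg.ofNat 3) hr) Cg.one)
      (by decide +kernel) (by decide +kernel))
    (main26_cgd
      (Cg.mul (Cg.mul (Cg.mul (Cg.pow hr 2) (Cg.add (Cg.mul (Cg.ofNat 2) hr) Cg.one)) (Cg.pow
      (Cg.add hr Cg.one) 3)) hu)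
      (Cg.add (Cg.mul (Cg.ofNat 3) hr) Cg.one)
      (by decide +kernel) (by decide +kernel))
  obtain ⟨q2, e2⟩ := hf.red _ _ (main26_p2 h) 11 1
    (main26_cgd
      (Cg.neg (Cg.mul (Cg.mul (Cg.mul (Cg.ofNat 4) hr) (Cg.add hr (Cg.ofNat 2))) (Cg.add (Cg.mul
      (Cg.ofNat 2) hr) Cg.one)))
      (Cg.mul (Cg.ofNat 3) (Cg.add (Cg.mul (Cg.ofNat 3) hr) Cg.one))
      (by decide +kernel) (by decide +kernel))
    (main26_cgd
      (Cg.mul (Cg.mul (Cg.mul (Cg.mul (Cg.mul hr (Cg.add hr (Cg.ofNat 2))) (Cg.add (Cg.mul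
      (Cg.ofNat 2) hr) Cg.one)) (Cg.sub hr Cg.one)) (Cg.add (Cg.mul (Cg.ofNat 3) hr) (Cg.ofNat
      2))) hv)
      (Cg.mul (Cg.ofNat 18) (Cg.add (Cg.mul (Cg.ofNat 3) hr) Cg.one))
      (by decide +kernel) (by decide +kernel))
  obtain ⟨q3, e3⟩ := hf.red _ _ (main26_p3 h) 17 15
    (main26_cgd
      (Cg.neg (Cg.mul (Cg.mul (Cg.mul (Cg.ofNat 4) (Cg.pow hr 2)) (Cg.add hr (Cg.ofNat 2)))
      (Cg.add (Cg.mul (Cg.ofNat 2) hr) Cg.one)))
      (Cg.mul (Cg.ofNat 3) (Cg.add hr (Cg.ofNat 3)))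
      (by decide +kernel) (by decide +kernel))
    (main26_cgd
      (Cg.mul (Cg.mul (Cg.mul (Cg.mul (Cg.mul (Cg.mul (Cg.mul (Cg.pow hr 2) (Cg.add hr (Cg.ofNat
      2))) (Cg.add (Cg.mul (Cg.ofNat 2) hr) Cg.one)) (Cg.sub hr Cg.one)) (Cg.add (Cg.mul
      (Cg.ofNat 2) hr) (Cg.ofNat 3))) (Cg.add (Cg.mul (Cg.ofNat 3) hr) Cg.one)) hu) hw)
      (Cg.mul (Cg.ofNat 18) (Cg.pow (Cg.add hr (Cg.ofNat 3)) 2))
      (by decide +kernel) (by decide +kernel))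
  obtain ⟨q4, e4⟩ := hf.red _ _ (main26_p4 h) 19 7
    (main26_cgd
      (Cg.mul (Cg.mul (Cg.mul (Cg.ofNat 4) (Cg.pow hr 2)) (Cg.add hr (Cg.ofNat 2))) (Cg.add
      (Cg.mul (Cg.ofNat 2) hr) Cg.one))
      (Cg.mul (Cg.add (Cg.mul (Cg.ofNat 3) hr) Cg.one) (Cg.add hr (Cg.ofNat 3)))
      (by decide +kernel) (by decide +kernel))
    (main26_cgd
      (Cg.mul (Cg.mul (Cg.mul (Cg.mul (Cg.mul (Cg.mul (Cg.pow hr 2) (Cg.add hr (Cg.ofNat 2)))
      (Cg.add (Cg.mul (Cg.ofNat 2) hr) Cg.one)) (Cg.pow (Cg.add hr Cg.one) 2)) hu) hv) hw)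
      (Cg.mul (Cg.ofNat 24) (Cg.pow (Cg.add hr (Cg.ofNat 3)) 2))
      (by decide +kernel) (by decide +kernel))
  obtain ⟨q5, e5⟩ := hf.red _ _ (main26_t h) 4 13
    (main26_cgc (Cg.pow hr 2) (by decide +kernel))
    (main26_cgc (Cg.mul (Cg.pow hr 2) (Cg.pow (Cg.add hr Cg.one) 2)) (by decide +kernel))
  have hrel2 := congrArg f hrel
  rw [map_add, map_add, map_add, map_add, map_zsmul, map_zsmul, map_zsmul, map_zsmul, map_zsmul,
    e1, e2, e3, e4, e5, map_zero] at hrel2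
  obtain ⟨g, hg0, hg3, k1, k2, k3, k4⟩ := mul_U23 q1 q3 q4 q5
  refine three_dvd hg3 hg0 (comb5 8 _ _ _ _ _ g n1 n2 n3 n4 c _ _ _ _ _ ?_ ?_ ?_ ?_ ?_ hrel2)
  · exact k1.trans (zero_smul ℤ g).symm
  · exact k1.trans (zero_smul ℤ g).symm
  · rw [k2, one_smul]
  · rw [k3, one_smul]
  · rw [k4, neg_smul, one_smul]

theorem main26_m31 {r u v w : ℚ} (h : St26 r u v w) (n1 n2 n3 n4 c : ℤ)
    (hrel : n1 • (Affine.Point.some _ _ (main26_p1 h) : (E26 r).toAffine.Point) +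
      n2 • (Affine.Point.some _ _ (main26_p2 h) : (E26 r).toAffine.Point) +
      n3 • (Affine.Point.some _ _ (main26_p3 h) : (E26 r).toAffine.Point) +
      n4 • (Affine.Point.some _ _ (main26_p4 h) : (E26 r).toAffine.Point) +
      c • (Affine.Point.some _ _ (main26_t h) : (E26 r).toAffine.Point) = 0) :
    (3 : ℤ) ∣ n1 * 1 + n2 * 1 + n3 * -1 + n4 * 0 + c * 0 := by
  have hr := h.r31
  have hu := h.u31
  have hv := h.v31
  have hw := h.w31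
  obtain ⟨f, hf⟩ := (main26_rdn h).2.2.1
  obtain ⟨q1, e1⟩ := hf.red _ _ (main26_p1 h) 13 18
    (main26_cgd
      (Cg.mul (Cg.mul (Cg.pow hr 2) (Cg.add hr (Cg.ofNat 3))) (Cg.add (Cg.mul (Cg.ofNat 2) hr)
      Cg.one))
      (Cg.add (Cg.mul (Cg.ofNat 3) hr) Cg.one)
      (by decide +kernel) (by decide +kernel))
    (main26_cgd
      (Cg.mul (Cg.mul (Cg.mul (Cg.pow hr 2) (Cg.add (Cg.mul (Cg.ofNat 2) hr) Cg.one)) (Cg.pow
      (Cg.add hr Cg.one) 3)) hu)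
      (Cg.add (Cg.mul (Cg.ofNat 3) hr) Cg.one)
      (by decide +kernel) (by decide +kernel))
  obtain ⟨q2, e2⟩ := hf.red _ _ (main26_p2 h) 9 9
    (main26_cgd
      (Cg.neg (Cg.mul (Cg.mul (Cg.mul (Cg.ofNat 4) hr) (Cg.add hr (Cg.ofNat 2))) (Cg.add (Cg.mul
      (Cg.ofNat 2) hr) Cg.one)))
      (Cg.mul (Cg.ofNat 3) (Cg.add (Cg.mul (Cg.ofNat 3) hr) Cg.one))
      (by decide +kernel) (by decide +kernel))
    (main26_cgd
      (Cg.mul (Cg.mul (Cg.mul (Cg.mul (Cg.mul hr (Cg.add hr (Cg.ofNat 2))) (Cg.add (Cg.mul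
      (Cg.ofNat 2) hr) Cg.one)) (Cg.sub hr Cg.one)) (Cg.add (Cg.mul (Cg.ofNat 3) hr) (Cg.ofNat
      2))) hv)
      (Cg.mul (Cg.ofNat 18) (Cg.add (Cg.mul (Cg.ofNat 3) hr) Cg.one))
      (by decide +kernel) (by decide +kernel))
  obtain ⟨q3, e3⟩ := hf.red _ _ (main26_p3 h) 1 29
    (main26_cgd
      (Cg.neg (Cg.mul (Cg.mul (Cg.mul (Cg.ofNat 4) (Cg.pow hr 2)) (Cg.add hr (Cg.ofNat 2)))
      (Cg.add (Cg.mul (Cg.ofNat 2) hr) Cg.one)))
      (Cg.mul (Cg.ofNat 3) (Cg.add hr (Cg.ofNat 3)))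
      (by decide +kernel) (by decide +kernel))
    (main26_cgd
      (Cg.mul (Cg.mul (Cg.mul (Cg.mul (Cg.mul (Cg.mul (Cg.mul (Cg.pow hr 2) (Cg.add hr (Cg.ofNat
      2))) (Cg.add (Cg.mul (Cg.ofNat 2) hr) Cg.one)) (Cg.sub hr Cg.one)) (Cg.add (Cg.mul
      (Cg.ofNat 2) hr) (Cg.ofNat 3))) (Cg.add (Cg.mul (Cg.ofNat 3) hr) Cg.one)) hu) hw)
      (Cg.mul (Cg.ofNat 18) (Cg.pow (Cg.add hr (Cg.ofNat 3)) 2))
      (by decide +kernel) (by decide +kernel))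
  obtain ⟨q4, e4⟩ := hf.red _ _ (main26_p4 h) 22 12
    (main26_cgd
      (Cg.mul (Cg.mul (Cg.mul (Cg.ofNat 4) (Cg.pow hr 2)) (Cg.add hr (Cg.ofNat 2))) (Cg.add
      (Cg.mul (Cg.ofNat 2) hr) Cg.one))
      (Cg.mul (Cg.add (Cg.mul (Cg.ofNat 3) hr) Cg.one) (Cg.add hr (Cg.ofNat 3)))
      (by decide +kernel) (by decide +kernel))
    (main26_cgd
      (Cg.mul (Cg.mul (Cg.mul (Cg.mul (Cg.mul (Cg.mul (Cg.pow hr 2) (Cg.add hr (Cg.ofNat 2)))
      (Cg.add (Cg.mul (Cg.ofNat 2) hr) Cg.one)) (Cg.pow (Cg.add hr Cg.one) 2)) hu) hv) hw)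
      (Cg.mul (Cg.ofNat 24) (Cg.pow (Cg.add hr (Cg.ofNat 3)) 2))
      (by decide +kernel) (by decide +kernel))
  obtain ⟨q5, e5⟩ := hf.red _ _ (main26_t h) 10 16
    (main26_cgc (Cg.pow hr 2) (by decide +kernel))
    (main26_cgc (Cg.mul (Cg.pow hr 2) (Cg.pow (Cg.add hr Cg.one) 2)) (by decide +kernel))
  have hrel2 := congrArg f hrel
  rw [map_add, map_add, map_add, map_add, map_zsmul, map_zsmul, map_zsmul, map_zsmul, map_zsmul,
    e1, e2, e3, e4, e5, map_zero] at hrel2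
  obtain ⟨g, hg0, hg3, k1, k2, k3, k4, k5⟩ := mul_U31 q1 q2 q3 q4 q5
  refine three_dvd hg3 hg0 (comb5 12 _ _ _ _ _ g n1 n2 n3 n4 c _ _ _ _ _ ?_ ?_ ?_ ?_ ?_ hrel2)
  · rw [k1, one_smul]
  · rw [k2, one_smul]
  · rw [k3, neg_smul, one_smul]
  · exact k4.trans (zero_smul ℤ g).symm
  · exact k5.trans (zero_smul ℤ g).symm

theorem main26_m37 {r u v w : ℚ} (h : St26 r u v w) (n1 n2 n3 n4 c : ℤ)
    (hrel : n1 • (Affine.Point.some _ _ (main26_p1 h) : (E26 r).toAffine.Point) +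
      n2 • (Affine.Point.some _ _ (main26_p2 h) : (E26 r).toAffine.Point) +
      n3 • (Affine.Point.some _ _ (main26_p3 h) : (E26 r).toAffine.Point) +
      n4 • (Affine.Point.some _ _ (main26_p4 h) : (E26 r).toAffine.Point) +
      c • (Affine.Point.some _ _ (main26_t h) : (E26 r).toAffine.Point) = 0) :
    (3 : ℤ) ∣ n1 * 1 + n2 * 1 + n3 * 0 + n4 * -1 + c * -1 := by
  have hr := h.r37
  have hu := h.u37
  have hv := h.v37
  have hw := h.w37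
  obtain ⟨f, hf⟩ := (main26_rdn h).2.2.2.1
  obtain ⟨q1, e1⟩ := hf.red _ _ (main26_p1 h) 31 31
    (main26_cgd
      (Cg.mul (Cg.mul (Cg.pow hr 2) (Cg.add hr (Cg.ofNat 3))) (Cg.add (Cg.mul (Cg.ofNat 2) hr)
      Cg.one))
      (Cg.add (Cg.mul (Cg.ofNat 3) hr) Cg.one)
      (by decide +kernel) (by decide +kernel))
    (main26_cgd
      (Cg.mul (Cg.mul (Cg.mul (Cg.pow hr 2) (Cg.add (Cg.mul (Cg.ofNat 2) hr) Cg.one)) (Cg.pow
      (Cg.add hr Cg.one) 3)) hu)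
      (Cg.add (Cg.mul (Cg.ofNat 3) hr) Cg.one)
      (by decide +kernel) (by decide +kernel))
  obtain ⟨q2, e2⟩ := hf.red _ _ (main26_p2 h) 21 16
    (main26_cgd
      (Cg.neg (Cg.mul (Cg.mul (Cg.mul (Cg.ofNat 4) hr) (Cg.add hr (Cg.ofNat 2))) (Cg.add (Cg.mul
      (Cg.ofNat 2) hr) Cg.one)))
      (Cg.mul (Cg.ofNat 3) (Cg.add (Cg.mul (Cg.ofNat 3) hr) Cg.one))
      (by decide +kernel) (by decide +kernel))
    (main26_cgd
      (Cg.mul (Cg.mul (Cg.mul (Cg.mul (Cg.mul hr (Cg.add hr (Cg.ofNat 2))) (Cg.add (Cg.mul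
      (Cg.ofNat 2) hr) Cg.one)) (Cg.sub hr Cg.one)) (Cg.add (Cg.mul (Cg.ofNat 3) hr) (Cg.ofNat
      2))) hv)
      (Cg.mul (Cg.ofNat 18) (Cg.add (Cg.mul (Cg.ofNat 3) hr) Cg.one))
      (by decide +kernel) (by decide +kernel))
  obtain ⟨q3, e3⟩ := hf.red _ _ (main26_p3 h) 19 15
    (main26_cgd
      (Cg.neg (Cg.mul (Cg.mul (Cg.mul (Cg.ofNat 4) (Cg.pow hr 2)) (Cg.add hr (Cg.ofNat 2)))
      (Cg.add (Cg.mul (Cg.ofNat 2) hr) Cg.one)))
      (Cg.mul (Cg.ofNat 3) (Cg.add hr (Cg.ofNat 3)))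
      (by decide +kernel) (by decide +kernel))
    (main26_cgd
      (Cg.mul (Cg.mul (Cg.mul (Cg.mul (Cg.mul (Cg.mul (Cg.mul (Cg.pow hr 2) (Cg.add hr (Cg.ofNat
      2))) (Cg.add (Cg.mul (Cg.ofNat 2) hr) Cg.one)) (Cg.sub hr Cg.one)) (Cg.add (Cg.mul
      (Cg.ofNat 2) hr) (Cg.ofNat 3))) (Cg.add (Cg.mul (Cg.ofNat 3) hr) Cg.one)) hu) hw)
      (Cg.mul (Cg.ofNat 18) (Cg.pow (Cg.add hr (Cg.ofNat 3)) 2))
      (by decide +kernel) (by decide +kernel))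
  obtain ⟨q4, e4⟩ := hf.red _ _ (main26_p4 h) 25 5
    (main26_cgd
      (Cg.mul (Cg.mul (Cg.mul (Cg.ofNat 4) (Cg.pow hr 2)) (Cg.add hr (Cg.ofNat 2))) (Cg.add
      (Cg.mul (Cg.ofNat 2) hr) Cg.one))
      (Cg.mul (Cg.add (Cg.mul (Cg.ofNat 3) hr) Cg.one) (Cg.add hr (Cg.ofNat 3)))
      (by decide +kernel) (by decide +kernel))
    (main26_cgd
      (Cg.mul (Cg.mul (Cg.mul (Cg.mul (Cg.mul (Cg.mul (Cg.pow hr 2) (Cg.add hr (Cg.ofNat 2)))
      (Cg.add (Cg.mul (Cg.ofNat 2) hr) Cg.one)) (Cg.pow (Cg.add hr Cg.one) 2)) hu) hv) hw)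
      (Cg.mul (Cg.ofNat 24) (Cg.pow (Cg.add hr (Cg.ofNat 3)) 2))
      (by decide +kernel) (by decide +kernel))
  obtain ⟨q5, e5⟩ := hf.red _ _ (main26_t h) 27 28
    (main26_cgc (Cg.pow hr 2) (by decide +kernel))
    (main26_cgc (Cg.mul (Cg.pow hr 2) (Cg.pow (Cg.add hr Cg.one) 2)) (by decide +kernel))
  have hrel2 := congrArg f hrel
  rw [map_add, map_add, map_add, map_add, map_zsmul, map_zsmul, map_zsmul, map_zsmul, map_zsmul,
    e1, e2, e3, e4, e5, map_zero] at hrel2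
  obtain ⟨g, hg0, hg3, k1, k2, k3, k4, k5⟩ := mul_U37 q1 q2 q3 q4 q5
  refine three_dvd hg3 hg0 (comb5 16 _ _ _ _ _ g n1 n2 n3 n4 c _ _ _ _ _ ?_ ?_ ?_ ?_ ?_ hrel2)
  · rw [k1, one_smul]
  · rw [k2, one_smul]
  · exact k3.trans (zero_smul ℤ g).symm
  · rw [k4, neg_smul, one_smul]
  · rw [k5, neg_smul, one_smul]

theorem main26_m41 {r u v w : ℚ} (h : St26 r u v w) (n1 n2 n3 n4 c : ℤ)
    (hrel : n1 • (Affine.Point.some _ _ (main26_p1 h) : (E26 r).toAffine.Point) +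
      n2 • (Affine.Point.some _ _ (main26_p2 h) : (E26 r).toAffine.Point) +
      n3 • (Affine.Point.some _ _ (main26_p3 h) : (E26 r).toAffine.Point) +
      n4 • (Affine.Point.some _ _ (main26_p4 h) : (E26 r).toAffine.Point) +
      c • (Affine.Point.some _ _ (main26_t h) : (E26 r).toAffine.Point) = 0) :
    (3 : ℤ) ∣ n1 * 1 + n2 * 1 + n3 * 0 + n4 * 1 + c * 1 := by
  have hr := h.r41
  have hu := h.u41
  have hv := h.v41
  have hw := h.w41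
  obtain ⟨f, hf⟩ := (main26_rdn h).2.2.2.2
  obtain ⟨q1, e1⟩ := hf.red _ _ (main26_p1 h) 26 5
    (main26_cgd
      (Cg.mul (Cg.mul (Cg.pow hr 2) (Cg.add hr (Cg.ofNat 3))) (Cg.add (Cg.mul (Cg.ofNat 2) hr)
      Cg.one))
      (Cg.add (Cg.mul (Cg.ofNat 3) hr) Cg.one)
      (by decide +kernel) (by decide +kernel))
    (main26_cgd
      (Cg.mul (Cg.mul (Cg.mul (Cg.pow hr 2) (Cg.add (Cg.mul (Cg.ofNat 2) hr) Cg.one)) (Cg.pow
      (Cg.add hr Cg.one) 3)) hu)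
      (Cg.add (Cg.mul (Cg.ofNat 3) hr) Cg.one)
      (by decide +kernel) (by decide +kernel))
  obtain ⟨q2, e2⟩ := hf.red _ _ (main26_p2 h) 21 2
    (main26_cgd
      (Cg.neg (Cg.mul (Cg.mul (Cg.mul (Cg.ofNat 4) hr) (Cg.add hr (Cg.ofNat 2))) (Cg.add (Cg.mul
      (Cg.ofNat 2) hr) Cg.one)))
      (Cg.mul (Cg.ofNat 3) (Cg.add (Cg.mul (Cg.ofNat 3) hr) Cg.one))
      (by decide +kernel) (by decide +kernel))
    (main26_cgd
      (Cg.mul (Cg.mul (Cg.mul (Cg.mul (Cg.mul hr (Cg.add hr (Cg.ofNat 2))) (Cg.add (Cg.mul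
      (Cg.ofNat 2) hr) Cg.one)) (Cg.sub hr Cg.one)) (Cg.add (Cg.mul (Cg.ofNat 3) hr) (Cg.ofNat
      2))) hv)
      (Cg.mul (Cg.ofNat 18) (Cg.add (Cg.mul (Cg.ofNat 3) hr) Cg.one))
      (by decide +kernel) (by decide +kernel))
  obtain ⟨q3, e3⟩ := hf.red _ _ (main26_p3 h) 18 34
    (main26_cgd
      (Cg.neg (Cg.mul (Cg.mul (Cg.mul (Cg.ofNat 4) (Cg.pow hr 2)) (Cg.add hr (Cg.ofNat 2)))
      (Cg.add (Cg.mul (Cg.ofNat 2) hr) Cg.one)))
      (Cg.mul (Cg.ofNat 3) (Cg.add hr (Cg.ofNat 3)))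
      (by decide +kernel) (by decide +kernel))
    (main26_cgd
      (Cg.mul (Cg.mul (Cg.mul (Cg.mul (Cg.mul (Cg.mul (Cg.mul (Cg.pow hr 2) (Cg.add hr (Cg.ofNat
      2))) (Cg.add (Cg.mul (Cg.ofNat 2) hr) Cg.one)) (Cg.sub hr Cg.one)) (Cg.add (Cg.mul
      (Cg.ofNat 2) hr) (Cg.ofNat 3))) (Cg.add (Cg.mul (Cg.ofNat 3) hr) Cg.one)) hu) hw)
      (Cg.mul (Cg.ofNat 18) (Cg.pow (Cg.add hr (Cg.ofNat 3)) 2))
      (by decide +kernel) (by decide +kernel))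
  obtain ⟨q4, e4⟩ := hf.red _ _ (main26_p4 h) 20 10
    (main26_cgd
      (Cg.mul (Cg.mul (Cg.mul (Cg.ofNat 4) (Cg.pow hr 2)) (Cg.add hr (Cg.ofNat 2))) (Cg.add
      (Cg.mul (Cg.ofNat 2) hr) Cg.one))
      (Cg.mul (Cg.add (Cg.mul (Cg.ofNat 3) hr) Cg.one) (Cg.add hr (Cg.ofNat 3)))
      (by decide +kernel) (by decide +kernel))
    (main26_cgd
      (Cg.mul (Cg.mul (Cg.mul (Cg.mul (Cg.mul (Cg.mul (Cg.pow hr 2) (Cg.add hr (Cg.ofNat 2)))
      (Cg.add (Cg.mul (Cg.ofNat 2) hr) Cg.one)) (Cg.pow (Cg.add hr Cg.one) 2)) hu) hv) hw)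
      (Cg.mul (Cg.ofNat 24) (Cg.pow (Cg.add hr (Cg.ofNat 3)) 2))
      (by decide +kernel) (by decide +kernel))
  obtain ⟨q5, e5⟩ := hf.red _ _ (main26_t h) 33 32
    (main26_cgc (Cg.pow hr 2) (by decide +kernel))
    (main26_cgc (Cg.mul (Cg.pow hr 2) (Cg.pow (Cg.add hr Cg.one) 2)) (by decide +kernel))
  have hrel2 := congrArg f hrel
  rw [map_add, map_add, map_add, map_add, map_zsmul, map_zsmul, map_zsmul, map_zsmul, map_zsmul,
    e1, e2, e3, e4, e5, map_zero] at hrel2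
  obtain ⟨g, hg0, hg3, k1, k2, k3, k4, k5⟩ := mul_U41 q1 q2 q3 q4 q5
  refine three_dvd hg3 hg0 (comb5 16 _ _ _ _ _ g n1 n2 n3 n4 c _ _ _ _ _ ?_ ?_ ?_ ?_ ?_ hrel2)
  · rw [k1, one_smul]
  · rw [k2, one_smul]
  · exact k3.trans (zero_smul ℤ g).symm
  · rw [k4, one_smul]
  · rw [k5, one_smul]

theorem main26_rank {r u v w : ℚ} (h : St26 r u v w) :
    4 ≤ Module.rank ℤ (E26 r).toAffine.Point := by
  have hli : LinearIndependent ℤ (![(Affine.Point.some _ _ (main26_p1 h) : (E26 r).toAffine.Point),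
      (Affine.Point.some _ _ (main26_p2 h) : (E26 r).toAffine.Point),
      (Affine.Point.some _ _ (main26_p3 h) : (E26 r).toAffine.Point),
      (Affine.Point.some _ _ (main26_p4 h) : (E26 r).toAffine.Point)] :
      Fin 4 → (E26 r).toAffine.Point) := by
    have : Fact (Nat.Prime 3) := ⟨Nat.prime_three⟩
    refine indep 3 _ _ (tor_three h) ?_
    intro n c hrel
    rw [Fin.sum_univ_four, Fin.sum_univ_one] at hrel
    have h1 := main26_m17 h (n 0) (n 1) (n 2) (n 3) (c 0) hrel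
    have h2 := main26_m23 h (n 0) (n 1) (n 2) (n 3) (c 0) hrel
    have h3 := main26_m31 h (n 0) (n 1) (n 2) (n 3) (c 0) hrel
    have h4 := main26_m37 h (n 0) (n 1) (n 2) (n 3) (c 0) hrel
    have h5 := main26_m41 h (n 0) (n 1) (n 2) (n 3) (c 0) hrel
    have a1 : (3 : ℤ) ∣ n 0 := by omega
    have a2 : (3 : ℤ) ∣ n 1 := by omega
    have a3 : (3 : ℤ) ∣ n 2 := by omega
    have a4 : (3 : ℤ) ∣ n 3 := by omega
    have a5 : (3 : ℤ) ∣ c 0 := by omega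
    refine ⟨fun i => ?_, fun i => ?_⟩
    · fin_cases i
      · exact a1
      · exact a2
      · exact a3
      · exact a4
    · fin_cases i
      exact a5
  have h1 := hli.cardinal_le_rank
  rw [Cardinal.mk_fin] at h1
  exact_mod_cast h1

end Pool.Agent.InfR
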