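import Pool.Agent.InfR.Red
import Pool.Agent.InfR.Tor
import Pool.Agent.InfR.Num

/-!
# MODULE Main7: the curve `E7 t` has torsion group `ℤ/7` and rank at least `3`

Given `z1² = t² + 7t + 1`, `z2² = 25t² + 66t + 9` and the congruences.  All denominators below are nonzero because
they are nonzero modulo the primes.  Points (`2 y + a1 x + a3 = s`, so `y = (s - a1 x - a3)/2`,
`a1 = t² - 3t + 1`, `a2 = t² - t`, `a3 = -t (1-t)³`):
* `P0 = (0, 0)`, of order 7;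
* `x1 = t (1-t)² (7t+1) / z1²`,            `s1 = 2 t³ (1-t)² (4t²+7t+1) / z1³`;
* `x2 = t (1-t)³ / (1+t)²`,                `s2 = t² (1-t)³ z2 / (1+t)³`;
* `x3 = t (1-t)² (109t+16) / (16 z1²)`,    `s3 = t² (1-t)² (50t²+23t+2) z2 / (32 z1³)`.
Equation: `s² = 4x³ + 4 a2 x² + (a1 x + a3)²` (use the two relations for `z1, z2`).
`Δ(E7 t) = -t⁷ (1-t)⁷ (t³ - 8t² + 5t + 1)`.
Reductions (`exists_rdn`): mod 19, 23, 31, 37 the curve is `V19, V23, V31, V37`; the points are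
mod 23: `(11,13), (21,6), (3,3)`; mod 31: `(27,3), (7,27), (21,30)`; mod 37: `(33,21), (22,30), (24,17)`.
Torsion: `torsion_dvd` with 19, 23: the order divides 28 and 21, so 7; `P0` has order 7.
Rank: `indep` with `l = 3`, `s = 0` (no 3-torsion) and `mul_V23` (`3 ∣ n3`), `mul_V31` (`3 ∣ n1+n2+n3`),
`mul_V37` (`3 ∣ n1+n3`).
`7 • (0,0) = 0`: with `A1 = (0, 0)`, `A2 = (t(1-t), t²(1-t))`, `A3 = (t(1-t)², t²(1-t)³)` one has
`2 A1 = A2`, `A1 + A2 = A3`, `2 A2 + A3 = 0` (three lines).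
-/

set_option autoImplicit false

namespace Pool.Agent.InfR

open WeierstrassCurve

/-- the data at the small primes -/
structure St7 (t z1 z2 : ℚ) : Prop where
  e1 : z1 ^ 2 = t ^ 2 + 7 * t + 1
  e2 : z2 ^ 2 = 25 * t ^ 2 + 66 * t + 9
  t19 : Cg 19 t 8
  t23 : Cg 23 t 20
  t31 : Cg 31 t 14
  t37 : Cg 37 t 9
  u23 : Cg 23 z1 14
  u31 : Cg 31 z1 4
  u37 : Cg 37 z1 21
  v23 : Cg 23 z2 6
  v31 : Cg 31 z2 25
  v37 : Cg 37 z2 36

/-! ### the points -/

private def fx1 {K : Type*} [Field K] (t z : K) : K := t * (1 - t) ^ 2 * (7 * t + 1) / z ^ 2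
private def fs1 {K : Type*} [Field K] (t z : K) : K :=
  2 * t ^ 3 * (1 - t) ^ 2 * (4 * t ^ 2 + 7 * t + 1) / z ^ 3
private def fx2 {K : Type*} [Field K] (t : K) : K := t * (1 - t) ^ 3 / (1 + t) ^ 2
private def fs2 {K : Type*} [Field K] (t w : K) : K := t ^ 2 * (1 - t) ^ 3 * w / (1 + t) ^ 3
private def fx3 {K : Type*} [Field K] (t z : K) : K :=
  t * (1 - t) ^ 2 * (109 * t + 16) / (16 * z ^ 2)
private def fs3 {K : Type*} [Field K] (t z w : K) : K :=
  t ^ 2 * (1 - t) ^ 2 * (50 * t ^ 2 + 23 * t + 2) * w / (32 * z ^ 3)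
private def fy {K : Type*} [Field K] (t x s : K) : K :=
  (s - (t ^ 2 - 3 * t + 1) * x + t * (1 - t) ^ 3) / 2

private theorem eqn_of {t x s : ℚ}
    (h : s ^ 2 = 4 * x ^ 3 + 4 * (t ^ 2 - t) * x ^ 2 +
      ((t ^ 2 - 3 * t + 1) * x - t * (1 - t) ^ 3) ^ 2) :
    (E7 t).toAffine.Equation x (fy t x s) := by
  rw [Affine.equation_iff]
  simp only [E7, fy]
  linear_combination h / 4

private theorem eqn1 {t z1 : ℚ} (h1 : z1 ^ 2 = t ^ 2 + 7 * t + 1) (hz : z1 ≠ 0) :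
    (E7 t).toAffine.Equation (fx1 t z1) (fy t (fx1 t z1) (fs1 t z1)) := by
  apply eqn_of
  obtain ⟨q, hq⟩ : ∃ q, q = z1 ^ 2 := ⟨_, rfl⟩
  have hq0 : q ≠ 0 := by rw [hq]; exact pow_ne_zero 2 hz
  have e1 : fs1 t z1 ^ 2 =
      (2 * t ^ 3 * (1 - t) ^ 2 * (4 * t ^ 2 + 7 * t + 1)) ^ 2 / q ^ 3 := by
    rw [hq]
    unfold fs1
    field_simp
  have e2 : fx1 t z1 = t * (1 - t) ^ 2 * (7 * t + 1) / q := by
    rw [hq]
    rfl
  rw [e1, e2]
  field_simp
  rw [hq, h1]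
  ring

private theorem eqn2 {t z2 : ℚ} (h2 : z2 ^ 2 = 25 * t ^ 2 + 66 * t + 9) (ht : 1 + t ≠ 0) :
    (E7 t).toAffine.Equation (fx2 t) (fy t (fx2 t) (fs2 t z2)) := by
  apply eqn_of
  have e1 : fs2 t z2 ^ 2 =
      (t ^ 2 * (1 - t) ^ 3) ^ 2 * (25 * t ^ 2 + 66 * t + 9) / (1 + t) ^ 6 := by
    rw [← h2]
    unfold fs2
    field_simp
  rw [e1]
  unfold fx2
  field_simp
  ring

private theorem eqn3 {t z1 z2 : ℚ} (h1 : z1 ^ 2 = t ^ 2 + 7 * t + 1)
    (h2 : z2 ^ 2 = 25 * t ^ 2 + 66 * t + 9) (hz : z1 ≠ 0) :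
    (E7 t).toAffine.Equation (fx3 t z1) (fy t (fx3 t z1) (fs3 t z1 z2)) := by
  apply eqn_of
  obtain ⟨q, hq⟩ : ∃ q, q = z1 ^ 2 := ⟨_, rfl⟩
  have hq0 : q ≠ 0 := by rw [hq]; exact pow_ne_zero 2 hz
  have e1 : fs3 t z1 z2 ^ 2 =
      (t ^ 2 * (1 - t) ^ 2 * (50 * t ^ 2 + 23 * t + 2)) ^ 2 * (25 * t ^ 2 + 66 * t + 9) /
        (1024 * q ^ 3) := by
    rw [hq, ← h2]
    unfold fs3
    field_simp
    ring
  have e2 : fx3 t z1 = t * (1 - t) ^ 2 * (109 * t + 16) / (16 * q) := by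
    rw [hq]
    rfl
  rw [e1, e2]
  field_simp
  rw [hq, h1]
  ring

/-! ### the discriminant -/

private theorem disc (t : ℚ) :
    (E7 t).Δ = -(t ^ 7 * (1 - t) ^ 7 * (t ^ 3 - 8 * t ^ 2 + 5 * t + 1)) := by
  simp only [WeierstrassCurve.Δ, WeierstrassCurve.b₂, WeierstrassCurve.b₄, WeierstrassCurve.b₆,
    WeierstrassCurve.b₈, E7]
  ring

theorem main7_ell {t z1 z2 : ℚ} (h : St7 t z1 z2) : (E7 t).Δ ≠ 0 := by
  have h1 := h.t19
  have h2 : Cg 19 (E7 t).Δ (-((8 : ZMod 19) ^ 7 * (1 - 8) ^ 7 * (8 ^ 3 - 8 * 8 ^ 2 + 5 * 8 + 1))) := by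
    rw [disc]
    exact (((h1.pow 7).mul ((Cg.one.sub h1).pow 7)).mul
      ((((h1.pow 3).sub ((Cg.ofNat 8).mul (h1.pow 2))).add ((Cg.ofNat 5).mul h1)).add Cg.one)).neg
  exact h2.ne_zero (by decide +kernel)

/-! ### reductions -/

private theorem cgx1 {p : ℕ} [Fact p.Prime] {t z : ℚ} {τ ζ : ZMod p} (ht : Cg p t τ)
    (hz : Cg p z ζ) (h0 : ζ ≠ 0) : Cg p (fx1 t z) (fx1 τ ζ) :=
  ((ht.mul ((Cg.one.sub ht).pow 2)).mul (((Cg.ofNat 7).mul ht).add Cg.one)).div (hz.pow 2)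
    (pow_ne_zero 2 h0)

private theorem cgs1 {p : ℕ} [Fact p.Prime] {t z : ℚ} {τ ζ : ZMod p} (ht : Cg p t τ)
    (hz : Cg p z ζ) (h0 : ζ ≠ 0) : Cg p (fs1 t z) (fs1 τ ζ) :=
  ((((Cg.ofNat 2).mul (ht.pow 3)).mul ((Cg.one.sub ht).pow 2)).mul
    ((((Cg.ofNat 4).mul (ht.pow 2)).add ((Cg.ofNat 7).mul ht)).add Cg.one)).div (hz.pow 3)
    (pow_ne_zero 3 h0)

private theorem cgx2 {p : ℕ} [Fact p.Prime] {t : ℚ} {τ : ZMod p} (ht : Cg p t τ)
    (h0 : 1 + τ ≠ 0) : Cg p (fx2 t) (fx2 τ) :=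
  (ht.mul ((Cg.one.sub ht).pow 3)).div ((Cg.one.add ht).pow 2) (pow_ne_zero 2 h0)

private theorem cgs2 {p : ℕ} [Fact p.Prime] {t w : ℚ} {τ ω : ZMod p} (ht : Cg p t τ)
    (hw : Cg p w ω) (h0 : 1 + τ ≠ 0) : Cg p (fs2 t w) (fs2 τ ω) :=
  (((ht.pow 2).mul ((Cg.one.sub ht).pow 3)).mul hw).div ((Cg.one.add ht).pow 3) (pow_ne_zero 3 h0)

private theorem cgx3 {p : ℕ} [Fact p.Prime] {t z : ℚ} {τ ζ : ZMod p} (ht : Cg p t τ)
    (hz : Cg p z ζ) (h0 : 16 * ζ ^ 2 ≠ 0) : Cg p (fx3 t z) (fx3 τ ζ) :=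
  ((ht.mul ((Cg.one.sub ht).pow 2)).mul (((Cg.ofNat 109).mul ht).add (Cg.ofNat 16))).div
    ((Cg.ofNat 16).mul (hz.pow 2)) h0

private theorem cgs3 {p : ℕ} [Fact p.Prime] {t z w : ℚ} {τ ζ ω : ZMod p} (ht : Cg p t τ)
    (hz : Cg p z ζ) (hw : Cg p w ω) (h0 : 32 * ζ ^ 3 ≠ 0) : Cg p (fs3 t z w) (fs3 τ ζ ω) :=
  ((((ht.pow 2).mul ((Cg.one.sub ht).pow 2)).mul
    ((((Cg.ofNat 50).mul (ht.pow 2)).add ((Cg.ofNat 23).mul ht)).add (Cg.ofNat 2))).mul hw).div
    ((Cg.ofNat 32).mul (hz.pow 3)) h0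

private theorem cgy {p : ℕ} [Fact p.Prime] {t x s : ℚ} {τ ξ σ : ZMod p} (ht : Cg p t τ)
    (hx : Cg p x ξ) (hs : Cg p s σ) (h0 : (2 : ZMod p) ≠ 0) : Cg p (fy t x s) (fy τ ξ σ) :=
  ((hs.sub ((((ht.pow 2).sub ((Cg.ofNat 3).mul ht)).add Cg.one).mul hx)).add
    (ht.mul ((Cg.one.sub ht).pow 3))).div (Cg.ofNat 2) h0

private theorem red7 {t : ℚ} {p : ℕ} [Fact p.Prime] {τ : ZMod p} (ht : Cg p t τ)
    {V : WeierstrassCurve (ZMod p)} (v1 : V.a₁ = τ ^ 2 - 3 * τ + 1) (v2 : V.a₂ = τ ^ 2 - τ)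
    (v3 : V.a₃ = -(τ * (1 - τ) ^ 3)) (v4 : V.a₄ = 0) (v6 : V.a₆ = 0)
    (hΔ : V.Δ ≠ 0) : ∃ f, Rdn (E7 t) p V f := by
  refine exists_rdn ?_ ?_ ?_ ?_ ?_ hΔ
  · rw [v1]; exact ((ht.pow 2).sub ((Cg.ofNat 3).mul ht)).add Cg.one
  · rw [v2]; exact (ht.pow 2).sub ht
  · rw [v3]; exact (ht.mul ((Cg.one.sub ht).pow 3)).neg
  · rw [v4]; exact Cg.zero
  · rw [v6]; exact Cg.zero

private theorem ex19 {t : ℚ} (ht : Cg 19 t 8) : ∃ f, Rdn (E7 t) 19 V19 f :=
  red7 ht (by decide +kernel) (by decide +kernel) (by decide +kernel) rfl rfl (by decide +kernel)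
private theorem ex23 {t : ℚ} (ht : Cg 23 t 20) : ∃ f, Rdn (E7 t) 23 V23 f :=
  red7 ht (by decide +kernel) (by decide +kernel) (by decide +kernel) rfl rfl (by decide +kernel)
private theorem ex31 {t : ℚ} (ht : Cg 31 t 14) : ∃ f, Rdn (E7 t) 31 V31 f :=
  red7 ht (by decide +kernel) (by decide +kernel) (by decide +kernel) rfl rfl (by decide +kernel)
private theorem ex37 {t : ℚ} (ht : Cg 37 t 9) : ∃ f, Rdn (E7 t) 37 V37 f :=
  red7 ht (by decide +kernel) (by decide +kernel) (by decide +kernel) rfl rfl (by decide +kernel)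

/-! ### the torsion -/

private theorem seven_zero {t : ℚ} (hΔ : (E7 t).Δ ≠ 0) :
    ∃ h : (E7 t).toAffine.Nonsingular 0 0,
      7 • (Affine.Point.some 0 0 h : (E7 t).toAffine.Point) = 0 := by
  have N : ∀ x y : ℚ, (E7 t).toAffine.Equation x y → (E7 t).toAffine.Nonsingular x y :=
    fun x y h => (Affine.equation_iff_nonsingular_of_Δ_ne_zero hΔ).1 h
  have h1 : (E7 t).toAffine.Nonsingular 0 0 := N _ _ (by
    rw [Affine.equation_iff]; simp only [E7]; ring)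
  have h2 : (E7 t).toAffine.Nonsingular (t * (1 - t)) (t ^ 2 * (1 - t)) := N _ _ (by
    rw [Affine.equation_iff]; simp only [E7]; ring)
  have h2' : (E7 t).toAffine.Nonsingular (t * (1 - t)) 0 := N _ _ (by
    rw [Affine.equation_iff]; simp only [E7]; ring)
  have h3 : (E7 t).toAffine.Nonsingular (t * (1 - t) ^ 2) (t ^ 2 * (1 - t) ^ 3) := N _ _ (by
    rw [Affine.equation_iff]; simp only [E7]; ring)
  have h3' : (E7 t).toAffine.Nonsingular (t * (1 - t) ^ 2) (t ^ 2 * (1 - t) ^ 2) := N _ _ (by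
    rw [Affine.equation_iff]; simp only [E7]; ring)
  have n2 : -(Affine.Point.some _ _ h2 : (E7 t).toAffine.Point) = Affine.Point.some _ _ h2' := by
    rw [Affine.Point.neg_some]
    congr 1
    simp only [Affine.negY, E7]
    ring
  have n3 : -(Affine.Point.some _ _ h3 : (E7 t).toAffine.Point) = Affine.Point.some _ _ h3' := by
    rw [Affine.Point.neg_some]
    congr 1
    simp only [Affine.negY, E7]
    ring
  have l1 : (Affine.Point.some _ _ h1 : (E7 t).toAffine.Point) + Affine.Point.some _ _ h1 +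
      Affine.Point.some _ _ h2' = 0 := by
    refine RkT.line_sum (l := 0) (n := 0) h1 h1 h2' (by ring) (by ring) (by ring) ⟨?_, ?_, ?_⟩ <;>
    · simp only [E7]; ring
  have l2 : (Affine.Point.some _ _ h1 : (E7 t).toAffine.Point) + Affine.Point.some _ _ h2 +
      Affine.Point.some _ _ h3' = 0 := by
    refine RkT.line_sum (l := t) (n := 0) h1 h2 h3' (by ring) (by ring) (by ring) ⟨?_, ?_, ?_⟩ <;>
    · simp only [E7]; ring
  have l3 : (Affine.Point.some _ _ h2 : (E7 t).toAffine.Point) + Affine.Point.some _ _ h2 +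
      Affine.Point.some _ _ h3 = 0 := by
    refine RkT.line_sum (l := t * (2 - t)) (n := -(t ^ 2 * (1 - t) ^ 2)) h2 h2 h3 (by ring) (by ring)
      (by ring) ⟨?_, ?_, ?_⟩ <;>
    · simp only [E7]; ring
  refine ⟨h1, ?_⟩
  rw [← n2] at l1
  rw [← n3] at l2
  generalize (Affine.Point.some _ _ h1 : (E7 t).toAffine.Point) = A1 at *
  generalize (Affine.Point.some _ _ h2 : (E7 t).toAffine.Point) = A2 at *
  generalize (Affine.Point.some _ _ h3 : (E7 t).toAffine.Point) = A3 at *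
  have a2 : A2 = A1 + A1 := by
    have : A1 + A1 + -A2 = 0 := l1
    exact (sub_eq_zero.1 (by rw [← this]; abel)).symm
  have a3 : A3 = A1 + A2 := by
    have : A1 + A2 + -A3 = 0 := l2
    exact (sub_eq_zero.1 (by rw [← this]; abel)).symm
  rw [← l3, a3, a2]
  abel

private theorem card_tor {t z1 z2 : ℚ} (h : St7 t z1 z2) :
    Nat.card (AddCommGroup.torsion (E7 t).toAffine.Point) = 7 := by
  obtain ⟨f, hf⟩ := ex19 h.t19
  obtain ⟨g, hg⟩ := ex23 h.t23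
  obtain ⟨hfin, d1, d2⟩ := torsion_dvd (by norm_num) hf hg (by rw [card_V23]; norm_num)
    (by rw [card_V19]; norm_num)
  rw [card_V19] at d1
  rw [card_V23] at d2
  have d3 : Nat.card (AddCommGroup.torsion (E7 t).toAffine.Point) ∣ 7 := Nat.dvd_gcd d1 d2
  obtain ⟨h0, h7⟩ := seven_zero (main7_ell h)
  rcases (Nat.dvd_prime (by norm_num)).1 d3 with h1 | h1
  · exfalso
    have hx : IsOfFinAddOrder (Affine.Point.some 0 0 h0 : (E7 t).toAffine.Point) :=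
      isOfFinAddOrder_iff_nsmul_eq_zero.2 ⟨7, by norm_num, h7⟩
    have hs : Subsingleton (AddCommGroup.torsion (E7 t).toAffine.Point) :=
      (Nat.card_eq_one_iff_unique.1 h1).1
    have h2 : (⟨Affine.Point.some 0 0 h0, hx⟩ : AddCommGroup.torsion (E7 t).toAffine.Point) = 0 :=
      Subsingleton.elim _ _
    exact Affine.Point.some_ne_zero h0 (congrArg Subtype.val h2)
  · exact h1

theorem main7_tor {t z1 z2 : ℚ} (h : St7 t z1 z2) : HasTorsion (E7 t) 7 1 := by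
  have h1 := card_tor h
  have : Fact (Nat.Prime 7) := ⟨by norm_num⟩
  have c1 : IsAddCyclic (AddCommGroup.torsion (E7 t).toAffine.Point) := isAddCyclic_of_prime_card h1
  have e1 : ZMod 7 ≃+ AddCommGroup.torsion (E7 t).toAffine.Point := by
    have := zmodAddCyclicAddEquiv c1
    rwa [h1] at this
  exact ⟨e1.symm.trans (AddEquiv.prodUnique (M := ZMod 7) (N := ZMod 1)).symm⟩

/-! ### the rank -/

private theorem three_zero {t z1 z2 : ℚ} (h : St7 t z1 z2) (x : (E7 t).toAffine.Point)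
    (hx : 3 • x = 0) : x = 0 := by
  have h1 : IsOfFinAddOrder x := isOfFinAddOrder_iff_nsmul_eq_zero.2 ⟨3, by norm_num, hx⟩
  have h2 : 7 • x = 0 := by
    have h3 : Nat.card (AddCommGroup.torsion (E7 t).toAffine.Point) •
      (⟨x, h1⟩ : AddCommGroup.torsion (E7 t).toAffine.Point) = 0 := card_nsmul_eq_zero'
    rw [card_tor h] at h3
    exact congrArg Subtype.val h3
  have h3 : x = 7 • x - 2 • (3 • x) := by abel
  rw [h3, h2, hx]
  simp

private theorem dvd_of_ord {A : Type*} [AddCommGroup A] {g : A} (h0 : g ≠ 0) (h3 : 3 • g = 0)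
    {n : ℤ} (h : n • g = 0) : (3 : ℤ) ∣ n := by
  have h1 : addOrderOf g = 3 := by
    have : Fact (Nat.Prime 3) := ⟨by norm_num⟩
    exact addOrderOf_eq_prime h3 h0
  have h2 := addOrderOf_dvd_iff_zsmul_eq_zero.2 h
  rw [h1] at h2
  exact_mod_cast h2

/-- the image of a relation under a homomorphism -/
private theorem rel_map {A B : Type*} [AddCommGroup A] [AddCommGroup B] (f : A →+ B) {P1 P2 P3 : A}
    {n1 n2 n3 : ℤ} (h : n1 • P1 + n2 • P2 + n3 • P3 = 0) (k : ℕ) :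
    n1 • (k • f P1) + n2 • (k • f P2) + n3 • (k • f P3) = 0 := by
  have h1 : k • f (n1 • P1 + n2 • P2 + n3 • P3) = 0 := by rw [h, map_zero, smul_zero]
  rw [map_add, map_add, map_zsmul, map_zsmul, map_zsmul, smul_add, smul_add] at h1
  rw [← h1, smul_comm n1, smul_comm n2, smul_comm n3]

private theorem fin_a {A : Type*} [AddCommGroup A] {g : A} (g0 : g ≠ 0) (g3 : 3 • g = 0)
    {n1 n2 n3 : ℤ} (k : n1 • (0 : A) + n2 • (0 : A) + n3 • g = 0) : (3 : ℤ) ∣ n3 := by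
  apply dvd_of_ord g0 g3
  rw [← k]
  simp

private theorem fin_b {A : Type*} [AddCommGroup A] {g : A} (g0 : g ≠ 0) (g3 : 3 • g = 0)
    {n1 n2 n3 : ℤ} (k : n1 • g + n2 • g + n3 • g = 0) : (3 : ℤ) ∣ n1 + n2 + n3 := by
  apply dvd_of_ord g0 g3
  rw [add_smul, add_smul, k]

private theorem fin_c {A : Type*} [AddCommGroup A] {g : A} (g0 : g ≠ 0) (g3 : 3 • g = 0)
    {n1 n2 n3 : ℤ} (k : n1 • g + n2 • (0 : A) + n3 • g = 0) : (3 : ℤ) ∣ n1 + n3 := by
  apply dvd_of_ord g0 g3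
  rw [add_smul, ← k]
  simp

theorem main7_rank {t z1 z2 : ℚ} (h : St7 t z1 z2) : 3 ≤ Module.rank ℤ (E7 t).toAffine.Point := by
  have hz1 : z1 ≠ 0 := h.u23.ne_zero (by decide)
  have ht1 : 1 + t ≠ 0 := (Cg.one.add h.t23).ne_zero (by decide)
  have N : ∀ x y : ℚ, (E7 t).toAffine.Equation x y → (E7 t).toAffine.Nonsingular x y :=
    fun x y h' => (Affine.equation_iff_nonsingular_of_Δ_ne_zero (main7_ell h)).1 h'
  have p1 := N _ _ (eqn1 h.e1 hz1)
  have p2 := N _ _ (eqn2 h.e2 ht1)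
  have p3 := N _ _ (eqn3 h.e1 h.e2 hz1)
  set P1 : (E7 t).toAffine.Point := .some _ _ p1 with hP1
  set P2 : (E7 t).toAffine.Point := .some _ _ p2 with hP2
  set P3 : (E7 t).toAffine.Point := .some _ _ p3 with hP3
  have hind : LinearIndependent ℤ (![P1, P2, P3] : Fin 3 → (E7 t).toAffine.Point) := by
    have : Fact (Nat.Prime 3) := ⟨by norm_num⟩
    refine indep 3 ![P1, P2, P3] (fun i : Fin 0 => i.elim0) ?_ ?_
    · intro x hx
      exact ⟨fun i => i.elim0, by simpa using three_zero h x hx⟩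
    · intro n c hn
      refine ⟨?_, fun i => i.elim0⟩
      have hrel : n 0 • P1 + n 1 • P2 + n 2 • P3 = 0 := by
        simpa [Fin.sum_univ_three] using hn
      -- mod 23
      have a23 : (3 : ℤ) ∣ n 2 := by
        obtain ⟨f, hf⟩ := ex23 h.t23
        obtain ⟨q1, r1⟩ := hf.red _ _ p1 _ _ (cgx1 h.t23 h.u23 (by decide))
          (cgy h.t23 (cgx1 h.t23 h.u23 (by decide)) (cgs1 h.t23 h.u23 (by decide)) (by decide))
        obtain ⟨q2, r2⟩ := hf.red _ _ p2 _ _ (cgx2 h.t23 (by decide))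
          (cgy h.t23 (cgx2 h.t23 (by decide)) (cgs2 h.t23 h.v23 (by decide)) (by decide))
        obtain ⟨q3, r3⟩ := hf.red _ _ p3 _ _ (cgx3 h.t23 h.u23 (by decide))
          (cgy h.t23 (cgx3 h.t23 h.u23 (by decide)) (cgs3 h.t23 h.u23 h.v23 (by decide)) (by decide))
        have k := rel_map f hrel 7
        rw [hP1, hP2, hP3, r1, r2, r3] at k
        have e1 : (fx1 20 14 : ZMod 23) = 11 := by decide +kernel
        have e1' : (fy 20 11 (fs1 20 14) : ZMod 23) = 13 := by decide +kernel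
        have e2 : (fx2 20 : ZMod 23) = 21 := by decide +kernel
        have e2' : (fy 20 21 (fs2 20 6) : ZMod 23) = 6 := by decide +kernel
        have e3 : (fx3 20 14 : ZMod 23) = 3 := by decide +kernel
        have e3' : (fy 20 3 (fs3 20 14 6) : ZMod 23) = 3 := by decide +kernel
        simp only [e1, e2, e3, e1', e2', e3'] at k q1 q2 q3
        obtain ⟨g, g0, g3, m1, m2, m3⟩ := mul_V23 q1 q2 q3
        rw [m1, m2, m3] at k
        exact fin_a g0 g3 k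
      have a31 : (3 : ℤ) ∣ n 0 + n 1 + n 2 := by
        obtain ⟨f, hf⟩ := ex31 h.t31
        obtain ⟨q1, r1⟩ := hf.red _ _ p1 _ _ (cgx1 h.t31 h.u31 (by decide))
          (cgy h.t31 (cgx1 h.t31 h.u31 (by decide)) (cgs1 h.t31 h.u31 (by decide)) (by decide))
        obtain ⟨q2, r2⟩ := hf.red _ _ p2 _ _ (cgx2 h.t31 (by decide))
          (cgy h.t31 (cgx2 h.t31 (by decide)) (cgs2 h.t31 h.v31 (by decide)) (by decide))
        obtain ⟨q3, r3⟩ := hf.red _ _ p3 _ _ (cgx3 h.t31 h.u31 (by decide))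
          (cgy h.t31 (cgx3 h.t31 h.u31 (by decide)) (cgs3 h.t31 h.u31 h.v31 (by decide)) (by decide))
        have k := rel_map f hrel 14
        rw [hP1, hP2, hP3, r1, r2, r3] at k
        have e1 : (fx1 14 4 : ZMod 31) = 27 := by decide +kernel
        have e1' : (fy 14 27 (fs1 14 4) : ZMod 31) = 3 := by decide +kernel
        have e2 : (fx2 14 : ZMod 31) = 7 := by decide +kernel
        have e2' : (fy 14 7 (fs2 14 25) : ZMod 31) = 27 := by decide +kernel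
        have e3 : (fx3 14 4 : ZMod 31) = 21 := by decide +kernel
        have e3' : (fy 14 21 (fs3 14 4 25) : ZMod 31) = 30 := by decide +kernel
        simp only [e1, e2, e3, e1', e2', e3'] at k q1 q2 q3
        obtain ⟨g, g0, g3, m1, m2, m3⟩ := mul_V31 q1 q2 q3
        rw [m1, m2, m3] at k
        exact fin_b g0 g3 k
      have a37 : (3 : ℤ) ∣ n 0 + n 2 := by
        obtain ⟨f, hf⟩ := ex37 h.t37
        obtain ⟨q1, r1⟩ := hf.red _ _ p1 _ _ (cgx1 h.t37 h.u37 (by decide))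
          (cgy h.t37 (cgx1 h.t37 h.u37 (by decide)) (cgs1 h.t37 h.u37 (by decide)) (by decide))
        obtain ⟨q2, r2⟩ := hf.red _ _ p2 _ _ (cgx2 h.t37 (by decide))
          (cgy h.t37 (cgx2 h.t37 (by decide)) (cgs2 h.t37 h.v37 (by decide)) (by decide))
        obtain ⟨q3, r3⟩ := hf.red _ _ p3 _ _ (cgx3 h.t37 h.u37 (by decide))
          (cgy h.t37 (cgx3 h.t37 h.u37 (by decide)) (cgs3 h.t37 h.u37 h.v37 (by decide)) (by decide))
        have k := rel_map f hrel 14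
        rw [hP1, hP2, hP3, r1, r2, r3] at k
        have e1 : (fx1 9 21 : ZMod 37) = 33 := by decide +kernel
        have e1' : (fy 9 33 (fs1 9 21) : ZMod 37) = 21 := by decide +kernel
        have e2 : (fx2 9 : ZMod 37) = 22 := by decide +kernel
        have e2' : (fy 9 22 (fs2 9 36) : ZMod 37) = 30 := by decide +kernel
        have e3 : (fx3 9 21 : ZMod 37) = 24 := by decide +kernel
        have e3' : (fy 9 24 (fs3 9 21 36) : ZMod 37) = 17 := by decide +kernel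
        simp only [e1, e2, e3, e1', e2', e3'] at k q1 q2 q3
        obtain ⟨g, g0, g3, m1, m2, m3⟩ := mul_V37 q1 q2 q3
        rw [m1, m2, m3] at k
        exact fin_c g0 g3 k
      intro i
      fin_cases i
      · show (3 : ℤ) ∣ n 0
        omega
      · show (3 : ℤ) ∣ n 1
        omega
      · show (3 : ℤ) ∣ n 2
        exact a23
  have hc := hind.cardinal_le_rank
  simpa using hc

end Pool.Agent.InfR
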