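import Pool.Agent.InfR.Cg

/-!
# The `p`-adic norm and residues
-/

set_option autoImplicit false

namespace Pool.Agent.InfR

variable {p : ℕ} [hp : Fact p.Prime]

theorem int_iff (x : ℚ) : ¬ p ∣ x.den ↔ padicNorm p x ≤ 1 := by
  have hx : padicNorm p x = padicNorm p (x.num : ℚ) / padicNorm p ((x.den : ℤ) : ℚ) := by
    rw [← padicNorm.div]
    congr 1
    rw [Int.cast_natCast, Rat.num_div_den]
  constructor
  · intro h
    have h1 : padicNorm p ((x.den : ℤ) : ℚ) = 1 := by
      rw [padicNorm.int_eq_one_iff]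
      exact fun h2 => h (Int.natCast_dvd_natCast.1 h2)
    rw [hx, h1, div_one]
    exact padicNorm.of_int _
  · intro h h2
    have h3 : padicNorm p ((x.den : ℤ) : ℚ) < 1 := by
      rw [padicNorm.int_lt_one_iff]
      exact Int.natCast_dvd_natCast.2 h2
    have h4 : padicNorm p (x.num : ℚ) = 1 := by
      rw [padicNorm.int_eq_one_iff]
      intro h5
      have h6 := Int.natCast_dvd.1 h5
      have h7 := Nat.dvd_gcd h6 h2
      rw [x.reduced] at h7
      exact hp.out.one_lt.ne' (Nat.dvd_one.1 h7)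
    have h5 : 0 < padicNorm p ((x.den : ℤ) : ℚ) := by
      refine lt_of_le_of_ne (padicNorm.nonneg _) (Ne.symm (padicNorm.nonzero ?_))
      rw [Int.cast_natCast]
      exact_mod_cast x.den_nz
    rw [hx, h4, div_le_one h5] at h
    exact absurd h3 (not_lt.2 h)

theorem Cg.le {a : ℚ} {b : ZMod p} (h : Cg p a b) : padicNorm p a ≤ 1 := (int_iff a).1 h.1

theorem cg_of_le {a : ℚ} (h : padicNorm p a ≤ 1) : Cg p a (a : ZMod p) := cg_cast ((int_iff a).2 h)

theorem cg_zero_of_lt {x : ℚ} (h : padicNorm p x < 1) : Cg p x 0 := by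
  have h1 := (int_iff x).2 h.le
  refine ⟨h1, ?_⟩
  have hx : padicNorm p x = padicNorm p (x.num : ℚ) / padicNorm p ((x.den : ℤ) : ℚ) := by
    rw [← padicNorm.div]
    congr 1
    rw [Int.cast_natCast, Rat.num_div_den]
  have h2 : padicNorm p ((x.den : ℤ) : ℚ) = 1 := by
    rw [padicNorm.int_eq_one_iff]
    exact fun h2 => h1 (Int.natCast_dvd_natCast.1 h2)
  rw [hx, h2, div_one, padicNorm.int_lt_one_iff] at h
  rw [Rat.cast_def, (ZMod.intCast_zmod_eq_zero_iff_dvd _ _).2 h, zero_div]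

theorem Cg.eq_of_lt {a a' : ℚ} {b b' : ZMod p} (h : Cg p a b) (h' : Cg p a' b')
    (hl : padicNorm p (a - a') < 1) : b = b' :=
  sub_eq_zero.1 ((h.sub h').uniq (cg_zero_of_lt hl))

theorem n_add_le {x y c : ℚ} (hx : padicNorm p x ≤ c) (hy : padicNorm p y ≤ c) :
    padicNorm p (x + y) ≤ c := padicNorm.nonarchimedean.trans (max_le hx hy)

theorem n_sub_le {x y c : ℚ} (hx : padicNorm p x ≤ c) (hy : padicNorm p y ≤ c) :
    padicNorm p (x - y) ≤ c := padicNorm.sub.trans (max_le hx hy)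

theorem n_neg (x : ℚ) : padicNorm p (-x) = padicNorm p x := padicNorm.neg _

theorem n_add_eq {x y : ℚ} (h : padicNorm p y < padicNorm p x) :
    padicNorm p (x + y) = padicNorm p x := by
  rw [padicNorm.add_eq_max_of_ne h.ne', max_eq_left h.le]

theorem n_sub_eq {x y : ℚ} (h : padicNorm p y < padicNorm p x) :
    padicNorm p (x - y) = padicNorm p x := by
  rw [sub_eq_add_neg]
  exact n_add_eq (by rwa [padicNorm.neg])

theorem n_mul_le {x y c d : ℚ} (hx : padicNorm p x ≤ c) (hy : padicNorm p y ≤ d) :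
    padicNorm p (x * y) ≤ c * d := by
  rw [padicNorm.mul]
  exact mul_le_mul hx hy (padicNorm.nonneg _) ((padicNorm.nonneg _).trans hx)

theorem n_pow (x : ℚ) (n : ℕ) : padicNorm p (x ^ n) = padicNorm p x ^ n := by
  induction n with
  | zero => simp
  | succ n ih => rw [pow_succ, pow_succ, padicNorm.mul, ih]

theorem n_two : padicNorm p 2 ≤ 1 := by exact_mod_cast padicNorm.of_int (p := p) 2

theorem n_pos {x : ℚ} (h : x ≠ 0) : 0 < padicNorm p x :=
  lt_of_le_of_ne (padicNorm.nonneg _) (Ne.symm (padicNorm.nonzero h))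

end Pool.Agent.InfR
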