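import Pool.Agent.InfR.Cg
import Pool.Agent.RkT.Line

/-!
# MODULE RedB: the kernel of the reduction has no torsion prime to `p`

`|·| = padicNorm p`.  For a point `(x, y)` with `|x| > 1`: `|y|^2 = |x|^3`; let `z = - x / y` (and `z 0 = 0`), so
`|z|^2 = 1/|x|`.
(a) for three such points on a line (`IsLine W x1 x2 x3 l n`, `y_i = l x_i + n`, see `RkT.sum_line`): with
`m = min |x_i|`, `|z1 + z2 + z3| ≤ 1 / m`.  Indeed
`∑ x_i/y_i = (-a1 l n^2 - a2 n^2 + a3 l^2 n + 2 a4 l n - 3 a6 l^2) / (n^3 - a2 l n^2 + a4 l^2 n - a6 l^3)`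
(algebra from `s1, s2, s3`: `∑ x_i/y_i = (3 l^2 e3 + 2 l n e2 + n^2 e1)/(l^3 e3 + l^2 n e2 + l n^2 e1 + n^3)`),
`|n|^2 = |x1 x2 x3| ≥ max |x_i| m^2` (`s3`), `|l|^2 ≤ max |x_i|` (`s1`), so
`|l/n| ≤ 1/m < 1`, `|1/n| ≤ 1/m`; divide numerator and denominator by `n^3` (the denominator becomes a unit).
(b) `|z(-P) + z(P)| ≤ |z(P)|^2` (`z(-P) = x/(y + a1 x + a3)`).
(c) let `P ≠ 0` be in the kernel, `μ = |z(P)| < 1`.  By induction on `k`: `k P` is in the kernel (`f` is a
homomorphism, `hK`), `|z(k P)| ≤ μ` and `|z(k P) - k z(P)| ≤ μ^2`: use (a) for `kP, P, -(k+1)P` (three affine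
points with sum `0`; if `|z3| > max(|z1|,|z2|)` then `|z1 + z2 + z3| = |z3| > |z3|^2 = 1/m`, contradiction, so
`|z3| ≤ μ` and the sum is `≤ μ^2`), and (b); the cases where `kP = 0` or `(k+1)P = 0` are trivial or (b).
(d) `n P = 0`, `p ∤ n`: `|n z(P)| = μ ≤ μ^2`, contradiction.
-/

set_option autoImplicit false

namespace Pool.Agent.InfR

open WeierstrassCurve

section

variable {p : ℕ} [hp : Fact p.Prime]

private theorem RedB_le {a : ℚ} (h : ¬ p ∣ a.den) : padicNorm p a ≤ 1 := by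
  have h1 := (padicNorm.nat_eq_one_iff (p := p) a.den).2 h
  have h2 := padicNorm.of_int (p := p) a.num
  rw [← Rat.num_div_den a, padicNorm.div, h1, div_one]
  exact h2

private theorem RedB_gt {a : ℚ} (h : p ∣ a.den) : 1 < padicNorm p a := by
  have h1 := (padicNorm.nat_lt_one_iff (p := p) a.den).2 h
  have h2 : padicNorm p a.num = 1 := by
    rw [padicNorm.int_eq_one_iff]
    intro h3
    have h4 : p ∣ a.num.natAbs := Int.natCast_dvd.1 h3
    have h5 := Nat.dvd_gcd h4 h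
    rw [a.reduced] at h5
    exact hp.out.one_lt.ne' (Nat.dvd_one.1 h5)
  have h0 : padicNorm p a.den ≠ 0 := by
    apply padicNorm.nonzero
    exact_mod_cast a.den_nz
  have h3 : 0 < padicNorm p a.den := lt_of_le_of_ne (padicNorm.nonneg _) h0.symm
  rw [← Rat.num_div_den a, padicNorm.div, h2, one_lt_div h3]
  exact h1

private theorem RedB_dom {a b : ℚ} (h : padicNorm p b < padicNorm p a) :
    padicNorm p (a + b) = padicNorm p a := by
  rw [padicNorm.add_eq_max_of_ne h.ne', max_eq_left h.le]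

private theorem RedB_add {a b t : ℚ} (h : padicNorm p a ≤ t) (h' : padicNorm p b ≤ t) :
    padicNorm p (a + b) ≤ t := padicNorm.nonarchimedean.trans (max_le h h')

private theorem RedB_sub {a b t : ℚ} (h : padicNorm p a ≤ t) (h' : padicNorm p b ≤ t) :
    padicNorm p (a - b) ≤ t := padicNorm.sub.trans (max_le h h')

private theorem RedB_mul {a b s t : ℚ} (h : padicNorm p a ≤ s) (h' : padicNorm p b ≤ t) :
    padicNorm p (a * b) ≤ s * t := by
  rw [padicNorm.mul]
  exact mul_le_mul h h' (padicNorm.nonneg _) ((padicNorm.nonneg _).trans h)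

private theorem RedB_pow (a : ℚ) (k : ℕ) : padicNorm p (a ^ k) = padicNorm p a ^ k := by
  induction k with
  | zero => rw [pow_zero, pow_zero, padicNorm.one]
  | succ k ih => rw [pow_succ, pow_succ, padicNorm.mul, ih]

private theorem RedB_pt {x y a1 a2 a3 a4 a6 : ℚ} (h1 : padicNorm p a1 ≤ 1)
    (h2 : padicNorm p a2 ≤ 1) (h3 : padicNorm p a3 ≤ 1) (h4 : padicNorm p a4 ≤ 1)
    (h6 : padicNorm p a6 ≤ 1) (hx : 1 < padicNorm p x)
    (e : y ^ 2 + a1 * x * y + a3 * y = x ^ 3 + a2 * x ^ 2 + a4 * x + a6) :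
    padicNorm p y ^ 2 = padicNorm p x ^ 3 ∧ padicNorm p x < padicNorm p y := by
  have hY := padicNorm.nonneg (p := p) y
  have e1 : padicNorm p (x ^ 3 + (a2 * x ^ 2 + a4 * x + a6)) = padicNorm p x ^ 3 := by
    rw [RedB_dom, RedB_pow]
    have h5 : padicNorm p (a2 * x ^ 2 + a4 * x + a6) ≤ padicNorm p x ^ 2 := by
      refine RedB_add (RedB_add ?_ ?_) ?_
      · have := RedB_mul h2 (RedB_pow (p := p) x 2).le
        linarith
      · have := RedB_mul h4 (le_refl (padicNorm p x))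
        nlinarith
      · nlinarith
    rw [RedB_pow]
    exact lt_of_le_of_lt h5 (pow_lt_pow_right₀ hx (by norm_num))
  have hlt : padicNorm p x < padicNorm p y := by
    by_contra hc
    rw [not_lt] at hc
    have h5 : padicNorm p (y ^ 2 + a1 * x * y + a3 * y) ≤ padicNorm p x ^ 2 := by
      refine RedB_add (RedB_add ?_ ?_) ?_
      · rw [RedB_pow]
        exact pow_le_pow_left₀ hY hc 2
      · have := RedB_mul (RedB_mul h1 (le_refl (padicNorm p x))) hc
        linarith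
      · have := RedB_mul h3 hc
        nlinarith
    rw [e, show x ^ 3 + a2 * x ^ 2 + a4 * x + a6 = x ^ 3 + (a2 * x ^ 2 + a4 * x + a6) by ring,
      e1] at h5
    exact absurd h5 (not_le.2 (pow_lt_pow_right₀ hx (by norm_num)))
  refine ⟨?_, hlt⟩
  have e2 : padicNorm p (y ^ 2 + (a1 * x * y + a3 * y)) = padicNorm p y ^ 2 := by
    rw [RedB_dom, RedB_pow]
    have h5 : padicNorm p (a1 * x * y + a3 * y) ≤ padicNorm p x * padicNorm p y := by
      refine RedB_add ?_ ?_
      · have := RedB_mul (RedB_mul h1 (le_refl (padicNorm p x))) (le_refl (padicNorm p y))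
        linarith
      · have := RedB_mul h3 (le_refl (padicNorm p y))
        nlinarith
    rw [RedB_pow]
    nlinarith
  rw [← e1, ← e2]
  congr 1
  linear_combination e

private theorem RedB_sq {a b : ℚ} (hb : 0 ≤ b) (h : a ^ 2 ≤ b ^ 2) : a ≤ b := by
  by_contra hc
  rw [not_le] at hc
  nlinarith

/-- the norm of `x1/y1 + x2/y2 + x3/y3` on a line -/
private theorem RedB_line {a1 a2 a3 a4 a6 x1 x2 x3 y1 y2 y3 l n t : ℚ} (h1 : padicNorm p a1 ≤ 1)
    (h2 : padicNorm p a2 ≤ 1) (h3 : padicNorm p a3 ≤ 1) (h4 : padicNorm p a4 ≤ 1)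
    (h6 : padicNorm p a6 ≤ 1) (hx1 : 1 < padicNorm p x1) (hx2 : 1 < padicNorm p x2)
    (hx3 : 1 < padicNorm p x3) (hy1 : y1 ≠ 0) (hy2 : y2 ≠ 0) (hy3 : y3 ≠ 0)
    (e1 : y1 = l * x1 + n) (e2 : y2 = l * x2 + n) (e3 : y3 = l * x3 + n)
    (s1 : x1 + x2 + x3 = l ^ 2 + a1 * l - a2)
    (s2 : x1 * x2 + x1 * x3 + x2 * x3 = a4 - 2 * l * n - a1 * n - a3 * l)
    (s3 : x1 * x2 * x3 = n ^ 2 + a3 * n - a6)
    (t1 : 1 / padicNorm p x1 ≤ t) (t2 : 1 / padicNorm p x2 ≤ t) (t3 : 1 / padicNorm p x3 ≤ t) :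
    padicNorm p (x1 / y1 + x2 / y2 + x3 / y3) ≤ t := by
  have hL := padicNorm.nonneg (p := p) l
  have hN := padicNorm.nonneg (p := p) n
  -- the norm of `n`
  have hn : padicNorm p n ^ 2 = padicNorm p x1 * padicNorm p x2 * padicNorm p x3 ∧
      1 < padicNorm p n := by
    have e4 := congrArg (padicNorm p) s3
    rw [padicNorm.mul, padicNorm.mul] at e4
    have h5 : 1 < padicNorm p x1 * padicNorm p x2 * padicNorm p x3 := by
      have := one_lt_mul_of_lt_of_le hx1 hx2.le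
      exact one_lt_mul_of_lt_of_le this hx3.le
    have h7 : 1 < padicNorm p n := by
      by_contra hc
      rw [not_lt] at hc
      have h8 : padicNorm p (n ^ 2 + a3 * n - a6) ≤ 1 := by
        refine RedB_sub (RedB_add ?_ ?_) h6
        · rw [RedB_pow]
          exact pow_le_one₀ hN hc
        · have := RedB_mul h3 hc
          linarith
      linarith
    refine ⟨?_, h7⟩
    rw [e4, show n ^ 2 + a3 * n - a6 = n ^ 2 + (a3 * n - a6) by ring, RedB_dom, RedB_pow]
    have h8 : padicNorm p (a3 * n - a6) ≤ padicNorm p n := by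
      refine RedB_sub ?_ (h6.trans h7.le)
      have := RedB_mul h3 (le_refl (padicNorm p n))
      linarith
    rw [RedB_pow]
    nlinarith
  -- the norm of `l`
  have hl : ∀ M, padicNorm p x1 ≤ M → padicNorm p x2 ≤ M → padicNorm p x3 ≤ M →
      padicNorm p l ^ 2 ≤ M := by
    intro M m1 m2 m3
    by_cases hc : padicNorm p l ≤ 1
    · exact (pow_le_one₀ hL hc).trans (hx1.le.trans m1)
    · rw [not_le] at hc
      have e4 := congrArg (padicNorm p) s1
      have e5 : padicNorm p (l ^ 2 + (a1 * l - a2)) = padicNorm p l ^ 2 := by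
        rw [RedB_dom, RedB_pow]
        have h8 : padicNorm p (a1 * l - a2) ≤ padicNorm p l := by
          refine RedB_sub ?_ (h2.trans hc.le)
          have := RedB_mul h1 (le_refl (padicNorm p l))
          linarith
        rw [RedB_pow]
        nlinarith
      rw [show l ^ 2 + a1 * l - a2 = l ^ 2 + (a1 * l - a2) by ring, e5] at e4
      rw [← e4]
      exact RedB_add (RedB_add m1 m2) m3
  obtain ⟨m, hm, m1, m2, m3, hmt⟩ : ∃ m : ℚ, 1 < m ∧ m ≤ padicNorm p x1 ∧
      m ≤ padicNorm p x2 ∧ m ≤ padicNorm p x3 ∧ 1 / m ≤ t := by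
    rcases le_total (padicNorm p x1) (padicNorm p x2) with h | h
    · rcases le_total (padicNorm p x1) (padicNorm p x3) with h' | h'
      · exact ⟨_, hx1, le_rfl, h, h', t1⟩
      · exact ⟨_, hx3, h', h'.trans h, le_rfl, t3⟩
    · rcases le_total (padicNorm p x2) (padicNorm p x3) with h' | h'
      · exact ⟨_, hx2, h, le_rfl, h', t2⟩
      · exact ⟨_, hx3, h'.trans h, h', le_rfl, t3⟩
  have hm0 : 0 < m := by linarith
  have hn0 : 0 < padicNorm p n := by linarith [hn.2]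
  have hnn : n ≠ 0 := by
    rintro rfl
    rw [padicNorm.zero] at hn0
    exact lt_irrefl _ hn0
  -- `|l| m ≤ |n|`
  have hlm : padicNorm p l * m ≤ padicNorm p n := by
    apply RedB_sq hN
    rw [hn.1, mul_pow]
    have p1 : 0 < padicNorm p x1 := by linarith
    have p2 : 0 < padicNorm p x2 := by linarith
    have p3 : 0 < padicNorm p x3 := by linarith
    have q1 : m ^ 2 ≤ padicNorm p x2 * padicNorm p x3 := by
      rw [sq]; exact mul_le_mul m2 m3 hm0.le p2.le
    have q2 : m ^ 2 ≤ padicNorm p x1 * padicNorm p x3 := by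
      rw [sq]; exact mul_le_mul m1 m3 hm0.le p1.le
    have q3 : m ^ 2 ≤ padicNorm p x1 * padicNorm p x2 := by
      rw [sq]; exact mul_le_mul m1 m2 hm0.le p1.le
    rcases le_total (padicNorm p x1) (padicNorm p x2) with h | h
    · rcases le_total (padicNorm p x2) (padicNorm p x3) with h' | h'
      · calc padicNorm p l ^ 2 * m ^ 2 ≤
            padicNorm p x3 * (padicNorm p x1 * padicNorm p x2) :=
              mul_le_mul (hl _ (h.trans h') h' le_rfl) q3 (by positivity) p3.le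
          _ = _ := by ring
      · calc padicNorm p l ^ 2 * m ^ 2 ≤
            padicNorm p x2 * (padicNorm p x1 * padicNorm p x3) :=
              mul_le_mul (hl _ h le_rfl h') q2 (by positivity) p2.le
          _ = _ := by ring
    · rcases le_total (padicNorm p x1) (padicNorm p x3) with h' | h'
      · calc padicNorm p l ^ 2 * m ^ 2 ≤
            padicNorm p x3 * (padicNorm p x1 * padicNorm p x2) :=
              mul_le_mul (hl _ h' (h.trans h') le_rfl) q3 (by positivity) p3.le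
          _ = _ := by ring
      · calc padicNorm p l ^ 2 * m ^ 2 ≤
            padicNorm p x1 * (padicNorm p x2 * padicNorm p x3) :=
              mul_le_mul (hl _ le_rfl h h') q1 (by positivity) p1.le
          _ = _ := by ring
  -- `m ≤ |n|`
  have hmn : m ≤ padicNorm p n := by
    apply RedB_sq hN
    rw [hn.1]
    have p1 : 0 < padicNorm p x1 := by linarith
    have q3 : m ^ 2 ≤ padicNorm p x1 * padicNorm p x2 := by
      rw [sq]; exact mul_le_mul m1 m2 hm0.le p1.le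
    nlinarith
  have ht : padicNorm p (l / n) ≤ 1 / m := by
    rw [padicNorm.div, div_le_div_iff₀ hn0 hm0]
    linarith
  have hu : padicNorm p (1 / n) ≤ 1 / m := by
    rw [padicNorm.div, padicNorm.one, div_le_div_iff₀ hn0 hm0]
    linarith
  have hm1 : 1 / m < 1 := by rw [div_lt_one hm0]; exact hm
  have hmi : 0 < 1 / m := by positivity
  have hA : x1 * y2 * y3 + x2 * y1 * y3 + x3 * y1 * y2 =
      a3 * l ^ 2 * n - 3 * a6 * l ^ 2 + 2 * a4 * l * n - a1 * l * n ^ 2 - a2 * n ^ 2 := by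
    rw [e1, e2, e3]
    linear_combination 3 * l ^ 2 * s3 + 2 * l * n * s2 + n ^ 2 * s1
  have hB : y1 * y2 * y3 = n ^ 3 - a2 * l * n ^ 2 + a4 * l ^ 2 * n - a6 * l ^ 3 := by
    rw [e1, e2, e3]
    linear_combination l ^ 3 * s3 + l ^ 2 * n * s2 + l * n ^ 2 * s1
  have key : x1 / y1 + x2 / y2 + x3 / y3 =
      (a3 * (l / n) * (l / n) - 3 * (a6 * (l / n) * (l / n) * (1 / n)) +
        2 * (a4 * (l / n) * (1 / n)) - a1 * (l / n) - a2 * (1 / n)) /
      (1 + (-(a2 * (l / n)) + a4 * (l / n) * (l / n) - a6 * (l / n) * (l / n) * (l / n))) := by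
    have hB' : 1 + (-(a2 * (l / n)) + a4 * (l / n) * (l / n) - a6 * (l / n) * (l / n) * (l / n)) =
        (y1 * y2 * y3) / n ^ 3 := by
      rw [hB]
      field_simp
      ring
    have hA' : a3 * (l / n) * (l / n) - 3 * (a6 * (l / n) * (l / n) * (1 / n)) +
        2 * (a4 * (l / n) * (1 / n)) - a1 * (l / n) - a2 * (1 / n) =
        (x1 * y2 * y3 + x2 * y1 * y3 + x3 * y1 * y2) / n ^ 3 := by
      rw [hA]
      field_simp
    rw [hA', hB']
    field_simp
  generalize l / n = tt at *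
  generalize 1 / n = uu at *
  generalize 1 / m = mm at *
  have z3 : padicNorm p (3 : ℚ) ≤ 1 := by simpa using padicNorm.of_nat (p := p) 3
  have z2 : padicNorm p (2 : ℚ) ≤ 1 := by simpa using padicNorm.of_nat (p := p) 2
  have c1 : ∀ a : ℚ, padicNorm p a ≤ 1 → padicNorm p (a * tt) ≤ mm := by
    intro a ha
    have := RedB_mul ha ht
    linarith
  have c2 : ∀ a : ℚ, padicNorm p a ≤ 1 → padicNorm p (a * uu) ≤ mm := by
    intro a ha
    have := RedB_mul ha hu
    linarith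
  have c3 : ∀ a : ℚ, padicNorm p a ≤ 1 → padicNorm p (a * tt) ≤ 1 := fun a ha =>
    (c1 a ha).trans hm1.le
  have c5 : ∀ a : ℚ, padicNorm p a ≤ mm → ∀ b : ℚ, padicNorm p b ≤ 1 →
      padicNorm p (b * a) ≤ mm := by
    intro a ha b hb
    have := RedB_mul hb ha
    linarith
  have hnum : padicNorm p (a3 * tt * tt - 3 * (a6 * tt * tt * uu) +
        2 * (a4 * tt * uu) - a1 * tt - a2 * uu) ≤ mm := by
    refine RedB_sub (RedB_sub (RedB_add (RedB_sub ?_ ?_) ?_) ?_) ?_
    · exact c1 _ (c3 _ h3)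
    · exact c5 _ (c2 _ (c3 _ (c3 _ h6))) _ z3
    · exact c5 _ (c2 _ (c3 _ h4)) _ z2
    · exact c1 _ h1
    · exact c2 _ h2
  have hden : padicNorm p (1 + (-(a2 * tt) + a4 * tt * tt - a6 * tt * tt * tt)) = 1 := by
    rw [RedB_dom, padicNorm.one]
    rw [padicNorm.one]
    refine lt_of_le_of_lt (b := mm) ?_ hm1
    refine RedB_sub (RedB_add ?_ ?_) ?_
    · rw [padicNorm.neg]
      exact c1 _ h2
    · exact c1 _ (c3 _ h4)
    · exact c1 _ (c3 _ (c3 _ h6))
  rw [key, padicNorm.div, hden, div_one]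
  exact hnum.trans hmt

/-- the parameter `- x / y` at the origin -/
private def zz (W : WeierstrassCurve ℚ) : W.toAffine.Point → ℚ
  | .zero => 0
  | .some x y _ => -x / y

/-- the kernel of the reduction -/
private def Kr (W : WeierstrassCurve ℚ) (p : ℕ) : W.toAffine.Point → Prop
  | .zero => True
  | .some x _ _ => 1 < padicNorm p x

private theorem RedB_pt' {W : WeierstrassCurve ℚ}
    (h1 : padicNorm p W.a₁ ≤ 1) (h2 : padicNorm p W.a₂ ≤ 1) (h3 : padicNorm p W.a₃ ≤ 1)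
    (h4 : padicNorm p W.a₄ ≤ 1) (h6 : padicNorm p W.a₆ ≤ 1) {x y : ℚ}
    (h : W.toAffine.Nonsingular x y) (hx : 1 < padicNorm p x) :
    padicNorm p y ^ 2 = padicNorm p x ^ 3 ∧ padicNorm p x < padicNorm p y ∧ y ≠ 0 ∧
      padicNorm p (-x / y) ^ 2 = 1 / padicNorm p x := by
  have e := (W.toAffine.equation_iff x y).1 h.1
  have h5 := RedB_pt h1 h2 h3 h4 h6 hx e
  have hy : 0 < padicNorm p y := by linarith [h5.2]
  refine ⟨h5.1, h5.2, ?_, ?_⟩
  · rintro rfl
    rw [padicNorm.zero] at hy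
    exact lt_irrefl _ hy
  · have hx0 : padicNorm p x ≠ 0 := by
      intro h0
      rw [h0] at hx
      linarith
    rw [padicNorm.div, padicNorm.neg, div_pow, h5.1]
    field_simp

private theorem RedB_zlt {W : WeierstrassCurve ℚ}
    (h1 : padicNorm p W.a₁ ≤ 1) (h2 : padicNorm p W.a₂ ≤ 1) (h3 : padicNorm p W.a₃ ≤ 1)
    (h4 : padicNorm p W.a₄ ≤ 1) (h6 : padicNorm p W.a₆ ≤ 1) (P : W.toAffine.Point)
    (hP : Kr W p P) : padicNorm p (zz W P) < 1 := by
  rcases P with _ | ⟨x, y, h⟩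
  · change padicNorm p 0 < 1
    rw [padicNorm.zero]
    exact one_pos
  · change 1 < padicNorm p x at hP
    change padicNorm p (-x / y) < 1
    have h5 := (RedB_pt' h1 h2 h3 h4 h6 h hP).2.2.2
    have h7 : padicNorm p (-x / y) ^ 2 < 1 := by
      rw [h5, div_lt_one (by linarith)]
      exact hP
    exact (sq_lt_one_iff₀ (padicNorm.nonneg _)).1 h7

private theorem RedB_zpos {W : WeierstrassCurve ℚ}
    (h1 : padicNorm p W.a₁ ≤ 1) (h2 : padicNorm p W.a₂ ≤ 1) (h3 : padicNorm p W.a₃ ≤ 1)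
    (h4 : padicNorm p W.a₄ ≤ 1) (h6 : padicNorm p W.a₆ ≤ 1) (P : W.toAffine.Point)
    (hP : Kr W p P) (hz : padicNorm p (zz W P) ≤ 0) : P = 0 := by
  rcases P with _ | ⟨x, y, h⟩
  · rfl
  · exfalso
    change 1 < padicNorm p x at hP
    change padicNorm p (-x / y) ≤ 0 at hz
    have h5 := (RedB_pt' h1 h2 h3 h4 h6 h hP).2.2.2
    have h7 : padicNorm p (-x / y) = 0 := le_antisymm hz (padicNorm.nonneg _)
    rw [h7] at h5
    have h8 : 0 < 1 / padicNorm p x := by
      apply div_pos one_pos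
      linarith
    rw [← h5] at h8
    norm_num at h8

/-- `P` and `- P` -/
private theorem RedB_neg {W : WeierstrassCurve ℚ}
    (h1 : padicNorm p W.a₁ ≤ 1) (h2 : padicNorm p W.a₂ ≤ 1) (h3 : padicNorm p W.a₃ ≤ 1)
    (h4 : padicNorm p W.a₄ ≤ 1) (h6 : padicNorm p W.a₆ ≤ 1) (P : W.toAffine.Point)
    (hP : Kr W p P) : padicNorm p (zz W P + zz W (-P)) ≤ padicNorm p (zz W P) ^ 2 := by
  rcases P with _ | ⟨x, y, h⟩
  · change padicNorm p (0 + 0) ≤ padicNorm p 0 ^ 2
    rw [add_zero, padicNorm.zero]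
    norm_num
  · change 1 < padicNorm p x at hP
    change padicNorm p (-x / y + -x / (W.toAffine.negY x y)) ≤ padicNorm p (-x / y) ^ 2
    obtain ⟨h5, h7, h8, h9⟩ := RedB_pt' h1 h2 h3 h4 h6 h hP
    have hx0 : 0 < padicNorm p x := by linarith
    have hy0 : 0 < padicNorm p y := by linarith
    have hyn : padicNorm p (y + (W.a₁ * x + W.a₃)) = padicNorm p y := by
      apply RedB_dom
      refine lt_of_le_of_lt ?_ h7
      refine RedB_add ?_ (h3.trans hP.le)
      have := RedB_mul h1 (le_refl (padicNorm p x))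
      linarith
    have hyn0 : y + (W.a₁ * x + W.a₃) ≠ 0 := by
      intro h0
      rw [h0, padicNorm.zero] at hyn
      linarith
    have e1 : W.toAffine.negY x y = -(y + (W.a₁ * x + W.a₃)) := by
      unfold Affine.negY
      ring
    have e2 : -x / y + -x / (W.toAffine.negY x y) =
        -(x * (W.a₁ * x + W.a₃)) / (y * (y + (W.a₁ * x + W.a₃))) := by
      rw [e1, div_add_div _ _ h8 (neg_ne_zero.2 hyn0), div_eq_div_iff
        (mul_ne_zero h8 (neg_ne_zero.2 hyn0)) (mul_ne_zero h8 hyn0)]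
      ring
    rw [e2, padicNorm.div, padicNorm.neg, padicNorm.mul, padicNorm.mul y, hyn, padicNorm.div,
      padicNorm.neg, div_pow, sq (padicNorm p y)]
    apply div_le_div_of_nonneg_right _ (by positivity)
    rw [sq]
    refine mul_le_mul_of_nonneg_left ?_ hx0.le
    refine RedB_add ?_ (h3.trans hP.le)
    have := RedB_mul h1 (le_refl (padicNorm p x))
    linarith

private theorem RedB_three {W : WeierstrassCurve ℚ}
    (h1 : padicNorm p W.a₁ ≤ 1) (h2 : padicNorm p W.a₂ ≤ 1) (h3 : padicNorm p W.a₃ ≤ 1)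
    (h4 : padicNorm p W.a₄ ≤ 1) (h6 : padicNorm p W.a₆ ≤ 1) (P Q R : W.toAffine.Point)
    (hP : Kr W p P) (hQ : Kr W p Q) (hR : Kr W p R) (h0 : P + Q + R = 0) (t : ℚ)
    (tP : padicNorm p (zz W P) ≤ t) (tQ : padicNorm p (zz W Q) ≤ t)
    (tR : padicNorm p (zz W R) ≤ t) : padicNorm p (zz W P + zz W Q + zz W R) ≤ t ^ 2 := by
  have hz : zz W 0 = 0 := rfl
  by_cases hP0 : P = 0
  · subst hP0
    rw [zero_add] at h0
    have h5 : R = -Q := (neg_eq_of_add_eq_zero_right h0).symm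
    subst h5
    rw [hz, zero_add]
    exact (RedB_neg h1 h2 h3 h4 h6 Q hQ).trans (pow_le_pow_left₀ (padicNorm.nonneg _) tQ 2)
  by_cases hQ0 : Q = 0
  · subst hQ0
    rw [add_zero] at h0
    have h5 : R = -P := (neg_eq_of_add_eq_zero_right h0).symm
    subst h5
    rw [hz, add_zero]
    exact (RedB_neg h1 h2 h3 h4 h6 P hP).trans (pow_le_pow_left₀ (padicNorm.nonneg _) tP 2)
  by_cases hR0 : R = 0
  · subst hR0
    rw [add_zero] at h0
    have h5 : Q = -P := (neg_eq_of_add_eq_zero_right h0).symm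
    subst h5
    rw [hz, add_zero]
    exact (RedB_neg h1 h2 h3 h4 h6 P hP).trans (pow_le_pow_left₀ (padicNorm.nonneg _) tP 2)
  rcases P with _ | ⟨x1, y1, n1⟩
  · exact absurd rfl hP0
  rcases Q with _ | ⟨x2, y2, n2⟩
  · exact absurd rfl hQ0
  rcases R with _ | ⟨x3, y3, n3⟩
  · exact absurd rfl hR0
  obtain ⟨l, n, e1, e2, e3, hL⟩ := RkT.sum_line n1 n2 n3 h0
  change 1 < padicNorm p x1 at hP
  change 1 < padicNorm p x2 at hQ
  change 1 < padicNorm p x3 at hR
  change padicNorm p (-x1 / y1) ≤ t at tP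
  change padicNorm p (-x2 / y2) ≤ t at tQ
  change padicNorm p (-x3 / y3) ≤ t at tR
  change padicNorm p (-x1 / y1 + -x2 / y2 + -x3 / y3) ≤ t ^ 2
  obtain ⟨-, -, g1, k1⟩ := RedB_pt' h1 h2 h3 h4 h6 n1 hP
  obtain ⟨-, -, g2, k2⟩ := RedB_pt' h1 h2 h3 h4 h6 n2 hQ
  obtain ⟨-, -, g3, k3⟩ := RedB_pt' h1 h2 h3 h4 h6 n3 hR
  have e5 : -x1 / y1 + -x2 / y2 + -x3 / y3 = -(x1 / y1 + x2 / y2 + x3 / y3) := by ring
  rw [e5, padicNorm.neg]
  refine RedB_line h1 h2 h3 h4 h6 hP hQ hR g1 g2 g3 e1 e2 e3 hL.s1 hL.s2 hL.s3 ?_ ?_ ?_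
  · rw [← k1]
    exact pow_le_pow_left₀ (padicNorm.nonneg _) tP 2
  · rw [← k2]
    exact pow_le_pow_left₀ (padicNorm.nonneg _) tQ 2
  · rw [← k3]
    exact pow_le_pow_left₀ (padicNorm.nonneg _) tR 2

private theorem RedB_two {W : WeierstrassCurve ℚ}
    (h1 : padicNorm p W.a₁ ≤ 1) (h2 : padicNorm p W.a₂ ≤ 1) (h3 : padicNorm p W.a₃ ≤ 1)
    (h4 : padicNorm p W.a₄ ≤ 1) (h6 : padicNorm p W.a₆ ≤ 1) (P Q : W.toAffine.Point)
    (hP : Kr W p P) (hQ : Kr W p Q) (hR : Kr W p (-(P + Q))) (t : ℚ)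
    (tP : padicNorm p (zz W P) ≤ t) (tQ : padicNorm p (zz W Q) ≤ t) (ht : t < 1) :
    padicNorm p (zz W (P + Q)) ≤ t ∧
      padicNorm p (zz W (P + Q) - (zz W P + zz W Q)) ≤ t ^ 2 := by
  have ht0 : 0 ≤ t := (padicNorm.nonneg _).trans tP
  have hR1 := RedB_zlt h1 h2 h3 h4 h6 _ hR
  have hR0 := padicNorm.nonneg (p := p) (zz W (-(P + Q)))
  have hS := RedB_neg h1 h2 h3 h4 h6 _ hR
  rw [neg_neg] at hS
  have hRt : padicNorm p (zz W (-(P + Q))) ≤ t := by
    by_contra hc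
    rw [not_le] at hc
    have h5 := RedB_three h1 h2 h3 h4 h6 P Q (-(P + Q)) hP hQ hR (add_neg_cancel _) _
      (tP.trans hc.le) (tQ.trans hc.le) le_rfl
    have h7 : padicNorm p (zz W (-(P + Q)) + (zz W P + zz W Q)) =
        padicNorm p (zz W (-(P + Q))) := by
      apply RedB_dom
      exact lt_of_le_of_lt (RedB_add tP tQ) hc
    rw [add_comm, h7] at h5
    nlinarith
  have h5 := RedB_three h1 h2 h3 h4 h6 P Q (-(P + Q)) hP hQ hR (add_neg_cancel _) t tP tQ hRt
  have hS' : padicNorm p (zz W (-(P + Q)) + zz W (P + Q)) ≤ t ^ 2 :=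
    hS.trans (pow_le_pow_left₀ hR0 hRt 2)
  have h7 : padicNorm p (zz W (P + Q) - (zz W P + zz W Q)) ≤ t ^ 2 := by
    have e : zz W (P + Q) - (zz W P + zz W Q) = (zz W (-(P + Q)) + zz W (P + Q)) -
        (zz W P + zz W Q + zz W (-(P + Q))) := by ring
    rw [e]
    exact RedB_sub hS' h5
  refine ⟨?_, h7⟩
  have e : zz W (P + Q) = (zz W (P + Q) - (zz W P + zz W Q)) + (zz W P + zz W Q) := by ring
  rw [e]
  refine RedB_add (h7.trans ?_) (RedB_add tP tQ)
  nlinarith

end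

theorem ker_tor {W : WeierstrassCurve ℚ} {p : ℕ} [Fact p.Prime]
    (h1 : ¬ p ∣ W.a₁.den) (h2 : ¬ p ∣ W.a₂.den) (h3 : ¬ p ∣ W.a₃.den) (h4 : ¬ p ∣ W.a₄.den)
    (h6 : ¬ p ∣ W.a₆.den) {B : Type} [AddCommGroup B] (f : W.toAffine.Point →+ B)
    (hK : ∀ (x y : ℚ) (h : W.toAffine.Nonsingular x y), f (.some x y h) = 0 ↔ p ∣ x.den)
    (n : ℕ) (P : W.toAffine.Point) (hn : ¬ p ∣ n) (h0 : n • P = 0) (hf : f P = 0) : P = 0 := by
  have b1 := RedB_le h1
  have b2 := RedB_le h2
  have b3 := RedB_le h3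
  have b4 := RedB_le h4
  have b6 := RedB_le h6
  have hKr : ∀ Q : W.toAffine.Point, f Q = 0 → Kr W p Q := by
    intro Q hQ
    rcases Q with _ | ⟨x, y, h⟩
    · trivial
    · exact RedB_gt ((hK x y h).1 hQ)
  have hP := hKr P hf
  have hlt := RedB_zlt b1 b2 b3 b4 b6 P hP
  have hnn := padicNorm.nonneg (p := p) (zz W P)
  have hk : ∀ k : ℕ, f (k • P) = 0 := by
    intro k
    rw [map_nsmul, hf, nsmul_zero]
  have hind : ∀ k : ℕ, padicNorm p (zz W (k • P)) ≤ padicNorm p (zz W P) ∧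
      padicNorm p (zz W (k • P) - k * zz W P) ≤ padicNorm p (zz W P) ^ 2 := by
    intro k
    induction k with
    | zero =>
      rw [zero_nsmul]
      have hz : zz W 0 = 0 := rfl
      rw [hz]
      simp only [Nat.cast_zero, zero_mul, sub_zero, padicNorm.zero]
      exact ⟨hnn, by positivity⟩
    | succ k ih =>
      have h5 := RedB_two b1 b2 b3 b4 b6 (k • P) P (hKr _ (hk k)) hP
        
        (hKr _ (by rw [map_neg, map_add, hk, hf, add_zero, neg_zero])) _ ih.1 le_rfl hlt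
      rw [succ_nsmul]
      refine ⟨h5.1, ?_⟩
      have e : zz W (k • P + P) - ((k + 1 : ℕ) : ℚ) * zz W P =
          (zz W (k • P + P) - (zz W (k • P) + zz W P)) + (zz W (k • P) - k * zz W P) := by
        push_cast
        ring
      rw [e]
      exact RedB_add h5.2 ih.2
  have h5 := (hind n).2
  rw [h0] at h5
  have hz : zz W 0 = 0 := rfl
  rw [hz, zero_sub, padicNorm.neg, padicNorm.mul, (padicNorm.nat_eq_one_iff (p := p) n).2 hn,
    one_mul] at h5
  apply RedB_zpos b1 b2 b3 b4 b6 P hP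
  by_contra hc
  rw [not_le] at hc
  nlinarith

end Pool.Agent.InfR
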