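import Pool.Agent.InfR.RedA
import Pool.Agent.InfR.RedB

/-!
# Reduction of elliptic curves over ℚ modulo a good prime
-/

set_option autoImplicit false

namespace Pool.Agent.InfR

open WeierstrassCurve

theorem exists_rdn {W : WeierstrassCurve ℚ} {p : ℕ} [Fact p.Prime] {V : WeierstrassCurve (ZMod p)}
    (h1 : Cg p W.a₁ V.a₁) (h2 : Cg p W.a₂ V.a₂) (h3 : Cg p W.a₃ V.a₃) (h4 : Cg p W.a₄ V.a₄)
    (h6 : Cg p W.a₆ V.a₆) (hΔ : V.Δ ≠ 0) : ∃ f, Rdn W p V f := by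
  obtain ⟨f, hr, hk, hi⟩ := exists_red h1 h2 h3 h4 h6 hΔ
  refine ⟨f, hr, fun x y h h0 => ?_, fun n P hn hP h0 => ?_⟩
  · have hx : ¬ p ∣ x.den := fun hx => h0 ((hk x y h).2 hx)
    exact ⟨hx, hi x y h hx⟩
  · exact ker_tor h1.1 h2.1 h3.1 h4.1 h6.1 f hk n P hn hP h0

end Pool.Agent.InfR
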