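import Pool.Agent.InfR.Nm
import Pool.Agent.RkT.Line

/-!
# MODULE RedA: the reduction map modulo a good prime is a homomorphism

Proof.  `|·| = padicNorm p`.  For a point `(x, y)` of `W`: `|x| ≤ 1` iff `|y| ≤ 1`; if `|x| > 1` then
`|y|^2 = |x|^3`.  Define `f 0 = 0`, `f (x, y) = (x̄, ȳ)` if `|x| ≤ 1` (nonsingular because `V.Δ ≠ 0`,
`Affine.equation_iff_nonsingular_of_Δ_ne_zero`) and `0` otherwise.  Use `RkT.hom_of_line` (Line.lean).
Let `IsLine W x1 x2 x3 l n`, `y_i = l x_i + n`.
(i) all `|x_i| ≤ 1`: `s3` gives `|n| ≤ 1`, `s1` gives `|l| ≤ 1`; reduce and use `RkT.line_sum` for `V`.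
(ii) all `|x_i| > 1`: trivial.
(iii) `|x3| > 1`, `|x1| ≤ 1` (other cases by symmetry, `IsLine.rot`, `IsLine.swap`):
`y3 - y1 = l (x3 - x1)` gives `|l|^2 = |x3| > 1`, and `n = y1 - l x1`, `|n| ≤ |l|`; `s2` gives
`x2 (x1 + x3) = a4 - 2 l n - a1 n - a3 l - x1 x3`, so `|x2| ≤ 1`; `y2 - y1 = l (x2 - x1)` gives
`|x2 - x1| < 1`; and `s1, s2` give `y1 + y2 + a1 x2 + a3 = - I / l` with
`I = x1 x2 - (a2 + x1 + x2) (x1 + x2) - a4 + a1 y1`, `|I| ≤ 1`, so the residue of the left side is `0` and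
`f(P1) = - f(P2)`.
-/

set_option autoImplicit false

namespace Pool.Agent.InfR

open WeierstrassCurve

section size

variable {p : ℕ} [Fact p.Prime] {a1 a2 a3 a4 a6 x y : ℚ}

theorem size_le (h1 : padicNorm p a1 ≤ 1) (h2 : padicNorm p a2 ≤ 1) (h3 : padicNorm p a3 ≤ 1)
    (h4 : padicNorm p a4 ≤ 1) (h6 : padicNorm p a6 ≤ 1)
    (e : y ^ 2 + a1 * x * y + a3 * y = x ^ 3 + a2 * x ^ 2 + a4 * x + a6)
    (hx : padicNorm p x ≤ 1) : padicNorm p y ≤ 1 := by
  by_contra hy
  rw [not_le] at hy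
  have hy0 : (0 : ℚ) ≤ padicNorm p y := padicNorm.nonneg _
  have e' : y ^ 2 = x ^ 3 + a2 * x ^ 2 + a4 * x + a6 - (a1 * x) * y - a3 * y := by
    linear_combination e
  have hx0 : (0 : ℚ) ≤ padicNorm p x := padicNorm.nonneg _
  have b1 : padicNorm p (x ^ 3) ≤ padicNorm p y := by
    rw [n_pow]
    exact (pow_le_one₀ hx0 hx).trans hy.le
  have b2 : padicNorm p (a2 * x ^ 2) ≤ padicNorm p y := by
    have := n_mul_le h2 (by rw [n_pow]; exact pow_le_one₀ hx0 hx : padicNorm p (x ^ 2) ≤ 1)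
    linarith
  have b4 : padicNorm p (a4 * x) ≤ padicNorm p y := by
    have := n_mul_le h4 hx
    linarith
  have b6 : padicNorm p a6 ≤ padicNorm p y := h6.trans hy.le
  have c1 : padicNorm p ((a1 * x) * y) ≤ padicNorm p y := by
    have := n_mul_le (n_mul_le h1 hx) (le_refl (padicNorm p y))
    linarith
  have c3 : padicNorm p (a3 * y) ≤ padicNorm p y := by
    have := n_mul_le h3 (le_refl (padicNorm p y))
    linarith
  have hle : padicNorm p (y ^ 2) ≤ padicNorm p y := by
    rw [e']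
    exact n_sub_le (n_sub_le (n_add_le (n_add_le (n_add_le b1 b2) b4) b6) c1) c3
  rw [n_pow] at hle
  nlinarith

theorem size_eq (h1 : padicNorm p a1 ≤ 1) (h2 : padicNorm p a2 ≤ 1) (h3 : padicNorm p a3 ≤ 1)
    (h4 : padicNorm p a4 ≤ 1) (h6 : padicNorm p a6 ≤ 1)
    (e : y ^ 2 + a1 * x * y + a3 * y = x ^ 3 + a2 * x ^ 2 + a4 * x + a6)
    (hx : 1 < padicNorm p x) : padicNorm p y ^ 2 = padicNorm p x ^ 3 := by
  set X := padicNorm p x with hX
  have hX2 : X < X ^ 2 := by nlinarith
  have hX3 : X ^ 2 < X ^ 3 := by nlinarith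
  have r1 : padicNorm p (a2 * x ^ 2 + a4 * x + a6) ≤ X ^ 2 := by
    refine n_add_le (n_add_le ?_ ?_) (h6.trans (by linarith))
    · have := n_mul_le h2 (by rw [n_pow] : padicNorm p (x ^ 2) ≤ X ^ 2)
      linarith
    · have := n_mul_le h4 (le_refl X)
      linarith
  have r2 : padicNorm p (x ^ 3 + (a2 * x ^ 2 + a4 * x + a6)) = X ^ 3 := by
    rw [n_add_eq (by rw [n_pow]; linarith), n_pow]
  have l1 : padicNorm p (a1 * x + a3) ≤ X := by
    refine n_add_le ?_ (h3.trans hx.le)
    have := n_mul_le h1 (le_refl X)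
    linarith
  have e' : y * (y + (a1 * x + a3)) = x ^ 3 + (a2 * x ^ 2 + a4 * x + a6) := by
    linear_combination e
  have hy : X < padicNorm p y := by
    by_contra hy
    rw [not_lt] at hy
    have l2 := n_mul_le hy (n_add_le hy l1)
    rw [e', r2] at l2
    nlinarith
  have l3 : padicNorm p (y * (y + (a1 * x + a3))) = padicNorm p y ^ 2 := by
    rw [padicNorm.mul, n_add_eq (lt_of_le_of_lt l1 hy)]
    ring
  rw [← l3, e', r2]

end size

section main

variable {W : WeierstrassCurve ℚ} {p : ℕ} [Fact p.Prime] {V : WeierstrassCurve (ZMod p)}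

/-- the coefficients are integral and reduce to those of `V` -/
structure Gd (W : WeierstrassCurve ℚ) (p : ℕ) [Fact p.Prime] (V : WeierstrassCurve (ZMod p)) :
    Prop where
  h1 : Cg p W.a₁ V.a₁
  h2 : Cg p W.a₂ V.a₂
  h3 : Cg p W.a₃ V.a₃
  h4 : Cg p W.a₄ V.a₄
  h6 : Cg p W.a₆ V.a₆
  hΔ : V.Δ ≠ 0

theorem eqn {x y : ℚ} (h : W.toAffine.Nonsingular x y) :
    y ^ 2 + W.a₁ * x * y + W.a₃ * y = x ^ 3 + W.a₂ * x ^ 2 + W.a₄ * x + W.a₆ :=
  (Affine.equation_iff _ _).1 h.1

theorem Gd.le (g : Gd W p V) {x y : ℚ} (h : W.toAffine.Nonsingular x y)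
    (hx : padicNorm p x ≤ 1) : padicNorm p y ≤ 1 :=
  size_le g.h1.le g.h2.le g.h3.le g.h4.le g.h6.le (eqn h) hx

theorem Gd.eq (g : Gd W p V) {x y : ℚ} (h : W.toAffine.Nonsingular x y)
    (hx : 1 < padicNorm p x) : padicNorm p y ^ 2 = padicNorm p x ^ 3 :=
  size_eq g.h1.le g.h2.le g.h3.le g.h4.le g.h6.le (eqn h) hx

theorem Gd.ns (g : Gd W p V) {x y : ℚ} (h : W.toAffine.Nonsingular x y) {a b : ZMod p}
    (ha : Cg p x a) (hb : Cg p y b) : V.toAffine.Nonsingular a b := by
  rw [← Affine.equation_iff_nonsingular_of_Δ_ne_zero g.hΔ, Affine.equation_iff]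
  have hl : Cg p (y ^ 2 + W.a₁ * x * y + W.a₃ * y) (b ^ 2 + V.a₁ * a * b + V.a₃ * b) :=
    ((hb.pow 2).add ((g.h1.mul ha).mul hb)).add (g.h3.mul hb)
  have hr : Cg p (x ^ 3 + W.a₂ * x ^ 2 + W.a₄ * x + W.a₆)
      (a ^ 3 + V.a₂ * a ^ 2 + V.a₄ * a + V.a₆) :=
    (((ha.pow 3).add (g.h2.mul (ha.pow 2))).add (g.h4.mul ha)).add g.h6
  rw [eqn h] at hl
  exact hl.uniq hr

open Classical in
/-- the reduction map -/
noncomputable def redM (g : Gd W p V) : W.toAffine.Point → V.toAffine.Point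
  | .zero => 0
  | .some x y h => if hx : padicNorm p x ≤ 1 then
      .some (x : ZMod p) (y : ZMod p) (g.ns h (cg_of_le hx) (cg_of_le (g.le h hx))) else 0

theorem redM_zero (g : Gd W p V) : redM g 0 = 0 := rfl

theorem redM_le (g : Gd W p V) {x y : ℚ} (h : W.toAffine.Nonsingular x y)
    (hx : padicNorm p x ≤ 1) : redM g (.some x y h) =
      .some (x : ZMod p) (y : ZMod p) (g.ns h (cg_of_le hx) (cg_of_le (g.le h hx))) :=
  dif_pos hx

theorem redM_gt (g : Gd W p V) {x y : ℚ} (h : W.toAffine.Nonsingular x y)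
    (hx : ¬ padicNorm p x ≤ 1) : redM g (.some x y h) = 0 :=
  dif_neg hx

theorem some_congr {x y x' y' : ZMod p} (h : V.toAffine.Nonsingular x y)
    (h' : V.toAffine.Nonsingular x' y') (hx : x = x') (hy : y = y') :
    (Affine.Point.some x y h : V.toAffine.Point) = Affine.Point.some x' y' h' := by
  subst hx hy
  rfl

theorem redM_neg (g : Gd W p V) (P : W.toAffine.Point) : redM g (-P) = -redM g P := by
  rcases P with _ | ⟨x, y, h⟩
  · rw [← Affine.Point.zero_def, neg_zero, redM_zero, neg_zero]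
  · rw [Affine.Point.neg_some]
    by_cases hx : padicNorm p x ≤ 1
    · rw [redM_le g _ hx, redM_le g h hx, Affine.Point.neg_some]
      refine some_congr _ _ rfl ?_
      have h1 : Cg p (W.toAffine.negY x y) (V.toAffine.negY (x : ZMod p) (y : ZMod p)) :=
        ((cg_of_le (g.le h hx)).neg.sub (g.h1.mul (cg_of_le hx))).sub g.h3
      exact h1.2
    · rw [redM_gt g _ hx, redM_gt g h hx, neg_zero]

/-- one point in the kernel, one not -/
theorem redM_mix (g : Gd W p V) {x1 y1 x2 y2 x3 y3 l n : ℚ} (h1 : W.toAffine.Nonsingular x1 y1)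
    (h2 : W.toAffine.Nonsingular x2 y2) (h3 : W.toAffine.Nonsingular x3 y3)
    (e1 : y1 = l * x1 + n) (e2 : y2 = l * x2 + n) (e3 : y3 = l * x3 + n)
    (L : RkT.IsLine W x1 x2 x3 l n) (hx1 : padicNorm p x1 ≤ 1) (hx3 : ¬ padicNorm p x3 ≤ 1) :
    redM g (.some x1 y1 h1) + redM g (.some x2 y2 h2) + redM g (.some x3 y3 h3) = 0 := by
  have hx3' : 1 < padicNorm p x3 := not_le.1 hx3
  have hy1 := g.le h1 hx1
  have hy3 := g.eq h3 hx3'
  set X := padicNorm p x3 with hX
  have hXX : 1 < X ^ 3 := by nlinarith [sq_nonneg (X - 1)]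
  have hy3' : 1 < padicNorm p y3 := by
    by_contra hc
    rw [not_lt] at hc
    have := pow_le_one₀ (n := 2) (padicNorm.nonneg y3) hc
    linarith
  have d1 : padicNorm p (y3 - y1) = padicNorm p y3 := n_sub_eq (lt_of_le_of_lt hy1 hy3')
  have d2 : padicNorm p (x3 - x1) = X := n_sub_eq (lt_of_le_of_lt hx1 hx3')
  have d3 : padicNorm p y3 = padicNorm p l * X := by
    rw [← d1, ← d2, ← padicNorm.mul]
    congr 1
    rw [e1, e3]
    ring
  have hX0 : X ≠ 0 := by positivity
  have hl2 : padicNorm p l ^ 2 = X := by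
    have h5 : (padicNorm p l * X) ^ 2 = X ^ 3 := by rw [← d3, hy3]
    have h6 : X ^ 2 * (padicNorm p l ^ 2 - X) = 0 := by linear_combination h5
    rcases mul_eq_zero.1 h6 with h7 | h7
    · exact absurd h7 (pow_ne_zero 2 hX0)
    · linarith
  have hl0 : 0 ≤ padicNorm p l := padicNorm.nonneg _
  have hl1 : 1 < padicNorm p l := by
    by_contra hc
    rw [not_lt] at hc
    have := pow_le_one₀ (n := 2) hl0 hc
    linarith
  have hlX : padicNorm p l ≤ X := by nlinarith
  have hn : padicNorm p n ≤ padicNorm p l := by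
    have : n = y1 - l * x1 := by rw [e1]; ring
    rw [this]
    refine n_sub_le (hy1.trans hl1.le) ?_
    have := n_mul_le (le_refl (padicNorm p l)) hx1
    linarith
  -- `x2` is integral
  have s2 := L.s2
  have k1 : x2 * (x3 + x1) = W.a₄ - 2 * (l * n) - W.a₁ * n - W.a₃ * l - x1 * x3 := by
    linear_combination s2
  have k2 : padicNorm p (x3 + x1) = X := n_add_eq (lt_of_le_of_lt hx1 hx3')
  have hln : padicNorm p (l * n) ≤ X := by
    have := n_mul_le (le_refl (padicNorm p l)) hn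
    nlinarith
  have k3 : padicNorm p (x2 * (x3 + x1)) ≤ X := by
    rw [k1]
    refine n_sub_le (n_sub_le (n_sub_le (n_sub_le (g.h4.le.trans (by linarith)) ?_) ?_) ?_) ?_
    · have := n_mul_le (n_two (p := p)) hln
      linarith
    · have := n_mul_le g.h1.le (hn.trans hlX)
      linarith
    · have := n_mul_le g.h3.le hlX
      linarith
    · have := n_mul_le hx1 (le_refl X)
      linarith
  have hx2 : padicNorm p x2 ≤ 1 := by
    rw [padicNorm.mul, k2] at k3
    by_contra hc
    rw [not_le] at hc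
    nlinarith
  have hy2 := g.le h2 hx2
  -- `x2` and `x1` are congruent
  have m1 : padicNorm p l * padicNorm p (x2 - x1) ≤ 1 := by
    rw [← padicNorm.mul]
    have : l * (x2 - x1) = y2 - y1 := by rw [e1, e2]; ring
    rw [this]
    exact n_sub_le hy2 hy1
  have m2 : padicNorm p (x2 - x1) < 1 := by
    by_contra hc
    rw [not_lt] at hc
    nlinarith
  -- the ordinates
  have i1 : l * (y1 + y2 + W.a₁ * x2 + W.a₃) =
      -(x1 * x2 - (W.a₂ + (x1 + x2)) * (x1 + x2) - W.a₄ + W.a₁ * y1) := by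
    linear_combination s2 - (x1 + x2) * L.s1 + (l + W.a₁) * e1 + l * e2
  have i2 : padicNorm p (x1 * x2 - (W.a₂ + (x1 + x2)) * (x1 + x2) - W.a₄ + W.a₁ * y1) ≤ 1 := by
    have a1 : padicNorm p (x1 * x2) ≤ 1 := by
      have := n_mul_le hx1 hx2
      linarith
    have a2 : padicNorm p ((W.a₂ + (x1 + x2)) * (x1 + x2)) ≤ 1 := by
      have := n_mul_le (n_add_le g.h2.le (n_add_le hx1 hx2)) (n_add_le hx1 hx2)
      linarith
    have a3 : padicNorm p (W.a₁ * y1) ≤ 1 := by
      have := n_mul_le g.h1.le hy1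
      linarith
    exact n_add_le (n_sub_le (n_sub_le a1 a2) g.h4.le) a3
  have i3 : padicNorm p (y1 + y2 + W.a₁ * x2 + W.a₃) < 1 := by
    have : padicNorm p l * padicNorm p (y1 + y2 + W.a₁ * x2 + W.a₃) ≤ 1 := by
      rw [← padicNorm.mul, i1, padicNorm.neg]
      exact i2
    by_contra hc
    rw [not_lt] at hc
    nlinarith
  rw [redM_gt g h3 hx3, add_zero, redM_le g h1 hx1, redM_le g h2 hx2]
  rw [eq_neg_of_add_eq_zero_left (a := (Affine.Point.some (x1 : ZMod p) (y1 : ZMod p)
    (g.ns h1 (cg_of_le hx1) (cg_of_le (g.le h1 hx1))) : V.toAffine.Point))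
    (b := Affine.Point.some (x2 : ZMod p) (y2 : ZMod p)
    (g.ns h2 (cg_of_le hx2) (cg_of_le (g.le h2 hx2))))]
  · exact neg_add_cancel _
  · apply add_eq_zero_iff_eq_neg.2
    rw [Affine.Point.neg_some]
    refine some_congr _ _ ?_ ?_
    · exact ((cg_of_le hx2).eq_of_lt (cg_of_le hx1) m2).symm
    · have c1 : Cg p (y1 + y2 + W.a₁ * x2 + W.a₃)
          ((y1 : ZMod p) + (y2 : ZMod p) + V.a₁ * (x2 : ZMod p) + V.a₃) :=
        (((cg_of_le hy1).add (cg_of_le hy2)).add (g.h1.mul (cg_of_le hx2))).add g.h3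
      have c2 := c1.uniq (cg_zero_of_lt i3)
      show (y1 : ZMod p) = -(y2 : ZMod p) - V.a₁ * (x2 : ZMod p) - V.a₃
      linear_combination c2

theorem redM_line (g : Gd W p V) (x1 y1 x2 y2 x3 y3 l n : ℚ) (h1 : W.toAffine.Nonsingular x1 y1)
    (h2 : W.toAffine.Nonsingular x2 y2) (h3 : W.toAffine.Nonsingular x3 y3)
    (e1 : y1 = l * x1 + n) (e2 : y2 = l * x2 + n) (e3 : y3 = l * x3 + n)
    (L : RkT.IsLine W x1 x2 x3 l n) :
    redM g (.some x1 y1 h1) + redM g (.some x2 y2 h2) + redM g (.some x3 y3 h3) = 0 := by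
  by_cases c1 : padicNorm p x1 ≤ 1
  · by_cases c3 : padicNorm p x3 ≤ 1
    · by_cases c2 : padicNorm p x2 ≤ 1
      · -- all integral
        have hn : padicNorm p n ≤ 1 := by
          by_contra hc
          rw [not_le] at hc
          have k1 : n * n = x1 * x2 * x3 + W.a₆ - W.a₃ * n := by linear_combination -L.s3
          have k2 : padicNorm p (n * n) ≤ padicNorm p n := by
            rw [k1]
            refine n_sub_le (n_add_le ?_ (g.h6.le.trans hc.le)) ?_
            · have := n_mul_le (n_mul_le c1 c2) c3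
              linarith
            · have := n_mul_le g.h3.le (le_refl (padicNorm p n))
              linarith
          rw [padicNorm.mul] at k2
          nlinarith
        have hl : padicNorm p l ≤ 1 := by
          by_contra hc
          rw [not_le] at hc
          have k1 : l * l = x1 + x2 + x3 + W.a₂ - W.a₁ * l := by linear_combination -L.s1
          have k2 : padicNorm p (l * l) ≤ padicNorm p l := by
            rw [k1]
            refine n_sub_le (n_add_le ?_ (g.h2.le.trans hc.le)) ?_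
            · exact (n_add_le (n_add_le c1 c2) c3).trans hc.le
            · have := n_mul_le g.h1.le (le_refl (padicNorm p l))
              linarith
          rw [padicNorm.mul] at k2
          nlinarith
        have X1 := cg_of_le c1
        have X2 := cg_of_le c2
        have X3 := cg_of_le c3
        have Ln := cg_of_le hn
        have Ll := cg_of_le hl
        rw [redM_le g h1 c1, redM_le g h2 c2, redM_le g h3 c3]
        refine RkT.line_sum (l := (l : ZMod p)) (n := (n : ZMod p)) _ _ _ ?_ ?_ ?_ ⟨?_, ?_, ?_⟩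
        · have := (Ll.mul X1).add Ln
          rw [← e1] at this
          exact this.2
        · have := (Ll.mul X2).add Ln
          rw [← e2] at this
          exact this.2
        · have := (Ll.mul X3).add Ln
          rw [← e3] at this
          exact this.2
        · have := (X1.add X2).add X3
          rw [L.s1] at this
          exact this.uniq (((Ll.pow 2).add (g.h1.mul Ll)).sub g.h2)
        · have := ((X1.mul X2).add (X1.mul X3)).add (X2.mul X3)
          rw [L.s2] at this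
          exact this.uniq (((g.h4.sub (((Cg.ofNat 2).mul Ll).mul Ln)).sub (g.h1.mul Ln)).sub
            (g.h3.mul Ll))
        · have := (X1.mul X2).mul X3
          rw [L.s3] at this
          exact this.uniq (((Ln.pow 2).add (g.h3.mul Ln)).sub g.h6)
      · have := redM_mix g h1 h3 h2 e1 e3 e2 L.rot.rot.swap c1 c2
        rw [← this]
        abel
    · exact redM_mix g h1 h2 h3 e1 e2 e3 L c1 c3
  · by_cases c2 : padicNorm p x2 ≤ 1
    · have := redM_mix g h2 h3 h1 e2 e3 e1 L.rot c2 c1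
      rw [← this]
      abel
    · by_cases c3 : padicNorm p x3 ≤ 1
      · have := redM_mix g h3 h1 h2 e3 e1 e2 L.rot.rot c3 c2
        rw [← this]
        abel
      · rw [redM_gt g h1 c1, redM_gt g h2 c2, redM_gt g h3 c3, add_zero, add_zero]

end main

theorem exists_red {W : WeierstrassCurve ℚ} {p : ℕ} [Fact p.Prime] {V : WeierstrassCurve (ZMod p)}
    (h1 : Cg p W.a₁ V.a₁) (h2 : Cg p W.a₂ V.a₂) (h3 : Cg p W.a₃ V.a₃) (h4 : Cg p W.a₄ V.a₄)
    (h6 : Cg p W.a₆ V.a₆) (hΔ : V.Δ ≠ 0) :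
    ∃ f : W.toAffine.Point →+ V.toAffine.Point,
      (∀ (x y : ℚ) (h : W.toAffine.Nonsingular x y) (a b : ZMod p), Cg p x a → Cg p y b →
        ∃ h' : V.toAffine.Nonsingular a b, f (.some x y h) = .some a b h') ∧
      (∀ (x y : ℚ) (h : W.toAffine.Nonsingular x y), f (.some x y h) = 0 ↔ p ∣ x.den) ∧
      ∀ (x y : ℚ), W.toAffine.Nonsingular x y → ¬ p ∣ x.den → ¬ p ∣ y.den := by
  have g : Gd W p V := ⟨h1, h2, h3, h4, h6, hΔ⟩
  refine ⟨⟨⟨redM g, redM_zero g⟩, RkT.hom_of_line (redM g) (redM_zero g) (redM_neg g)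
    (redM_line g)⟩, ?_, ?_, ?_⟩
  · intro x y h a b ha hb
    refine ⟨g.ns h ha hb, ?_⟩
    exact (redM_le g h ha.le).trans (some_congr _ _ ha.2 hb.2)
  · intro x y h
    change redM g (.some x y h) = 0 ↔ p ∣ x.den
    by_cases hx : padicNorm p x ≤ 1
    · rw [redM_le g h hx]
      constructor
      · intro h0
        exact absurd h0 (Affine.Point.some_ne_zero _)
      · intro h0
        exact absurd h0 ((int_iff x).2 hx)
    · rw [redM_gt g h hx]
      constructor
      · intro _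
        by_contra h0
        exact hx ((int_iff x).1 h0)
      · intro _
        rfl
  · intro x y h hx
    exact (int_iff y).2 (g.le h ((int_iff x).1 hx))

end Pool.Agent.InfR
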